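import Pool.Agent.Y121.OV.Reg

/-!
# Block operators
-/

open Module

namespace Pool.Agent.Y121.OV

set_option linter.unusedSectionVars false

variable {M N : Type*} [AddCommGroup M] [Module ℚ M] [AddCommGroup N] [Module ℚ N]

/-- The blocks of an operator. -/
def c11 (f : End ℚ (M × N)) : M →ₗ[ℚ] M := LinearMap.fst ℚ M N ∘ₗ f ∘ₗ LinearMap.inl ℚ M N
@[inherit_doc c11]
def c21 (f : End ℚ (M × N)) : M →ₗ[ℚ] N := LinearMap.snd ℚ M N ∘ₗ f ∘ₗ LinearMap.inl ℚ M N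
@[inherit_doc c11]
def c12 (f : End ℚ (M × N)) : N →ₗ[ℚ] M := LinearMap.fst ℚ M N ∘ₗ f ∘ₗ LinearMap.inr ℚ M N
@[inherit_doc c11]
def c22 (f : End ℚ (M × N)) : N →ₗ[ℚ] N := LinearMap.snd ℚ M N ∘ₗ f ∘ₗ LinearMap.inr ℚ M N

/-- The operators with a single block. -/
def j11 (a : M →ₗ[ℚ] M) : End ℚ (M × N) := LinearMap.inl ℚ M N ∘ₗ a ∘ₗ LinearMap.fst ℚ M N
@[inherit_doc j11]
def j21 (a : M →ₗ[ℚ] N) : End ℚ (M × N) := LinearMap.inr ℚ M N ∘ₗ a ∘ₗ LinearMap.fst ℚ M N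
@[inherit_doc j11]
def j12 (a : N →ₗ[ℚ] M) : End ℚ (M × N) := LinearMap.inl ℚ M N ∘ₗ a ∘ₗ LinearMap.snd ℚ M N
@[inherit_doc j11]
def j22 (a : N →ₗ[ℚ] N) : End ℚ (M × N) := LinearMap.inr ℚ M N ∘ₗ a ∘ₗ LinearMap.snd ℚ M N

lemma c11_apply (f : End ℚ (M × N)) (x : M) : c11 f x = (f (x, 0)).1 := rfl
lemma c21_apply (f : End ℚ (M × N)) (x : M) : c21 f x = (f (x, 0)).2 := rfl
lemma c12_apply (f : End ℚ (M × N)) (x : N) : c12 f x = (f (0, x)).1 := rfl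
lemma c22_apply (f : End ℚ (M × N)) (x : N) : c22 f x = (f (0, x)).2 := rfl

lemma j11_apply (a : M →ₗ[ℚ] M) (z : M × N) : j11 a z = (a z.1, 0) := rfl
lemma j21_apply (a : M →ₗ[ℚ] N) (z : M × N) : j21 a z = (0, a z.1) := rfl
lemma j12_apply (a : N →ₗ[ℚ] M) (z : M × N) : j12 a z = (a z.2, 0) := rfl
lemma j22_apply (a : N →ₗ[ℚ] N) (z : M × N) : j22 a z = (0, a z.2) := rfl

lemma blk_eq (f : End ℚ (M × N)) : f = j11 (c11 f) + j21 (c21 f) + j12 (c12 f) + j22 (c22 f) := by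
  apply LinearMap.ext
  rintro ⟨x, y⟩
  have h : f (x, y) = f (x, 0) + f (0, y) := by
    rw [← map_add]
    simp
  rw [h]
  apply Prod.ext
  · simp [j11_apply, j21_apply, j12_apply, j22_apply, c11_apply, c12_apply]
  · simp [j11_apply, j21_apply, j12_apply, j22_apply, c21_apply, c22_apply]

lemma j11_mul (a b : M →ₗ[ℚ] M) : (j11 a * j11 b : End ℚ (M × N)) = j11 (a ∘ₗ b) := rfl
lemma j22_mul (a b : N →ₗ[ℚ] N) : (j22 a * j22 b : End ℚ (M × N)) = j22 (a ∘ₗ b) := rfl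
lemma j12_mul_j21 (a : N →ₗ[ℚ] M) (b : M →ₗ[ℚ] N) :
    (j12 a * j21 b : End ℚ (M × N)) = j11 (a ∘ₗ b) := rfl
lemma j21_mul_j12 (a : M →ₗ[ℚ] N) (b : N →ₗ[ℚ] M) :
    (j21 a * j12 b : End ℚ (M × N)) = j22 (a ∘ₗ b) := rfl
lemma j21_mul_j11 (a : M →ₗ[ℚ] N) (b : M →ₗ[ℚ] M) :
    (j21 a * j11 b : End ℚ (M × N)) = j21 (a ∘ₗ b) := rfl
lemma j22_mul_j21 (a : N →ₗ[ℚ] N) (b : M →ₗ[ℚ] N) :
    (j22 a * j21 b : End ℚ (M × N)) = j21 (a ∘ₗ b) := rfl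
lemma j11_mul_j12 (a : M →ₗ[ℚ] M) (b : N →ₗ[ℚ] M) :
    (j11 a * j12 b : End ℚ (M × N)) = j12 (a ∘ₗ b) := rfl
lemma j12_mul_j22 (a : N →ₗ[ℚ] M) (b : N →ₗ[ℚ] N) :
    (j12 a * j22 b : End ℚ (M × N)) = j12 (a ∘ₗ b) := rfl

lemma j11_mul_j22 (a : M →ₗ[ℚ] M) (b : N →ₗ[ℚ] N) : (j11 a * j22 b : End ℚ (M × N)) = 0 := by
  apply LinearMap.ext
  intro z
  simp [Module.End.mul_apply, j11_apply, j22_apply]

lemma j22_mul_j11 (a : N →ₗ[ℚ] N) (b : M →ₗ[ℚ] M) : (j22 a * j11 b : End ℚ (M × N)) = 0 := by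
  apply LinearMap.ext
  intro z
  simp [Module.End.mul_apply, j11_apply, j22_apply]

lemma j11_sum {ι : Type*} (s : Finset ι) (a : ι → M →ₗ[ℚ] M) :
    (j11 (∑ i ∈ s, a i) : End ℚ (M × N)) = ∑ i ∈ s, j11 (a i) := by
  apply LinearMap.ext
  intro z
  rw [LinearMap.sum_apply]
  simp only [j11_apply, LinearMap.sum_apply]
  apply Prod.ext
  · simp [Prod.fst_sum]
  · simp [Prod.snd_sum]

lemma j22_sum {ι : Type*} (s : Finset ι) (a : ι → N →ₗ[ℚ] N) :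
    (j22 (∑ i ∈ s, a i) : End ℚ (M × N)) = ∑ i ∈ s, j22 (a i) := by
  apply LinearMap.ext
  intro z
  rw [LinearMap.sum_apply]
  simp only [j22_apply, LinearMap.sum_apply]
  apply Prod.ext
  · simp [Prod.fst_sum]
  · simp [Prod.snd_sum]

lemma c11_mul (f g : End ℚ (M × N)) : c11 (f * g) = c11 f ∘ₗ c11 g + c12 f ∘ₗ c21 g := by
  apply LinearMap.ext
  intro x
  have h : g (x, 0) = ((g (x, 0)).1, 0) + (0, (g (x, 0)).2) := by simp
  simp only [c11_apply, LinearMap.add_apply, LinearMap.comp_apply, c12_apply, c21_apply,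
    Module.End.mul_apply]
  conv_lhs => rw [h, map_add]
  rfl

lemma c21_mul (f g : End ℚ (M × N)) : c21 (f * g) = c21 f ∘ₗ c11 g + c22 f ∘ₗ c21 g := by
  apply LinearMap.ext
  intro x
  have h : g (x, 0) = ((g (x, 0)).1, 0) + (0, (g (x, 0)).2) := by simp
  simp only [c11_apply, LinearMap.add_apply, LinearMap.comp_apply, c22_apply, c21_apply,
    Module.End.mul_apply]
  conv_lhs => rw [h, map_add]
  rfl

lemma c12_mul (f g : End ℚ (M × N)) : c12 (f * g) = c11 f ∘ₗ c12 g + c12 f ∘ₗ c22 g := by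
  apply LinearMap.ext
  intro x
  have h : g (0, x) = ((g (0, x)).1, 0) + (0, (g (0, x)).2) := by simp
  simp only [c11_apply, LinearMap.add_apply, LinearMap.comp_apply, c12_apply, c22_apply,
    Module.End.mul_apply]
  conv_lhs => rw [h, map_add]
  rfl

lemma c22_mul (f g : End ℚ (M × N)) : c22 (f * g) = c21 f ∘ₗ c12 g + c22 f ∘ₗ c22 g := by
  apply LinearMap.ext
  intro x
  have h : g (0, x) = ((g (0, x)).1, 0) + (0, (g (0, x)).2) := by simp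
  simp only [c21_apply, LinearMap.add_apply, LinearMap.comp_apply, c12_apply, c22_apply,
    Module.End.mul_apply]
  conv_lhs => rw [h, map_add]
  rfl

end Pool.Agent.Y121.OV
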