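import Pool.Agent.Y121.OV.Defs
import Pool.Agent.Y121.OV.Blk
import Pool.Agent.Y121.NK.StdD

/-!
# The algebra of the operators induced by correspondences between two varieties
-/

open CategoryTheory AlgebraicGeometry Module

universe u v

namespace Pool.Agent.Y121.OV

open Pool.Agent.H914 Pool.Agent.H914.VarClass Pool.Agent.H914.VarClass.Obj Pool.Agent.W492.BB
  Pool.Agent.W550.Corr Pool.Agent.TH133 Pool.Agent.Y121.NK Pool.Agent.TH829.Kim

set_option linter.unusedSectionVars false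

variable {k : Type u} [Field k] {𝒱 : VarClass k} {C : TheoryData.{u, v, 0} 𝒱 ℚ}
  [hC : IsChowProj C] (H : WeilTheoryData.{u, v, 0} C ℚ) [hH : IsWeilProj H] {X Y Z W : 𝒱.Obj}

include hC hH

omit hC hH in
lemma cl_smul (q : ℚ) (z : C.A X) : H.cl (q • z) = q • H.cl z := map_rat_smul H.cl q z

/-- The operators induced by correspondences. -/
noncomputable def Alg (X Y : 𝒱.Obj) : Submodule ℚ (H.A X →ₗ[ℚ] H.A Y) where
  carrier := {f | ∃ Γ : C.A (X.prod Y), H.actL (H.cl Γ) = f}
  zero_mem' := ⟨0, by rw [map_zero]; exact LinearMap.ext fun x => H.act_zero x⟩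
  add_mem' := by
    rintro _ _ ⟨Γ, rfl⟩ ⟨Δ, rfl⟩
    exact ⟨Γ + Δ, by rw [map_add]; exact LinearMap.ext fun x => H.act_add _ _ x⟩
  smul_mem' := by
    rintro q _ ⟨Γ, rfl⟩
    exact ⟨q • Γ, by
      rw [cl_smul]
      apply LinearMap.ext
      intro x
      rw [H.actL_apply, LinearMap.smul_apply, H.actL_apply, H.act_apply, H.act_apply,
        smul_mul_assoc, map_smul]⟩

lemma mem_alg {f : H.A X →ₗ[ℚ] H.A Y} : f ∈ Alg H X Y ↔ ∃ Γ : C.A (X.prod Y),
    H.actL (H.cl Γ) = f := Iff.rfl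

lemma Alg.comp {f : H.A X →ₗ[ℚ] H.A Y} {g : H.A Y →ₗ[ℚ] H.A Z} (hg : g ∈ Alg H Y Z)
    (hf : f ∈ Alg H X Y) : g ∘ₗ f ∈ Alg H X Z := by
  obtain ⟨Γ, rfl⟩ := hf
  obtain ⟨Δ, rfl⟩ := hg
  exact ⟨C.comp Γ Δ, LinearMap.ext fun x => actH_comp H Γ Δ x⟩

lemma Alg.id (X : 𝒱.Obj) : (LinearMap.id : H.A X →ₗ[ℚ] H.A X) ∈ Alg H X X :=
  ⟨dg C X, LinearMap.ext fun x => actH_dg H x⟩

/-- Multiplication by the class of a cycle is induced by a symmetric correspondence. -/
lemma act_diag (z : C.A X) (x : H.A X) :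
    H.act (H.cl (C.push (Obj.lift (𝟙 X) (𝟙 X)) z)) x = H.cl z * x := by
  rw [H.act_apply, H.cl_push, ← H.proj_right, ← H.push_comp, ← H.pull_comp, lift_fst, lift_snd,
    H.pull_id, H.push_id]

omit hH in
lemma tp_diag (z : C.A X) : tp C (C.push (Obj.lift (𝟙 X) (𝟙 X)) z) =
    C.push (Obj.lift (𝟙 X) (𝟙 X)) z := by
  rw [tp_eq_push, ← C.push_comp]
  have e1 : Obj.lift (𝟙 X) (𝟙 X) ≫ sw X X = Obj.lift (𝟙 X) (𝟙 X) := by
    apply prod_ext <;> simp [sw, comp_lift]
  rw [e1]

lemma Alg.mulLeft (z : C.A X) : LinearMap.mulLeft ℚ (H.cl z) ∈ Alg H X X :=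
  ⟨C.push (Obj.lift (𝟙 X) (𝟙 X)) z, LinearMap.ext fun x => act_diag H z x⟩

/-- The component of a correspondence acts as the component of the operator. -/
lemma cmpH_act' (Γ : C.A (X.prod Y)) (d : ℤ) {i : ℤ} {a : H.A X} (ha : a ∈ H.gr X i) :
    cmpH H Y (i + 2 * d) (H.act (H.cl Γ) a) =
      H.act (H.cl (cmp C (X.prod Y) (X.dim + d) Γ)) a := by
  have key : (cmpH H Y (i + 2 * d)).toAddMonoidHom.comp
      ((LinearMap.applyₗ a).toAddMonoidHom.comp
        { toFun := fun Γ : C.A (X.prod Y) => H.actL (H.cl Γ)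
          map_zero' := by rw [map_zero]; exact LinearMap.ext fun x => H.act_zero x
          map_add' := fun Γ Δ => by rw [map_add]; exact LinearMap.ext fun x => H.act_add _ _ x }) =
      ((LinearMap.applyₗ a).toAddMonoidHom.comp
        { toFun := fun Γ : C.A (X.prod Y) => H.actL (H.cl Γ)
          map_zero' := by rw [map_zero]; exact LinearMap.ext fun x => H.act_zero x
          map_add' := fun Γ Δ => by rw [map_add]; exact LinearMap.ext fun x => H.act_add _ _ x
        : C.A (X.prod Y) →+ _ }).comp (cmp C (X.prod Y) (X.dim + d)).toAddMonoidHom := by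
    have h : ∀ (Γ : C.A (X.prod Y)), cmpH H Y (i + 2 * d) (H.act (H.cl Γ) a) =
      H.act (H.cl (cmp C (X.prod Y) (X.dim + d) Γ)) a := by
      intro Γ
      induction mem_iSup_gr Γ using Submodule.iSup_induction' with
      | mem j Γ hΓ =>
        have h1 : H.act (H.cl Γ) a ∈ H.gr Y (i + 2 * (j - X.dim)) := by
          rw [H.act_apply]
          have h2 := H.push_mem (snd X Y) (H.mul_mem (H.cl_mem hΓ) (H.pull_mem (fst X Y) ha))
          have e1 : 2 * j + i + 2 * ((Y.dim : ℤ) - ((X.prod Y).dim : ℤ)) =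
              i + 2 * (j - X.dim) := by
            rw [dim_prod]; push_cast; ring
          rwa [e1] at h2
        by_cases hj : j = X.dim + d
        · subst hj
          have e2 : i + 2 * ((X.dim : ℤ) + d - X.dim) = i + 2 * d := by ring
          rw [e2] at h1
          rw [cmpH_self H h1, cmp_self hΓ]
        · rw [cmpH_ne H h1 (by omega), cmp_ne hΓ hj, map_zero, H.act_zero]
      | zero => rw [map_zero, map_zero, H.act_zero, map_zero, map_zero, H.act_zero]
      | add x y _ _ hx hy =>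
        rw [map_add, H.act_add, map_add, hx, hy, map_add, map_add, H.act_add]
    ext Γ
    exact h Γ
  exact DFunLike.congr_fun key Γ

/-- The algebra of the operators induced by correspondences on `H(X) ⊕ H(Y)`. -/
noncomputable def algB (X Y : 𝒱.Obj) : Subalgebra ℚ (End ℚ (H.A X × H.A Y)) where
  carrier := {f | c11 f ∈ Alg H X X ∧ c21 f ∈ Alg H X Y ∧ c12 f ∈ Alg H Y X ∧ c22 f ∈ Alg H Y Y}
  mul_mem' := by
    rintro f g ⟨h1, h2, h3, h4⟩ ⟨k1, k2, k3, k4⟩
    refine ⟨?_, ?_, ?_, ?_⟩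
    · rw [c11_mul]
      exact Submodule.add_mem _ (Alg.comp H h1 k1) (Alg.comp H h3 k2)
    · rw [c21_mul]
      exact Submodule.add_mem _ (Alg.comp H h2 k1) (Alg.comp H h4 k2)
    · rw [c12_mul]
      exact Submodule.add_mem _ (Alg.comp H h1 k3) (Alg.comp H h3 k4)
    · rw [c22_mul]
      exact Submodule.add_mem _ (Alg.comp H h2 k3) (Alg.comp H h4 k4)
  add_mem' := by
    rintro f g ⟨h1, h2, h3, h4⟩ ⟨k1, k2, k3, k4⟩
    exact ⟨Submodule.add_mem _ h1 k1, Submodule.add_mem _ h2 k2, Submodule.add_mem _ h3 k3,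
      Submodule.add_mem _ h4 k4⟩
  algebraMap_mem' := by
    intro q
    have e : algebraMap ℚ (End ℚ (H.A X × H.A Y)) q = q • 1 := Algebra.algebraMap_eq_smul_one q
    rw [e]
    refine ⟨?_, ?_, ?_, ?_⟩
    · exact Submodule.smul_mem _ q (Alg.id H X)
    · have : c21 (q • (1 : End ℚ (H.A X × H.A Y))) = 0 := by
        apply LinearMap.ext
        intro x
        simp [c21_apply]
      rw [this]
      exact Submodule.zero_mem _
    · have : c12 (q • (1 : End ℚ (H.A X × H.A Y))) = 0 := by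
        apply LinearMap.ext
        intro x
        simp [c12_apply]
      rw [this]
      exact Submodule.zero_mem _
    · exact Submodule.smul_mem _ q (Alg.id H Y)

lemma mem_algB {f : End ℚ (H.A X × H.A Y)} : f ∈ algB H X Y ↔
    c11 f ∈ Alg H X X ∧ c21 f ∈ Alg H X Y ∧ c12 f ∈ Alg H Y X ∧ c22 f ∈ Alg H Y Y := Iff.rfl

lemma j11_mem {a : H.A X →ₗ[ℚ] H.A X} (ha : a ∈ Alg H X X) :
    (j11 a : End ℚ (H.A X × H.A Y)) ∈ algB H X Y :=
  ⟨ha, Submodule.zero_mem _, by
    have : c12 (j11 a : End ℚ (H.A X × H.A Y)) = 0 := by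
      apply LinearMap.ext
      intro x
      simp [c12_apply, j11_apply]
    rw [this]
    exact Submodule.zero_mem _, by
    have : c22 (j11 a : End ℚ (H.A X × H.A Y)) = 0 := by
      apply LinearMap.ext
      intro x
      simp [c22_apply, j11_apply]
    rw [this]
    exact Submodule.zero_mem _⟩

lemma j22_mem {a : H.A Y →ₗ[ℚ] H.A Y} (ha : a ∈ Alg H Y Y) :
    (j22 a : End ℚ (H.A X × H.A Y)) ∈ algB H X Y :=
  ⟨by
    have : c11 (j22 a : End ℚ (H.A X × H.A Y)) = 0 := by
      apply LinearMap.ext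
      intro x
      simp [c11_apply, j22_apply]
    rw [this]
    exact Submodule.zero_mem _, by
    have : c21 (j22 a : End ℚ (H.A X × H.A Y)) = 0 := by
      apply LinearMap.ext
      intro x
      simp [c21_apply, j22_apply]
    rw [this]
    exact Submodule.zero_mem _, Submodule.zero_mem _, ha⟩

lemma j21_mem {a : H.A X →ₗ[ℚ] H.A Y} (ha : a ∈ Alg H X Y) :
    (j21 a : End ℚ (H.A X × H.A Y)) ∈ algB H X Y :=
  ⟨Submodule.zero_mem _, ha, by
    have : c12 (j21 a : End ℚ (H.A X × H.A Y)) = 0 := by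
      apply LinearMap.ext
      intro x
      simp [c12_apply, j21_apply]
    rw [this]
    exact Submodule.zero_mem _, by
    have : c22 (j21 a : End ℚ (H.A X × H.A Y)) = 0 := by
      apply LinearMap.ext
      intro x
      simp [c22_apply, j21_apply]
    rw [this]
    exact Submodule.zero_mem _⟩

lemma j12_mem {a : H.A Y →ₗ[ℚ] H.A X} (ha : a ∈ Alg H Y X) :
    (j12 a : End ℚ (H.A X × H.A Y)) ∈ algB H X Y :=
  ⟨by
    have : c11 (j12 a : End ℚ (H.A X × H.A Y)) = 0 := by
      apply LinearMap.ext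
      intro x
      simp [c11_apply, j12_apply]
    rw [this]
    exact Submodule.zero_mem _, by
    have : c21 (j12 a : End ℚ (H.A X × H.A Y)) = 0 := by
      apply LinearMap.ext
      intro x
      simp [c21_apply, j12_apply]
    rw [this]
    exact Submodule.zero_mem _, ha, Submodule.zero_mem _⟩

end Pool.Agent.Y121.OV
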