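import Pool.Agent.TH133.Defs

/-!
# Mukai vectors, Hodge-Riemann relations and isomorphisms of motives modulo homological equivalence
-/

open CategoryTheory AlgebraicGeometry

universe u v

namespace Pool.Agent.Y121.OV

open Pool.Agent.H914 Pool.Agent.H914.VarClass Pool.Agent.H914.VarClass.Obj Pool.Agent.W492.BB
  Pool.Agent.W550.Corr Pool.Agent.TH133

variable {k : Type u} [Field k] {𝒱 : VarClass k} {C : TheoryData.{u, v, 0} 𝒱 ℚ}

/-- The exponential `exp κ = ∑ κ ^ j / j!` of a divisor class. -/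
noncomputable def expo (C : TheoryData.{u, v, 0} 𝒱 ℚ) {X : 𝒱.Obj} (κ : C.A X) : C.A X :=
  ∑ j ∈ Finset.range (X.dim + 1), ((j.factorial : ℚ)⁻¹) • κ ^ j

/-- The formal properties of Fourier-Mukai equivalences `D(X) → D(Y)`. Here `κX` and `κY` are one
half of the first Chern classes of `X` and of `Y`, `∑ v i` with `v i ∈ CH^i(X × Y)` is the Mukai
vector `ch(E) √td(X × Y)` of the kernel `E` of the equivalence, and `w` is the Mukai vector of the
kernel `E^∨ ⊗ ω_X [dim X]` of its inverse: the two classes are inverse to each other as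
correspondences, and `exp(κX) w = (-1)^(dim X) (∑ (-1)^i v i) exp(κY)` (up to the exchange of the
factors). -/
structure IsFM (C : TheoryData.{u, v, 0} 𝒱 ℚ) {X Y : 𝒱.Obj} (κX : C.A X) (κY : C.A Y)
    (v : ℕ → C.A (X.prod Y)) (w : C.A (Y.prod X)) : Prop where
  dim_eq : X.dim = Y.dim
  degX : C.Deg 1 κX
  degY : C.Deg 1 κY
  deg : ∀ i : ℕ, C.Deg i (v i)
  left : C.comp (∑ i ∈ Finset.range (2 * X.dim + 1), v i) w = C.graph (𝟙 X)
  right : C.comp w (∑ i ∈ Finset.range (2 * X.dim + 1), v i) = C.graph (𝟙 Y)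
  dual : C.mul (C.up (snd Y X) (expo C κX)) w = tp C (C.mul (C.up (snd X Y) (expo C κY))
    (∑ i ∈ Finset.range (2 * X.dim + 1), ((-1 : ℚ) ^ (X.dim + i)) • v i))

/-- The class in the cohomology of an algebraic cycle. -/
def cls (H : WeilTheoryData.{u, v, 0} C ℚ) {X : 𝒱.Obj} (z : C.A X) : H.A X := H.cl z

/-- The action `H(X) → H(Y)` of a correspondence. -/
noncomputable def co (H : WeilTheoryData.{u, v, 0} C ℚ) {X Y : 𝒱.Obj} (Γ : C.A (X.prod Y))
    (x : H.A X) : H.A Y := H.act (H.cl Γ) x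

/-- The cohomology algebras are graded-commutative. -/
def IsGradedComm (H : WeilTheoryData.{u, v, 0} C ℚ) : Prop :=
  ∀ (X : 𝒱.Obj) (i j : ℤ) (a b : H.A X), H.Deg i a → H.Deg j b →
    H.mul a b = (-1 : ℚ) ^ (i * j) • H.mul b a

/-- The real forms `h(x, y) = ∫ x ∪ J y` on the cohomology with rational coefficients, for the Weil
operator `J` (multiplication by `i ^ (q - p)` on `H^{p, q}`), are additive and compatible with
correspondences, as the correspondences commute with the Weil operators. -/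
structure IsWeilForm (H : WeilTheoryData.{u, v, 0} C ℚ) (h : ∀ X, H.A X → H.A X → ℝ) : Prop where
  add_left : ∀ (X : 𝒱.Obj) (x y z : H.A X), h X (x + y) z = h X x z + h X y z
  add_right : ∀ (X : 𝒱.Obj) (x y z : H.A X), h X x (y + z) = h X x y + h X x z
  adj : ∀ (X Y : 𝒱.Obj) (Γ : C.A (X.prod Y)) (x : H.A X) (y : H.A Y),
    h Y (co H Γ x) y = h X x (co H (tp C Γ) y)

/-- The hard Lefschetz theorem and the Hodge-Riemann bilinear relations for the class `η` of an
ample divisor on `X`, where `h(x, y) = ∫ x ∪ J y` is the real form of `IsWeilForm`. -/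
structure IsAmple (H : WeilTheoryData.{u, v, 0} C ℚ) (h : ∀ X, H.A X → H.A X → ℝ)
    (X : 𝒱.Obj) (η : C.A X) : Prop where
  deg : C.Deg 1 η
  inj : ∀ (i : ℕ) (x : H.A X), H.Deg ((X.dim : ℤ) - i) x → H.mul (cls H (η ^ i)) x = 0 → x = 0
  surj : ∀ (i : ℕ) (y : H.A X), H.Deg ((X.dim : ℤ) + i) y →
    ∃ x : H.A X, H.Deg ((X.dim : ℤ) - i) x ∧ H.mul (cls H (η ^ i)) x = y
  pos : ∀ (i j : ℕ) (x : H.A X), i + j = X.dim → H.Deg i x → H.mul (cls H (η ^ (j + 1))) x = 0 →
    x ≠ 0 → 0 < (-1 : ℝ) ^ (i * (i - 1) / 2) * h X x (H.mul (cls H (η ^ j)) x)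

/-- Numerical and homological equivalence agree on `Z`: a class `z` (of any degrees) such that `z b`
has degree zero for all classes `b` is homologically trivial. -/
def NumEqHom (H : WeilTheoryData.{u, v, 0} C ℚ) (Z : 𝒱.Obj) : Prop :=
  ∀ z : C.A Z, (∀ b : C.A Z, HasDegree C (C.mul z b) 0) → cls H z = 0

/-- The motives `h^i(X)` and `h^i(Y)` modulo homological equivalence are isomorphic: there are
correspondences of degree zero between `X` and `Y` which induce inverse isomorphisms of `H^i(X)` and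
`H^i(Y)`. -/
def IsoDeg (H : WeilTheoryData.{u, v, 0} C ℚ) (X Y : 𝒱.Obj) (i : ℕ) : Prop :=
  ∃ (a : C.A (X.prod Y)) (b : C.A (Y.prod X)), C.Deg X.dim a ∧ C.Deg Y.dim b ∧
    (∀ x, H.Deg i x → co H b (co H a x) = x) ∧ ∀ y, H.Deg i y → co H a (co H b y) = y

/-- The class `x` lies in the direct sum of the groups `H^(n - 2 - 4 i)(X)`, `i = 0, 1, 2, …`, where
`n = dim X`. -/
def EveryFourth (H : WeilTheoryData.{u, v, 0} C ℚ) {X : 𝒱.Obj} (x : H.A X) : Prop :=
  x ∈ ⨆ i : ℕ, H.gr X ((X.dim : ℤ) - 2 - 4 * i)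

/-- The motives `⊕ h^(n - 2 - 4 i)(X)` and `⊕ h^(n - 2 - 4 i)(Y)` modulo homological equivalence,
where `n = dim X` and the summands are twisted to have the same weight, are isomorphic: there are
correspondences (of mixed degrees) between `X` and `Y` which induce inverse isomorphisms of
`⊕ H^(n - 2 - 4 i)(X)` and `⊕ H^(n - 2 - 4 i)(Y)`. -/
def IsoFourth (H : WeilTheoryData.{u, v, 0} C ℚ) (X Y : 𝒱.Obj) : Prop :=
  ∃ (a : C.A (X.prod Y)) (b : C.A (Y.prod X)),
    (∀ x, EveryFourth H x → EveryFourth H (co H a x) ∧ co H b (co H a x) = x) ∧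
    ∀ y, EveryFourth H y → EveryFourth H (co H b y) ∧ co H a (co H b y) = y

/-- The motives of `X` and `Y` modulo homological equivalence are isomorphic. -/
def IsoHom (H : WeilTheoryData.{u, v, 0} C ℚ) (X Y : 𝒱.Obj) : Prop :=
  ∃ (a : C.A (X.prod Y)) (b : C.A (Y.prod X)), C.Deg X.dim a ∧ C.Deg X.dim b ∧
    cls H (C.comp a b) = cls H (C.graph (𝟙 X)) ∧ cls H (C.comp b a) = cls H (C.graph (𝟙 Y))

/-- The Chow motives of `X` and `Y` are isomorphic. -/
def IsoChow (C : TheoryData.{u, v, 0} 𝒱 ℚ) (X Y : 𝒱.Obj) : Prop :=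
  ∃ (Z : C.A (X.prod Y)) (Z' : C.A (Y.prod X)), C.Deg X.dim Z ∧ C.Deg X.dim Z' ∧
    C.comp Z Z' = C.graph (𝟙 X) ∧ C.comp Z' Z = C.graph (𝟙 Y)

/-- The powers of a self-correspondence. -/
noncomputable def compPow (C : TheoryData.{u, v, 0} 𝒱 ℚ) {X : 𝒱.Obj} (x : C.A (X.prod X)) :
    ℕ → C.A (X.prod X)
  | 0 => C.graph (𝟙 X)
  | n + 1 => C.comp (compPow C x n) x

/-- The homologically trivial self-correspondences of `X` (of all degrees) are nilpotent. -/
def HomNil (H : WeilTheoryData.{u, v, 0} C ℚ) (X : 𝒱.Obj) : Prop :=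
  ∀ x : C.A (X.prod X), cls H x = 0 → ∃ N, compPow C x N = 0

end Pool.Agent.Y121.OV
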