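import Pool.Agent.Y121.OV.Par

/-!
# Isomorphisms of motives modulo homological equivalence
-/

open CategoryTheory AlgebraicGeometry Module

universe u v

namespace Pool.Agent.Y121.OV

open Pool.Agent.H914 Pool.Agent.H914.VarClass Pool.Agent.H914.VarClass.Obj Pool.Agent.W492.BB
  Pool.Agent.W550.Corr Pool.Agent.TH133 Pool.Agent.Y121.NK Pool.Agent.TH829.Kim

set_option linter.unusedSectionVars false

variable {k : Type u} [Field k] {𝒱 : VarClass k} {C : TheoryData.{u, v, 0} 𝒱 ℚ}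
  [hC : IsChowProj C] (H : WeilTheoryData.{u, v, 0} C ℚ) [hH : IsWeilProj H] {X Y Z W : 𝒱.Obj}

include hC hH

/-- The component of degree zero of a correspondence, on classes whose image has the same degree. -/
lemma act_cmp0 {Γ : C.A (X.prod Y)} {i : ℤ} {a : H.A X} (ha : a ∈ H.gr X i)
    (hb : H.act (H.cl Γ) a ∈ H.gr Y i) :
    H.act (H.cl (cmp C (X.prod Y) X.dim Γ)) a = H.act (H.cl Γ) a := by
  have h1 := cmpH_act' H Γ 0 ha
  rw [mul_zero, add_zero, add_zero, cmpH_self H hb] at h1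
  exact h1.symm

/-- The groups `H^0` are isomorphic. -/
lemma isoDeg_zero : IsoDeg H X Y 0 := by
  obtain ⟨p, hp, hp1, hp2⟩ := hC.exists_deg_one X
  obtain ⟨q, hq, hq1, hq2⟩ := hC.exists_deg_one Y
  have h1 : H.act (H.cl (C.pull (fst X Y) p)) 1 = 1 := by
    rw [H.act_apply, map_one, mul_one, ← H.cl_push]
    have : C.push (snd X Y) (C.pull (fst X Y) p) = 1 := hp2 Y
    rw [this, map_one]
  have h2 : H.act (H.cl (C.pull (fst Y X) q)) 1 = 1 := by
    rw [H.act_apply, map_one, mul_one, ← H.cl_push]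
    have : C.push (snd Y X) (C.pull (fst Y X) q) = 1 := hq2 X
    rw [this, map_one]
  refine ⟨C.pull (fst X Y) p, C.pull (fst Y X) q, C.pull_mem _ hp, C.pull_mem _ hq, ?_, ?_⟩
  · intro x hx
    obtain ⟨c, rfl⟩ := hH.gr_zero X x (by exact_mod_cast hx)
    change H.act (H.cl _) (H.act (H.cl _) _) = _
    rw [act_map_smul, h1, act_map_smul, h2]
  · intro x hx
    obtain ⟨c, rfl⟩ := hH.gr_zero Y x (by exact_mod_cast hx)
    change H.act (H.cl _) (H.act (H.cl _) _) = _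
    rw [act_map_smul, h2, act_map_smul, h1]

/-- Isomorphisms of motives modulo homological equivalence give equivalences of projectors. -/
lemma eqv_of_isoDeg {i : ℕ} {j : ℤ} (hi : (i : ℤ) = X.dim + j) (hdim : X.dim = Y.dim)
    (hX : PX H X Y j ∈ algB H X Y) (hY : PY H X Y j ∈ algB H X Y) (h : IsoDeg H X Y i) :
    Eqv (algB H X Y) (PX H X Y j) (PY H X Y j) := by
  obtain ⟨a, b, ha, hb, hab', hba'⟩ := h
  have hab : ∀ x ∈ H.gr X i, H.act (H.cl b) (H.act (H.cl a) x) = x := hab'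
  have hba : ∀ y ∈ H.gr Y i, H.act (H.cl a) (H.act (H.cl b) y) = y := hba'
  have e1 : ∀ x ∈ H.gr X i, H.act (H.cl a) x ∈ H.gr Y i := fun x hx => by
    have := act_mem_gr H ha hx
    rwa [sub_self, mul_zero, add_zero] at this
  have e2 : ∀ y ∈ H.gr Y i, H.act (H.cl b) y ∈ H.gr X i := fun y hy => by
    have := act_mem_gr H hb hy
    rwa [sub_self, mul_zero, add_zero] at this
  have hX' : ∀ z, PX H X Y j z = (cmpH H X i z.1, 0) := fun z => by rw [PX_apply, hi]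
  have hY' : ∀ z, PY H X Y j z = (0, cmpH H Y i z.2) := fun z => by
    rw [PY_apply, hi, hdim]
  set u : End ℚ (H.A X × H.A Y) := j12 (H.actL (H.cl b)) * PY H X Y j with hu
  set v : End ℚ (H.A X × H.A Y) := j21 (H.actL (H.cl a)) * PX H X Y j with hv
  have hu' : ∀ z, u z = (H.act (H.cl b) (cmpH H Y i z.2), 0) := fun z => by
    rw [hu, Module.End.mul_apply, hY', j12_apply, H.actL_apply]
  have hv' : ∀ z, v z = (0, H.act (H.cl a) (cmpH H X i z.1)) := fun z => by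
    rw [hv, Module.End.mul_apply, hX', j21_apply, H.actL_apply]
  refine ⟨u, (algB H X Y).mul_mem (j12_mem H ⟨b, rfl⟩) hY, v,
    (algB H X Y).mul_mem (j21_mem H ⟨a, rfl⟩) hX, ?_, ?_, ?_, ?_, ?_, ?_⟩ <;>
  · apply LinearMap.ext
    intro z
    simp only [Module.End.mul_apply, hu', hv', hX', hY']
    first
    | rw [cmpH_self H (e1 _ (cmpH_mem H _ _)), hab _ (cmpH_mem H _ _)]
    | rw [cmpH_self H (e2 _ (cmpH_mem H _ _)), hba _ (cmpH_mem H _ _)]
    | rw [cmpH_self H (e1 _ (cmpH_mem H _ _))]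
    | rw [cmpH_self H (e2 _ (cmpH_mem H _ _))]
    | rw [cmpH_idem]

/-- The operators given by families of equivalences. -/
lemma exists_cor {n : ℕ} (hn : X.dim = n) (hdim : X.dim = Y.dim) (I : Finset ℤ)
    (h : ∀ j ∈ I, Eqv (algB H X Y) (PX H X Y j) (PY H X Y j)) :
    ∃ (a : C.A (X.prod Y)) (b : C.A (Y.prod X)), C.Deg X.dim a ∧ C.Deg Y.dim b ∧
      (∀ j ∈ I, ∀ x ∈ H.gr X (n + j), H.act (H.cl b) (H.act (H.cl a) x) = x) ∧
      ∀ j ∈ I, ∀ y ∈ H.gr Y (n + j), H.act (H.cl a) (H.act (H.cl b) y) = y := by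
  subst hn
  have h' : ∀ j, ∃ u v : End ℚ (H.A X × H.A Y), j ∈ I → u ∈ algB H X Y ∧ v ∈ algB H X Y ∧
      u * v = PX H X Y j ∧ v * u = PY H X Y j ∧ PX H X Y j * u = u ∧ u * PY H X Y j = u ∧
      PY H X Y j * v = v ∧ v * PX H X Y j = v := by
    intro j
    by_cases hj : j ∈ I
    · obtain ⟨u, hu, v, hv, h1, h2, h3, h4, h5, h6⟩ := h j hj
      exact ⟨u, v, fun _ => ⟨hu, hv, h1, h2, h3, h4, h5, h6⟩⟩
    · exact ⟨0, 0, fun hj' => absurd hj' hj⟩
  choose u v huv using h'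
  set U := ∑ j ∈ I, u j with hU
  set V := ∑ j ∈ I, v j with hV
  have hUA : U ∈ algB H X Y := (algB H X Y).sum_mem fun j hj => (huv j hj).1
  have hVA : V ∈ algB H X Y := (algB H X Y).sum_mem fun j hj => (huv j hj).2.1
  obtain ⟨Γ, hΓ⟩ := hVA.2.1
  obtain ⟨Δ, hΔ⟩ := hUA.2.2.1
  -- the values of the operators
  have hPX : ∀ j, ∀ x ∈ H.gr X (X.dim + j), PX H X Y j (x, 0) = (x, 0) := fun j x hx => by
    rw [PX_apply, cmpH_self H hx]
  have hPY : ∀ j, ∀ y ∈ H.gr Y (X.dim + j), PY H X Y j (0, y) = (0, y) := fun j y hy => by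
    rw [hdim] at hy
    rw [PY_apply, cmpH_self H hy]
  have hPX0 : ∀ i j, i ≠ j → ∀ x ∈ H.gr X (X.dim + j), PX H X Y i (x, 0) = 0 :=
    fun i j hij x hx => by
      rw [PX_apply, cmpH_ne H hx (by omega)]
      rfl
  have hPY0 : ∀ i j, i ≠ j → ∀ y ∈ H.gr Y (X.dim + j), PY H X Y i (0, y) = 0 :=
    fun i j hij y hy => by
      rw [hdim] at hy
      rw [PY_apply, cmpH_ne H hy (by omega)]
      rfl
  have hVx : ∀ j ∈ I, ∀ x ∈ H.gr X (X.dim + j), V (x, 0) = v j (x, 0) := by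
    intro j hj x hx
    rw [hV, LinearMap.sum_apply, Finset.sum_eq_single_of_mem j hj]
    intro i hi hij
    rw [← (huv i hi).2.2.2.2.2.2.2, Module.End.mul_apply, hPX0 i j hij x hx, map_zero]
  have hUy : ∀ j ∈ I, ∀ y ∈ H.gr Y (X.dim + j), U (0, y) = u j (0, y) := by
    intro j hj y hy
    rw [hU, LinearMap.sum_apply, Finset.sum_eq_single_of_mem j hj]
    intro i hi hij
    rw [← (huv i hi).2.2.2.2.2.1, Module.End.mul_apply, hPY0 i j hij y hy, map_zero]
  have hact : ∀ j ∈ I, ∀ x ∈ H.gr X (X.dim + j), H.act (H.cl Γ) x ∈ H.gr Y (X.dim + j) ∧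
      V (x, 0) = (0, H.act (H.cl Γ) x) := by
    intro j hj x hx
    have h1 : H.act (H.cl Γ) x = (V (x, 0)).2 := LinearMap.congr_fun hΓ x
    have h2 : V (x, 0) = PY H X Y j (V (x, 0)) := by
      rw [hVx j hj x hx, ← Module.End.mul_apply, (huv j hj).2.2.2.2.2.2.1]
    have h3 : (V (x, 0)).1 = 0 := by rw [h2, PY_apply]
    constructor
    · rw [h1, h2, PY_apply, hdim]
      exact cmpH_mem H _ _
    · rw [h1]
      exact Prod.ext h3 rfl
  have hact' : ∀ j ∈ I, ∀ y ∈ H.gr Y (X.dim + j), H.act (H.cl Δ) y ∈ H.gr X (X.dim + j) ∧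
      U (0, y) = (H.act (H.cl Δ) y, 0) := by
    intro j hj y hy
    have h1 : H.act (H.cl Δ) y = (U (0, y)).1 := LinearMap.congr_fun hΔ y
    have h2 : U (0, y) = PX H X Y j (U (0, y)) := by
      rw [hUy j hj y hy, ← Module.End.mul_apply, (huv j hj).2.2.2.2.1]
    have h3 : (U (0, y)).2 = 0 := by rw [h2, PX_apply]
    constructor
    · rw [h1, h2, PX_apply]
      exact cmpH_mem H _ _
    · rw [h1]
      exact Prod.ext rfl h3
  refine ⟨cmp C (X.prod Y) X.dim Γ, cmp C (Y.prod X) Y.dim Δ, cmp_mem _ _, cmp_mem _ _, ?_, ?_⟩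
  · intro j hj x hx
    obtain ⟨h1, h2⟩ := hact j hj x hx
    obtain ⟨h3, h4⟩ := hact' j hj _ h1
    rw [act_cmp0 H hx h1, act_cmp0 H h1 h3]
    have h5 : U (V (x, 0)) = (x, 0) := by
      rw [h2, hUy j hj _ h1, ← h2, hVx j hj x hx, ← Module.End.mul_apply, (huv j hj).2.2.1,
        hPX j x hx]
    rw [h2, h4] at h5
    exact congrArg Prod.fst h5
  · intro j hj y hy
    obtain ⟨h1, h2⟩ := hact' j hj y hy
    obtain ⟨h3, h4⟩ := hact j hj _ h1
    rw [act_cmp0 H hy h1, act_cmp0 H h1 h3]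
    have h5 : V (U (0, y)) = (0, y) := by
      rw [h2, hVx j hj _ h1, ← h2, hUy j hj y hy, ← Module.End.mul_apply, (huv j hj).2.2.2.1,
        hPY j y hy]
    rw [h2, h4] at h5
    exact congrArg Prod.snd h5

end Pool.Agent.Y121.OV
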