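import Pool.Agent.Y121.OV.Side

/-!
# Sums of the graded pieces, ranks and traces
-/

open Module

namespace Pool.Agent.Y121.OV

set_option linter.unusedSectionVars false

variable {V : Type*} [AddCommGroup V] [Module ℚ V] [FiniteDimensional ℚ V]

/-- The rank of an operator. -/
noncomputable def rk (e : End ℚ V) : ℕ := finrank ℚ (LinearMap.range e)

lemma rk_eq_trace {e : End ℚ V} (he : e * e = e) : (rk e : ℚ) = LinearMap.trace ℚ V e := by
  have h : LinearMap.IsProj (LinearMap.range e) e :=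
    ⟨fun x => ⟨x, rfl⟩, by
      rintro _ ⟨x, rfl⟩
      rw [← Module.End.mul_apply, he]⟩
  rw [h.trace]
  rfl

lemma rk_add {e f : End ℚ V} (he : e * e = e) (hf : f * f = f) (h1 : e * f = 0) (h2 : f * e = 0) :
    rk (e + f) = rk e + rk f := by
  have h3 : (e + f) * (e + f) = e + f := by
    rw [mul_add, add_mul, add_mul, he, hf, h1, h2]; simp
  have : ((rk (e + f) : ℕ) : ℚ) = ((rk e + rk f : ℕ) : ℚ) := by
    push_cast
    rw [rk_eq_trace h3, rk_eq_trace he, rk_eq_trace hf, map_add]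
  exact_mod_cast this

lemma rk_congr {A : Subalgebra ℚ (End ℚ V)} {e f : End ℚ V} (he : IsObj A e) (hf : IsObj A f)
    (h : Eqv A e f) : rk e = rk f := by
  obtain ⟨u, -, v, -, h1, h2, -⟩ := h
  have : ((rk e : ℕ) : ℚ) = (rk f : ℕ) := by
    rw [rk_eq_trace he.idem, rk_eq_trace hf.idem, ← h1, ← h2, LinearMap.trace_mul_comm]
  exact_mod_cast this

/-- The sum of all pieces. -/
noncomputable def tot (m : ℕ) (p : ℤ → End ℚ V) : End ℚ V :=
  ∑ j ∈ Finset.Icc (-(m : ℤ)) m, p j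

/-- The sum of the pieces in nonnegative degrees. -/
noncomputable def up (m : ℕ) (p : ℤ → End ℚ V) : End ℚ V := ∑ j ∈ Finset.Icc (0 : ℤ) m, p j

namespace Side

variable {A : Subalgebra ℚ (End ℚ V)} {q B : V →ₗ[ℚ] V →ₗ[ℚ] ℚ} {h : V → V → ℝ} {c : ℝ} {m : ℕ}
  {p : ℤ → End ℚ V} {L : End ℚ V} (S : Side A q h c m p L)

include S

lemma tot_obj : IsObj A (tot m p) := (IsObj.sum _ S.obj S.orth).1

lemma up_obj : IsObj A (up m p) := (IsObj.sum _ S.obj S.orth).1

lemma p_tot (j : ℤ) : p j * tot m p = p j ∧ tot m p * p j = p j := by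
  by_cases hj : j ∈ Finset.Icc (-(m : ℤ)) m
  · exact (IsObj.sum (A := A) _ S.obj S.orth).2.2 j hj
  · have : p j = 0 := S.out j (by
      rw [Finset.mem_Icc, ← abs_le, not_le] at hj
      exact hj)
    rw [this, zero_mul, mul_zero]
    exact ⟨rfl, rfl⟩

lemma p_up (j : ℤ) (hj0 : 0 ≤ j) : p j * up m p = p j ∧ up m p * p j = p j := by
  by_cases hj : j ∈ Finset.Icc (0 : ℤ) m
  · exact (IsObj.sum (A := A) _ S.obj S.orth).2.2 j hj
  · have : p j = 0 := S.out j (by
      rw [Finset.mem_Icc, not_and_or, not_le, not_le] at hj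
      rw [abs_of_nonneg hj0]
      omega)
    rw [this, zero_mul, mul_zero]
    exact ⟨rfl, rfl⟩

lemma p_up_neg (j : ℤ) (hj0 : j < 0) : p j * up m p = 0 ∧ up m p * p j = 0 :=
  (IsObj.sum (A := A) _ S.obj S.orth).2.1 j (by
    rw [Finset.mem_Icc]
    omega)

lemma up_tot : up m p * tot m p = up m p ∧ tot m p * up m p = up m p := by
  constructor
  · rw [up, Finset.sum_mul]
    exact Finset.sum_congr rfl fun j _ => (S.p_tot j).1
  · rw [up, Finset.mul_sum]
    exact Finset.sum_congr rfl fun j _ => (S.p_tot j).2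

lemma tot_apply {x : V} (hx : tot m p x = x) : ∑ j ∈ Finset.Icc (-(m : ℤ)) m, p j x = x := by
  conv_rhs => rw [← hx, tot, LinearMap.sum_apply]

lemma up_apply {x : V} (hx : up m p x = x) : ∑ j ∈ Finset.Icc (0 : ℤ) m, p j x = x := by
  conv_rhs => rw [← hx, up, LinearMap.sum_apply]

lemma eqv_neg (hA : Reg A) (j : ℕ) : Eqv A (p (-j)) (p j) := by
  obtain ⟨c, hc, h1, h2, h3, h4⟩ := S.exists_c hA j
  refine ⟨c, hc, L ^ (2 * j) * p (-j), A.mul_mem (pow_mem S.L_mem _) (S.mem _), h1, h2, h3, h4,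
    ?_, ?_⟩
  · rw [S.L_pow, ← mul_assoc]
    have : -(j : ℤ) + ((2 * j : ℕ) : ℤ) = j := by push_cast; ring
    rw [this, S.idem]
  · rw [mul_assoc, S.idem]

lemma tot_eq : tot m p = p 0 + ∑ j ∈ Finset.range m, (p (-((j + 1 : ℕ) : ℤ)) + p ((j + 1 : ℕ) : ℤ)) := by
  have : ∀ k : ℕ, ∑ j ∈ Finset.Icc (-(k : ℤ)) k, p j =
      p 0 + ∑ j ∈ Finset.range k, (p (-((j + 1 : ℕ) : ℤ)) + p ((j + 1 : ℕ) : ℤ)) := by
    intro k
    induction k with
    | zero => simp
    | succ k ih =>
      have e1 : Finset.Icc (-((k + 1 : ℕ) : ℤ)) ((k + 1 : ℕ) : ℤ) =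
          insert (-((k + 1 : ℕ) : ℤ)) (insert ((k + 1 : ℕ) : ℤ) (Finset.Icc (-(k : ℤ)) k)) := by
        ext i
        simp only [Finset.mem_Icc, Finset.mem_insert]
        push_cast
        omega
      rw [e1, Finset.sum_insert, Finset.sum_insert, ih, Finset.sum_range_succ]
      · abel
      · rw [Finset.mem_Icc]
        push_cast
        omega
      · rw [Finset.mem_insert, Finset.mem_Icc]
        push_cast
        omega
  exact this m

lemma up_eq : up m p = p 0 + ∑ j ∈ Finset.range m, p ((j + 1 : ℕ) : ℤ) := by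
  have : ∀ k : ℕ, ∑ j ∈ Finset.Icc (0 : ℤ) k, p j =
      p 0 + ∑ j ∈ Finset.range k, p ((j + 1 : ℕ) : ℤ) := by
    intro k
    induction k with
    | zero => simp
    | succ k ih =>
      have e1 : Finset.Icc (0 : ℤ) ((k + 1 : ℕ) : ℤ) =
          insert ((k + 1 : ℕ) : ℤ) (Finset.Icc (0 : ℤ) k) := by
        ext i
        simp only [Finset.mem_Icc, Finset.mem_insert]
        push_cast
        omega
      rw [e1, Finset.sum_insert, ih, Finset.sum_range_succ]
      · abel
      · rw [Finset.mem_Icc]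
        push_cast
        omega
  exact this m

/-- The rank of the sum of all pieces. -/
lemma rk_tot (hA : Reg A) : rk (tot m p) + rk (p 0) = 2 * rk (up m p) := by
  have e1 : ∀ j : ℕ, LinearMap.trace ℚ V (p (-((j + 1 : ℕ) : ℤ))) =
      LinearMap.trace ℚ V (p ((j + 1 : ℕ) : ℤ)) := by
    intro j
    rw [← rk_eq_trace (S.idem _), ← rk_eq_trace (S.idem _),
      rk_congr (S.obj _) (S.obj _) (S.eqv_neg hA (j + 1))]
  have : ((rk (tot m p) + rk (p 0) : ℕ) : ℚ) = ((2 * rk (up m p) : ℕ) : ℚ) := by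
    push_cast
    rw [rk_eq_trace S.tot_obj.idem, rk_eq_trace (S.idem 0), rk_eq_trace S.up_obj.idem, S.tot_eq,
      S.up_eq, map_add, map_add, map_sum, map_sum]
    simp only [map_add, e1]
    rw [Finset.sum_add_distrib]
    ring
  exact_mod_cast this

lemma hd_tot (hA : Reg A) (T : End ℚ V) :
    hd A T (tot m p) = hd A T (p 0) + 2 * ∑ j ∈ Finset.range m, hd A T (p (-((j + 1 : ℕ) : ℤ))) := by
  have e1 : ∀ k : ℕ, hd A T (∑ j ∈ Finset.Icc (-(k : ℤ)) k, p j) =
      hd A T (p 0) + 2 * ∑ j ∈ Finset.range k, hd A T (p (-((j + 1 : ℕ) : ℤ))) := by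
    intro k
    rw [hd_sum _ S.obj S.orth]
    induction k with
    | zero => simp
    | succ k ih =>
      have e1 : Finset.Icc (-((k + 1 : ℕ) : ℤ)) ((k + 1 : ℕ) : ℤ) =
          insert (-((k + 1 : ℕ) : ℤ)) (insert ((k + 1 : ℕ) : ℤ) (Finset.Icc (-(k : ℤ)) k)) := by
        ext i
        simp only [Finset.mem_Icc, Finset.mem_insert]
        push_cast
        omega
      rw [e1, Finset.sum_insert, Finset.sum_insert, ih, Finset.sum_range_succ,
        ← hd_congr (S.eqv_neg hA (k + 1))]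
      · ring
      · rw [Finset.mem_Icc]
        push_cast
        omega
      · rw [Finset.mem_insert, Finset.mem_Icc]
        push_cast
        omega
  exact e1 m

end Side

/-- The form `B` agrees with the form `q` on opposite degrees up to signs, and vanishes for degrees
with positive sum. -/
structure Bil (q B : V →ₗ[ℚ] V →ₗ[ℚ] ℚ) (p : ℤ → End ℚ V) (ε : ℤ → ℚ) : Prop where
  pos : ∀ (i j : ℤ) (x y : V), 0 < i + j → B (p i x) (p j y) = 0
  zero : ∀ (j : ℤ) (x y : V), B (p j x) (p (-j) y) = ε j * q (p j x) (p (-j) y)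

namespace Side

variable {A : Subalgebra ℚ (End ℚ V)} {q B : V →ₗ[ℚ] V →ₗ[ℚ] ℚ} {h : V → V → ℝ} {c : ℝ} {m : ℕ}
  {p : ℤ → End ℚ V} {L : End ℚ V} {ε : ℤ → ℚ} (S : Side A q h c m p L) (hB : Bil q B p ε)

include S hB

lemma B_up {x y : V} (hx : up m p x = x) (hy : up m p y = y) :
    B x y = ε 0 * q (p 0 x) (p 0 y) := by
  have h0 : (0 : ℤ) ∈ Finset.Icc (0 : ℤ) m := Finset.mem_Icc.2 ⟨le_rfl, by positivity⟩
  have e1 : ∀ i : ℤ, 0 ≤ i → B (p i x) y = B (p i x) (p 0 y) := by
    intro i hi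
    conv_lhs => rw [← S.up_apply hy]
    rw [map_sum, Finset.sum_eq_single_of_mem 0 h0]
    intro j hj hj0
    rw [Finset.mem_Icc] at hj
    exact hB.pos i j x y (by omega)
  have e2 : B x y = B (p 0 x) y := by
    conv_lhs => rw [← S.up_apply hx]
    rw [map_sum, LinearMap.sum_apply, Finset.sum_eq_single_of_mem 0 h0]
    intro i hi hi0
    rw [Finset.mem_Icc] at hi
    rw [e1 i hi.1]
    exact hB.pos i 0 x y (by omega)
  have e3 := hB.zero 0 x y
  rw [neg_zero] at e3
  rw [e2, e1 0 le_rfl, e3]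

lemma B_nd (hε : ∀ j, ε j ≠ 0) {x : V} (hx : tot m p x = x) (hx0 : x ≠ 0) :
    ∃ y, tot m p y = y ∧ B x y ≠ 0 := by
  classical
  have hex : ∃ k : ℕ, p (-(m : ℤ) + k) x ≠ 0 := by
    by_contra hcon
    push Not at hcon
    apply hx0
    rw [← S.tot_apply hx]
    refine Finset.sum_eq_zero fun j hj => ?_
    rw [Finset.mem_Icc] at hj
    obtain ⟨k, hk⟩ := Int.eq_ofNat_of_zero_le (a := j + m) (by omega)
    have := hcon k
    rwa [show -(m : ℤ) + k = j by omega] at this
  set k := Nat.find hex with hk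
  have hk1 : p (-(m : ℤ) + k) x ≠ 0 := Nat.find_spec hex
  have hk2 : ∀ l < k, p (-(m : ℤ) + l) x = 0 := fun l hl => by
    by_contra h
    exact Nat.find_min hex hl h
  set j := -(m : ℤ) + k with hj
  obtain ⟨y, hy⟩ : ∃ y, q (p j x) y ≠ 0 := by
    by_contra hcon
    push Not at hcon
    exact hk1 (S.nondeg j x hcon)
  refine ⟨p (-j) y, by rw [← Module.End.mul_apply, (S.p_tot _).2], ?_⟩
  have hjm : j ∈ Finset.Icc (-(m : ℤ)) m := by
    by_contra hcon
    apply hk1
    rw [S.out j (by rw [Finset.mem_Icc, ← abs_le, not_le] at hcon; exact hcon),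
      LinearMap.zero_apply]
  have : B x (p (-j) y) = B (p j x) (p (-j) y) := by
    conv_lhs => rw [← S.tot_apply hx]
    rw [map_sum, LinearMap.sum_apply, Finset.sum_eq_single_of_mem j hjm]
    intro i hi hij
    rcases lt_or_gt_of_ne hij with h1 | h1
    · rw [Finset.mem_Icc] at hi
      obtain ⟨l, hl⟩ := Int.eq_ofNat_of_zero_le (a := i + m) (by omega)
      have := hk2 l (by omega)
      rw [show -(m : ℤ) + l = i by omega] at this
      rw [this, map_zero, LinearMap.zero_apply]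
    · exact hB.pos i (-j) x y (by omega)
  rw [this, hB.zero, ← S.q_left]
  exact mul_ne_zero (hε j) hy

end Side

end Pool.Agent.Y121.OV
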