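import Pool.Agent.Y121.OV.Gr
import Pool.Agent.Y121.OV.Tot

/-!
# The intersection forms, the Weil forms and the Mukai forms
-/

open CategoryTheory AlgebraicGeometry Module

universe u v

namespace Pool.Agent.Y121.OV

open Pool.Agent.H914 Pool.Agent.H914.VarClass Pool.Agent.H914.VarClass.Obj Pool.Agent.W492.BB
  Pool.Agent.W550.Corr Pool.Agent.TH133 Pool.Agent.Y121.NK Pool.Agent.TH829.Kim

set_option linter.unusedSectionVars false

variable {k : Type u} [Field k] {𝒱 : VarClass k} {C : TheoryData.{u, v, 0} 𝒱 ℚ}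
  [hC : IsChowProj C] (H : WeilTheoryData.{u, v, 0} C ℚ) [hH : IsWeilProj H] {X Y Z W : 𝒱.Obj}

include hC hH

/-- The intersection form on `H(X)`. -/
noncomputable def trB (X : 𝒱.Obj) : H.A X →ₗ[ℚ] H.A X →ₗ[ℚ] ℚ :=
  (LinearMap.mul ℚ (H.A X)).compr₂ (H.tr X)

lemma trB_apply (a b : H.A X) : trB H X a b = H.tr X (a * b) := rfl

/-- The intersection form on `H(X) ⊕ H(Y)`. -/
noncomputable def qf (X Y : 𝒱.Obj) : (H.A X × H.A Y) →ₗ[ℚ] (H.A X × H.A Y) →ₗ[ℚ] ℚ :=
  (trB H X).compl₁₂ (LinearMap.fst ℚ _ _) (LinearMap.fst ℚ _ _) +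
    (trB H Y).compl₁₂ (LinearMap.snd ℚ _ _) (LinearMap.snd ℚ _ _)

lemma qf_apply (z w : H.A X × H.A Y) :
    qf H X Y z w = H.tr X (z.1 * w.1) + H.tr Y (z.2 * w.2) := rfl

omit hC hH in
/-- The Weil form on `H(X) ⊕ H(Y)`. -/
noncomputable def hf (h : ∀ X, H.A X → H.A X → ℝ) (X Y : 𝒱.Obj) (z w : H.A X × H.A Y) :
    ℝ := h X z.1 w.1 + h Y z.2 w.2

lemma tr_cmp_right {i : ℤ} {a : H.A X} (ha : a ∈ H.gr X i) (b : H.A X) :
    H.tr X (a * b) = H.tr X (a * cmpH H X (2 * X.dim - i) b) := by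
  have h : trB H X a = trB H X a ∘ₗ cmpH H X (2 * X.dim - i) := by
    apply ext_gr H
    intro m c hc
    rw [LinearMap.comp_apply, trB_apply, trB_apply]
    by_cases hm : m = 2 * X.dim - i
    · rw [← hm, cmpH_self H hc]
    · rw [cmpH_ne H hc hm, mul_zero, map_zero]
      exact tr_zero H (H.mul_mem ha hc) (by omega)
  exact LinearMap.congr_fun h b

lemma tr_cmp_left {i : ℤ} {a : H.A X} (ha : a ∈ H.gr X i) (b : H.A X) :
    H.tr X (b * a) = H.tr X (cmpH H X (2 * X.dim - i) b * a) := by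
  have h : (trB H X).flip a = (trB H X).flip a ∘ₗ cmpH H X (2 * X.dim - i) := by
    apply ext_gr H
    intro m c hc
    rw [LinearMap.comp_apply, LinearMap.flip_apply, LinearMap.flip_apply, trB_apply, trB_apply]
    by_cases hm : m = 2 * X.dim - i
    · rw [← hm, cmpH_self H hc]
    · rw [cmpH_ne H hc hm, zero_mul, map_zero]
      exact tr_zero H (H.mul_mem hc ha) (by omega)
  exact LinearMap.congr_fun h b

lemma qf_nondeg {z : H.A X × H.A Y} (hz : ∀ w, qf H X Y z w = 0) : z = 0 := by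
  apply Prod.ext
  · apply H.nondeg
    intro b
    have := hz (b, 0)
    rwa [qf_apply, mul_zero, map_zero, add_zero] at this
  · apply H.nondeg
    intro b
    have := hz (0, b)
    rwa [qf_apply, mul_zero, map_zero, zero_add] at this

variable {h : ∀ X, H.A X → H.A X → ℝ}

omit hH in
lemma hf_flip (hW : IsWeilForm H h) (Γ : C.A (X.prod Y)) (x : H.A X) (y : H.A Y) :
    h Y y (H.act (H.cl Γ) x) = h X (H.act (H.cl (tp C Γ)) y) x := by
  have := hW.adj Y X (tp C Γ) y x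
  rw [tp_tp C Γ] at this
  exact this.symm

/-- Operators in the algebra have adjoints for both forms. -/
lemma exists_adj (hW : IsWeilForm H h) {g : End ℚ (H.A X × H.A Y)} (hg : g ∈ algB H X Y) :
    ∃ g' : End ℚ (H.A X × H.A Y), (∀ z w, qf H X Y z (g w) = qf H X Y (g' z) w) ∧
      ∀ z w, hf H h X Y z (g w) = hf H h X Y (g' z) w := by
  obtain ⟨⟨Γ₁, h1⟩, ⟨Γ₂, h2⟩, ⟨Γ₃, h3⟩, ⟨Γ₄, h4⟩⟩ := hg
  have hgw : ∀ w : H.A X × H.A Y, g w = (H.act (H.cl Γ₁) w.1 + H.act (H.cl Γ₃) w.2,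
      H.act (H.cl Γ₂) w.1 + H.act (H.cl Γ₄) w.2) := by
    intro w
    conv_lhs => rw [blk_eq g, ← h1, ← h2, ← h3, ← h4]
    simp only [LinearMap.add_apply, j11_apply, j21_apply, j12_apply, j22_apply, H.actL_apply,
      Prod.mk_add_mk, add_zero, zero_add]
  refine ⟨j11 (H.actL (H.cl (tp C Γ₁))) + j12 (H.actL (H.cl (tp C Γ₂))) +
    j21 (H.actL (H.cl (tp C Γ₃))) + j22 (H.actL (H.cl (tp C Γ₄))), ?_, ?_⟩
  · intro z w
    rw [hgw, qf_apply, qf_apply]
    simp only [LinearMap.add_apply, j11_apply, j21_apply, j12_apply, j22_apply, H.actL_apply,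
      Prod.mk_add_mk, add_zero, zero_add]
    rw [mul_add, mul_add, add_mul, add_mul, map_add, map_add, map_add, map_add,
      tr_act' H Γ₁, tr_act' H Γ₂, tr_act' H Γ₃, tr_act' H Γ₄]
    ring
  · intro z w
    rw [hgw, hf, hf]
    simp only [LinearMap.add_apply, j11_apply, j21_apply, j12_apply, j22_apply, H.actL_apply,
      Prod.mk_add_mk, add_zero, zero_add]
    rw [hW.add_right, hW.add_right, hW.add_left, hW.add_left,
      hf_flip H hW Γ₁, hf_flip H hW Γ₂, hf_flip H hW Γ₃, hf_flip H hW Γ₄]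
    ring

omit hC hH in
lemma h_zero_left (hW : IsWeilForm H h) (y : H.A X) : h X 0 y = 0 := by
  have := hW.add_left X 0 0 y
  rw [add_zero] at this
  linarith

/-- Orthogonality for the intersection form implies orthogonality for the Weil form. -/
lemma hf_zero (hW : IsWeilForm H h) {f g : End ℚ (H.A X × H.A Y)} (hg : g ∈ algB H X Y)
    (hfg : ∀ z w, qf H X Y (f z) (g w) = 0) (z w : H.A X × H.A Y) :
    hf H h X Y (f z) (g w) = 0 := by
  obtain ⟨g', h1, h2⟩ := exists_adj H hW hg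
  have h3 : g' (f z) = 0 := by
    apply qf_nondeg H
    intro w
    rw [← h1]
    exact hfg z w
  rw [h2, h3]
  change h X 0 w.1 + h Y 0 w.2 = 0
  rw [h_zero_left H hW, h_zero_left H hW, add_zero]

variable {ηX : C.A X} {ηY : C.A Y}

lemma h_mul (hW : IsWeilForm H h) (z : C.A X) (x y : H.A X) :
    h X (H.cl z * x) y = h X x (H.cl z * y) := by
  have := hW.adj X X (C.push (Obj.lift (𝟙 X) (𝟙 X)) z) x y
  change h X (H.act (H.cl _) x) y = h X x (H.act (H.cl (tp C _)) y) at this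
  rw [tp_diag, act_diag, act_diag] at this
  exact this

omit hC hH in
lemma sign_aux (k j : ℕ) : (-1 : ℝ) ^ ((k + 2 * j) * (k + 2 * j - 1) / 2) =
    (-1) ^ (k * (k - 1) / 2) * (-1) ^ j := by
  have step : ∀ n : ℕ, (-1 : ℝ) ^ ((n + 2) * (n + 2 - 1) / 2) = (-1) ^ (n * (n - 1) / 2) * (-1) := by
    intro n
    have e : (n + 2) * (n + 2 - 1) / 2 = n * (n - 1) / 2 + (2 * n + 1) := by
      rcases n with _ | m
      · rfl
      · have e1 : (m + 1 + 2) * (m + 1 + 2 - 1) = (m + 1) * (m + 1 - 1) + 2 * (2 * (m + 1) + 1) := by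
          simp only [Nat.add_sub_cancel]
          have : m + 1 + 2 - 1 = m + 2 := by omega
          rw [this]
          ring
        rw [e1, Nat.add_mul_div_left _ _ (by norm_num)]
    rw [e, pow_add, pow_succ, pow_mul]
    norm_num
  induction j with
  | zero => simp
  | succ j ih =>
    have e : k + 2 * (j + 1) = (k + 2 * j) + 2 := by ring
    rw [e, step, ih, pow_succ]
    ring

/-- The Hodge-Riemann relations in the middle degree. -/
lemma hr_middle (hW : IsWeilForm H h) (hX : IsAmple H h X ηX) (j : ℕ) {a : H.A X}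
    (ha : a ∈ H.gr X ((X.dim : ℤ) - 2 * j)) (h1 : H.cl (ηX ^ (2 * j + 1)) * a = 0) (h0 : a ≠ 0) :
    0 < (-1 : ℝ) ^ (X.dim * (X.dim - 1) / 2) * (-1) ^ j *
      h X (H.cl (ηX ^ j) * a) (H.cl (ηX ^ j) * a) := by
  have hk : 2 * j ≤ X.dim := by
    by_contra hcon
    exact h0 (gr_out H (by omega) ha)
  obtain ⟨k, hk⟩ := Nat.exists_eq_add_of_le hk
  have e1 : (X.dim : ℤ) - 2 * j = k := by omega
  rw [e1] at ha
  have h2 := hX.pos k (2 * j) a (by omega) ha h1 h0
  have e2 : X.dim = k + 2 * j := by omega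
  have e3 : H.cl (ηX ^ j) * (H.cl (ηX ^ j) * a) = H.cl (ηX ^ (2 * j)) * a := by
    rw [← mul_assoc, ← map_mul, ← pow_add, two_mul]
  have e4 : (-1 : ℝ) ^ j * (-1) ^ j = 1 := by rw [← mul_pow]; norm_num
  rw [h_mul H hW, e3, e2, sign_aux, mul_assoc ((-1 : ℝ) ^ (k * (k - 1) / 2)), e4, mul_one]
  exact h2

/-- The intersection form and the Lefschetz operator. -/
lemma qf_L (z w : H.A X × H.A Y) :
    qf H X Y (Lef H X Y ηX ηY z) w = qf H X Y z (Lef H X Y ηX ηY w) := by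
  rw [Lef, qf_apply, qf_apply]
  simp only [LinearMap.add_apply, j11_apply, j22_apply, LinearMap.mulLeft_apply, Prod.mk_add_mk,
    add_zero, zero_add]
  rw [H.cl_central, H.cl_central, mul_assoc, mul_assoc]

variable [FiniteDimensional ℚ (H.A X)] [FiniteDimensional ℚ (H.A Y)]

/-- The side of `X`. -/
theorem sideX (hW : IsWeilForm H h) (hX : IsAmple H h X ηX) (hA : Reg (algB H X Y)) :
    Side (algB H X Y) (qf H X Y) (hf H h X Y) ((-1 : ℝ) ^ (X.dim * (X.dim - 1) / 2)) X.dim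
      (fun j => PX H X Y (2 * j)) (Lef H X Y ηX ηY) where
  mem j := (grdX (Y := Y) (ηY := ηY) H hX).mem hA _
  idem j := PX_idem H _
  orth i j hij := PX_orth H _ _ (by omega)
  out j hj := PX_out H _ (by rw [lt_abs] at hj ⊢; omega)
  L_mem := Lef_mem H ηX ηY
  L_p j := by
    rw [(grdX H hX).L_P]
    congr 2
    ring
  inj j x hx := by
    have e : 2 * (-(j : ℤ)) = -((2 * j : ℕ) : ℤ) := by push_cast; ring
    rw [e] at hx ⊢
    exact (grdX H hX).inj (2 * j) x hx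
  surj j y := by
    obtain ⟨x, hx⟩ := (grdX (Y := Y) (ηY := ηY) H hX).surj (2 * j) y
    have e : 2 * (-(j : ℤ)) = -((2 * j : ℕ) : ℤ) := by push_cast; ring
    have e' : 2 * (j : ℤ) = ((2 * j : ℕ) : ℤ) := by push_cast; ring
    exact ⟨x, by rw [e, e']; exact hx⟩
  q_left j x y := by
    have e : 2 * (X.dim : ℤ) - (X.dim + 2 * j) = X.dim + 2 * -j := by ring
    rw [PX_apply, PX_apply, qf_apply, qf_apply, tr_cmp_right H (cmpH_mem H _ x.1), e]
    simp only [zero_mul, map_zero]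
  q_right j x y := by
    have e : 2 * (X.dim : ℤ) - (X.dim + 2 * j) = X.dim + 2 * -j := by ring
    rw [PX_apply, PX_apply, qf_apply, qf_apply, tr_cmp_left H (cmpH_mem H _ y.1), e]
    simp only [mul_zero, map_zero]
  q_L := qf_L H
  nondeg j x hx := qf_nondeg H hx
  hr j x h1 h2 := by
    have e : (fun j => PX H X Y (2 * j)) (-(j : ℤ)) x =
        (cmpH H X ((X.dim : ℤ) - 2 * j) x.1, (0 : H.A Y)) := by
      change (cmpH H X (X.dim + 2 * (-(j : ℤ))) x.1, (0 : H.A Y)) = _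
      rw [show (X.dim : ℤ) + 2 * (-(j : ℤ)) = (X.dim : ℤ) - 2 * j by ring]
    rw [e, Lef_pow_left] at h1 h2
    rw [e, Lef_pow_left]
    have h3 := hr_middle H hW hX j (cmpH_mem H _ x.1) (congrArg Prod.fst h1) (by
      intro h0
      apply h2
      rw [h0, mul_zero]
      rfl)
    have h4 : hf H h X Y (H.cl (ηX ^ j) * cmpH H X ((X.dim : ℤ) - 2 * j) x.1, 0)
        (H.cl (ηX ^ j) * cmpH H X ((X.dim : ℤ) - 2 * j) x.1, 0) =
        h X (H.cl (ηX ^ j) * cmpH H X ((X.dim : ℤ) - 2 * j) x.1)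
          (H.cl (ηX ^ j) * cmpH H X ((X.dim : ℤ) - 2 * j) x.1) := by
      rw [hf, h_zero_left H hW (X := Y), add_zero]
    rw [h4]
    exact h3

/-- The side of `Y`. -/
theorem sideY (hW : IsWeilForm H h) (hY : IsAmple H h Y ηY) (hA : Reg (algB H X Y)) :
    Side (algB H X Y) (qf H X Y) (hf H h X Y) ((-1 : ℝ) ^ (Y.dim * (Y.dim - 1) / 2)) Y.dim
      (fun j => PY H X Y (2 * j)) (Lef H X Y ηX ηY) where
  mem j := (grdY (X := X) (ηX := ηX) H hY).mem hA _
  idem j := PY_idem H _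
  orth i j hij := PY_orth H _ _ (by omega)
  out j hj := PY_out H _ (by rw [lt_abs] at hj ⊢; omega)
  L_mem := Lef_mem H ηX ηY
  L_p j := by
    rw [(grdY H hY).L_P]
    congr 2
    ring
  inj j x hx := by
    have e : 2 * (-(j : ℤ)) = -((2 * j : ℕ) : ℤ) := by push_cast; ring
    rw [e] at hx ⊢
    exact (grdY H hY).inj (2 * j) x hx
  surj j y := by
    obtain ⟨x, hx⟩ := (grdY (X := X) (ηX := ηX) H hY).surj (2 * j) y
    have e : 2 * (-(j : ℤ)) = -((2 * j : ℕ) : ℤ) := by push_cast; ring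
    have e' : 2 * (j : ℤ) = ((2 * j : ℕ) : ℤ) := by push_cast; ring
    exact ⟨x, by rw [e, e']; exact hx⟩
  q_left j x y := by
    have e : 2 * (Y.dim : ℤ) - (Y.dim + 2 * j) = Y.dim + 2 * -j := by ring
    rw [PY_apply, PY_apply, qf_apply, qf_apply, tr_cmp_right H (cmpH_mem H _ x.2), e]
    simp only [zero_mul, map_zero]
  q_right j x y := by
    have e : 2 * (Y.dim : ℤ) - (Y.dim + 2 * j) = Y.dim + 2 * -j := by ring
    rw [PY_apply, PY_apply, qf_apply, qf_apply, tr_cmp_left H (cmpH_mem H _ y.2), e]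
    simp only [mul_zero, map_zero]
  q_L := qf_L H
  nondeg j x hx := qf_nondeg H hx
  hr j x h1 h2 := by
    have e : (fun j => PY H X Y (2 * j)) (-(j : ℤ)) x =
        ((0 : H.A X), cmpH H Y ((Y.dim : ℤ) - 2 * j) x.2) := by
      change ((0 : H.A X), cmpH H Y (Y.dim + 2 * (-(j : ℤ))) x.2) = _
      rw [show (Y.dim : ℤ) + 2 * (-(j : ℤ)) = (Y.dim : ℤ) - 2 * j by ring]
    rw [e, Lef_pow_right] at h1 h2
    rw [e, Lef_pow_right]
    have h3 := hr_middle H hW hY j (cmpH_mem H _ x.2) (congrArg Prod.snd h1) (by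
      intro h0
      apply h2
      rw [h0, mul_zero]
      rfl)
    have h4 : hf H h X Y (0, H.cl (ηY ^ j) * cmpH H Y ((Y.dim : ℤ) - 2 * j) x.2)
        (0, H.cl (ηY ^ j) * cmpH H Y ((Y.dim : ℤ) - 2 * j) x.2) =
        h Y (H.cl (ηY ^ j) * cmpH H Y ((Y.dim : ℤ) - 2 * j) x.2)
          (H.cl (ηY ^ j) * cmpH H Y ((Y.dim : ℤ) - 2 * j) x.2) := by
      rw [hf, h_zero_left H hW (X := X), zero_add]
    rw [h4]
    exact h3

end Pool.Agent.Y121.OV
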