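import Pool.Agent.Y121.OV.Reg

/-!
# The projections onto the graded pieces in a regular algebra
-/

open Module

namespace Pool.Agent.Y121.OV

set_option linter.unusedSectionVars false

variable {V : Type*} [AddCommGroup V] [Module ℚ V] [FiniteDimensional ℚ V]

/-- A grading of a direct summand of `V`, not necessarily in the algebra `A`, with a Lefschetz
operator of degree two in `A`. -/
structure Grd (A : Subalgebra ℚ (End ℚ V)) (n : ℕ) (P : ℤ → End ℚ V) (L : End ℚ V) : Prop where
  idem : ∀ i, P i * P i = P i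
  orth : ∀ i j, i ≠ j → P i * P j = 0
  out : ∀ i : ℤ, (n : ℤ) < |i| → P i = 0
  tot_mem : ∑ i ∈ Finset.Icc (-(n : ℤ)) n, P i ∈ A
  L_mem : L ∈ A
  L_P : ∀ i, L * P i = P (i + 2) * L
  inj : ∀ (i : ℕ) (x : V), (L ^ i) (P (-i) x) = 0 → P (-i) x = 0
  surj : ∀ (i : ℕ) (y : V), ∃ x, (L ^ i) (P (-i) x) = P i y
  hom : ∀ b ∈ A, ∀ d : ℤ, ∑ i ∈ Finset.Icc (-(n : ℤ)) n, P (i + 2 * d) * b * P i ∈ A

namespace Grd

variable {A : Subalgebra ℚ (End ℚ V)} {n : ℕ} {P : ℤ → End ℚ V} {L : End ℚ V} (G : Grd A n P L)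

include G

lemma sum_mul {s : Finset ℤ} {i : ℤ} (hi : i ∈ s) : (∑ j ∈ s, P j) * P i = P i := by
  rw [Finset.sum_mul, Finset.sum_eq_single_of_mem i hi fun j _ hj => G.orth j i hj, G.idem]

lemma sum_mul_ne {s : Finset ℤ} {i : ℤ} (hi : i ∉ s) : (∑ j ∈ s, P j) * P i = 0 := by
  rw [Finset.sum_mul]
  exact Finset.sum_eq_zero fun j hj => G.orth j i fun h => hi (h ▸ hj)

lemma L_pow (k : ℕ) (i : ℤ) : L ^ k * P i = P (i + 2 * k) * L ^ k := by
  induction k generalizing i with
  | zero => simp
  | succ k ih =>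
    rw [pow_succ, mul_assoc, G.L_P, ← mul_assoc, ih, mul_assoc]
    congr 2
    push_cast
    ring

/-- **The projections onto the graded pieces are in the algebra.** -/
theorem mem (hA : Reg A) (i : ℤ) : P i ∈ A := by
  suffices h : ∀ k i : ℕ, i + k = n → P i ∈ A ∧ P (-i) ∈ A by
    by_cases hi : (n : ℤ) < |i|
    · rw [G.out i hi]
      exact A.zero_mem
    · obtain ⟨k, hk⟩ := Nat.exists_eq_add_of_le (show i.natAbs ≤ n by
        rw [Int.abs_eq_natAbs] at hi
        omega)
      have h1 := h k i.natAbs hk.symm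
      rcases Int.natAbs_eq i with h2 | h2
      · rw [h2]; exact h1.1
      · rw [h2]; exact h1.2
  intro k
  induction k using Nat.strong_induction_on with
  | _ k ih =>
    intro i hik
    have hup : ∀ j ∈ Finset.Icc ((i : ℤ) + 1) n, P j ∈ A := by
      intro j hj
      rw [Finset.mem_Icc] at hj
      obtain ⟨l, hl⟩ := Int.eq_ofNat_of_zero_le (a := j) (by omega)
      have := (ih (n - l) (by omega) l (by omega)).1
      rwa [hl]
    have hlow : ∀ j ∈ Finset.Icc (-(n : ℤ)) (-i - 1), P j ∈ A := by
      intro j hj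
      rw [Finset.mem_Icc] at hj
      obtain ⟨l, hl⟩ := Int.eq_ofNat_of_zero_le (a := -j) (by omega)
      have := (ih (n - l) (by omega) l (by omega)).2
      rwa [show j = -(l : ℤ) by omega]
    set E := ∑ j ∈ Finset.Icc (-(n : ℤ)) n, P j with hE
    have hEP : ∀ j, E * P j = P j := by
      intro j
      by_cases hj : j ∈ Finset.Icc (-(n : ℤ)) n
      · exact G.sum_mul hj
      · rw [G.out j (by rw [Finset.mem_Icc, ← abs_le, not_le] at hj; exact hj), mul_zero]
    have hx : ∀ x : V, E x = ∑ j ∈ Finset.Icc (-(n : ℤ)) n, P j x := fun x => by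
      rw [hE, LinearMap.sum_apply]
    set F := E - ∑ j ∈ Finset.Icc ((i : ℤ) + 1) n, P j with hF
    set F' := E - ∑ j ∈ Finset.Icc (-(n : ℤ)) (-i - 1), P j with hF'
    have hFA : F ∈ A := A.sub_mem G.tot_mem (A.sum_mem hup)
    have hFA' : F' ∈ A := A.sub_mem G.tot_mem (A.sum_mem hlow)
    have hFP : ∀ j : ℤ, j ≤ i → F * P j = P j := fun j hj => by
      rw [hF, _root_.sub_mul, hEP, G.sum_mul_ne (by rw [Finset.mem_Icc]; omega), sub_zero]
    have hFP0 : ∀ j : ℤ, i < j → F * P j = 0 := fun j hj => by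
      by_cases hjn : j ≤ n
      · rw [hF, _root_.sub_mul, hEP, G.sum_mul (by rw [Finset.mem_Icc]; omega), sub_self]
      · rw [G.out j (by rw [lt_abs]; omega), mul_zero]
    have hFP' : ∀ j : ℤ, -i ≤ j → F' * P j = P j := fun j hj => by
      rw [hF', _root_.sub_mul, hEP, G.sum_mul_ne (by rw [Finset.mem_Icc]; omega), sub_zero]
    have hFP0' : ∀ j : ℤ, j < -i → F' * P j = 0 := fun j hj => by
      by_cases hjn : -n ≤ j
      · rw [hF', _root_.sub_mul, hEP, G.sum_mul (by rw [Finset.mem_Icc]; omega), sub_self]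
      · rw [G.out j (by rw [lt_abs]; omega), mul_zero]
    have hii : -(i : ℤ) + 2 * (i : ℤ) = i := by ring
    -- the operator
    set t := L ^ i * P (-i) with ht
    have htt : t = F * L ^ i * F' * E := by
      rw [hE, Finset.mul_sum, Finset.sum_eq_single_of_mem (-(i : ℤ))
        (by rw [Finset.mem_Icc]; omega)]
      · rw [mul_assoc, hFP' _ le_rfl, mul_assoc, G.L_pow, hii, ← mul_assoc, hFP _ le_rfl, ht,
          G.L_pow, hii]
      · intro j hj hji
        rcases lt_or_gt_of_ne hji with h1 | h1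
        · rw [mul_assoc, hFP0' j h1, mul_zero]
        · rw [mul_assoc, hFP' j h1.le, mul_assoc, G.L_pow, ← mul_assoc, hFP0 _ (by omega),
            zero_mul]
    have htA : t ∈ A := by
      rw [htt]
      exact A.mul_mem (A.mul_mem (A.mul_mem hFA (pow_mem G.L_mem _)) hFA') G.tot_mem
    have htP : t = P i * L ^ i := by rw [ht, G.L_pow, hii]
    have htPm : t * P (-i) = t := by rw [ht, mul_assoc, G.idem]
    have hPt : P i * t = t := by rw [htP, ← mul_assoc, G.idem]
    obtain ⟨b, hb, htb⟩ := hA t htA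
    set b' := ∑ j ∈ Finset.Icc (-(n : ℤ)) n, P (j + 2 * (-(i : ℤ))) * b * P j with hb'
    have hbA : b' ∈ A := G.hom b hb _
    have hbP : b' * P i = P (-i) * b * P i := by
      rw [hb', Finset.sum_mul, Finset.sum_eq_single_of_mem (i : ℤ)
        (by rw [Finset.mem_Icc]; omega)]
      · rw [mul_assoc, G.idem]
        congr 3
        ring
      · intro j _ hj
        rw [mul_assoc, G.orth j i hj, mul_zero]
    have hPb : P (-i) * b' = P (-i) * b * P i := by
      rw [hb', Finset.mul_sum, Finset.sum_eq_single_of_mem (i : ℤ)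
        (by rw [Finset.mem_Icc]; omega)]
      · rw [← mul_assoc, ← mul_assoc]
        congr 2
        rw [show (i : ℤ) + 2 * (-(i : ℤ)) = -i by ring, G.idem]
      · intro j _ hj
        rw [← mul_assoc, ← mul_assoc, G.orth _ _ (by omega), zero_mul, zero_mul]
    have hPP : P (-i) * b' = b' * P i := by rw [hPb, hbP]
    have htbt : t * b' * t = t := by
      calc t * b' * t = (t * P (-i)) * b' * t := by rw [htPm]
        _ = t * (P (-i) * b') * t := by simp only [mul_assoc]
        _ = t * (P (-i) * b * P i) * t := by rw [hPb]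
        _ = (t * P (-i)) * b * (P i * t) := by simp only [mul_assoc]
        _ = _ := by rw [htPm, hPt, htb]
    constructor
    · have h1 : t * b' = P i := by
        have h2 : t * b' * P i = t * b' := by
          rw [mul_assoc, ← hPP, ← mul_assoc, htPm]
        apply LinearMap.ext
        intro y
        obtain ⟨x, hx⟩ := G.surj i y
        have h3 : P i y = t x := hx.symm
        rw [← h2, Module.End.mul_apply, h3, ← Module.End.mul_apply, htbt]
      rw [← h1]
      exact A.mul_mem htA hbA
    · have h1 : b' * t = P (-i) := by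
        have h2 : P (-i) * (b' * t) = b' * t := by
          rw [← mul_assoc, hPP, mul_assoc, hPt]
        apply LinearMap.ext
        intro x
        have h3 : (L ^ i) (P (-i) ((b' * t) x - P (-i) x)) = 0 := by
          have : (L ^ i) (P (-i) ((b' * t) x - P (-i) x)) = (t * b' * t) x - (t * P (-i)) x := by
            rw [map_sub, map_sub, mul_assoc]
            rfl
          rw [this, htbt, htPm, sub_self]
        have h4 := G.inj i _ h3
        rw [map_sub, ← Module.End.mul_apply, h2, ← Module.End.mul_apply (P (-(i : ℤ))), G.idem,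
          sub_eq_zero] at h4
        exact h4
      rw [← h1]
      exact A.mul_mem hbA htA

end Grd

end Pool.Agent.Y121.OV
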