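import Pool.Agent.Y121.OV.Ss
import Pool.Agent.Y121.OV.Kun

/-!
# The Kunneth projectors are algebraic
-/

open CategoryTheory AlgebraicGeometry Module

universe u v

namespace Pool.Agent.Y121.OV

open Pool.Agent.H914 Pool.Agent.H914.VarClass Pool.Agent.H914.VarClass.Obj Pool.Agent.W492.BB
  Pool.Agent.W550.Corr Pool.Agent.TH133 Pool.Agent.Y121.NK Pool.Agent.TH829.Kim

set_option linter.unusedSectionVars false

variable {k : Type u} [Field k] {𝒱 : VarClass k} {C : TheoryData.{u, v, 0} 𝒱 ℚ}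
  [hC : IsChowProj C] (H : WeilTheoryData.{u, v, 0} C ℚ) [hH : IsWeilProj H] {X Y Z W : 𝒱.Obj}

include hC hH

lemma cmpH_mem (i : ℤ) (a : H.A X) : cmpH H X i a ∈ H.gr X i := Subtype.coe_prop _

lemma cmpH_idem (i : ℤ) (a : H.A X) : cmpH H X i (cmpH H X i a) = cmpH H X i a :=
  cmpH_self H (cmpH_mem H i a)

lemma cmpH_orth {i j : ℤ} (hij : i ≠ j) (a : H.A X) : cmpH H X i (cmpH H X j a) = 0 :=
  cmpH_ne H (cmpH_mem H j a) hij.symm

lemma cmpH_out {i : ℤ} (hi : i < 0 ∨ 2 * X.dim < i) (a : H.A X) : cmpH H X i a = 0 := by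
  have h := cmpH_mem H i a
  rcases hi with hi | hi
  · rw [H.gr_neg X i hi] at h
    exact (Submodule.mem_bot _).1 h
  · rw [gr_top H hi] at h
    exact (Submodule.mem_bot _).1 h

lemma gr_out {i : ℤ} (hi : i < 0 ∨ 2 * X.dim < i) {a : H.A X} (ha : a ∈ H.gr X i) : a = 0 := by
  rw [← cmpH_self H ha]
  exact cmpH_out H hi a

lemma sum_cmpH' (a : H.A X) :
    ∑ i ∈ Finset.Icc (-(X.dim : ℤ)) X.dim, cmpH H X (X.dim + i) a = a := by
  have h : ∑ i ∈ Finset.Icc (-(X.dim : ℤ)) X.dim, cmpH H X (X.dim + i) = LinearMap.id := by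
    apply ext_gr H
    intro m a ha
    rw [LinearMap.sum_apply, LinearMap.id_apply]
    by_cases hm : m < 0 ∨ 2 * X.dim < m
    · rw [gr_out H hm ha]
      exact Finset.sum_eq_zero fun i _ => map_zero _
    · rw [Finset.sum_eq_single_of_mem (m - X.dim) (by rw [Finset.mem_Icc]; omega)]
      · rw [show (X.dim : ℤ) + (m - X.dim) = m by ring, cmpH_self H ha]
      · intro i _ hi
        exact cmpH_ne H ha (by omega)
  have h1 := LinearMap.congr_fun h a
  rwa [LinearMap.sum_apply] at h1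

/-- The Lefschetz operator. -/
noncomputable def Lef (X Y : 𝒱.Obj) (ηX : C.A X) (ηY : C.A Y) : End ℚ (H.A X × H.A Y) :=
  j11 (LinearMap.mulLeft ℚ (H.cl ηX)) + j22 (LinearMap.mulLeft ℚ (H.cl ηY))

lemma Lef_mem (ηX : C.A X) (ηY : C.A Y) : Lef H X Y ηX ηY ∈ algB H X Y :=
  (algB H X Y).add_mem (j11_mem H (Alg.mulLeft H ηX)) (j22_mem H (Alg.mulLeft H ηY))

lemma Lef_pow_left (ηX : C.A X) (ηY : C.A Y) (i : ℕ) (x : H.A X) :
    (Lef H X Y ηX ηY ^ i) (x, 0) = (H.cl (ηX ^ i) * x, 0) := by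
  induction i generalizing x with
  | zero => simp
  | succ i ih =>
    rw [pow_succ, Module.End.mul_apply, Lef, LinearMap.add_apply, j11_apply, j22_apply]
    have e : (((LinearMap.mulLeft ℚ (H.cl ηX)) (x, (0 : H.A Y)).1, (0 : H.A Y)) +
        ((0 : H.A X), (LinearMap.mulLeft ℚ (H.cl ηY)) (x, (0 : H.A Y)).2)) =
        (H.cl ηX * x, (0 : H.A Y)) := by
      apply Prod.ext
      · simp
      · simp
    rw [e, ← Lef, ih, pow_succ, map_mul, mul_assoc]

lemma Lef_pow_right (ηX : C.A X) (ηY : C.A Y) (i : ℕ) (y : H.A Y) :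
    (Lef H X Y ηX ηY ^ i) (0, y) = (0, H.cl (ηY ^ i) * y) := by
  induction i generalizing y with
  | zero => simp
  | succ i ih =>
    rw [pow_succ, Module.End.mul_apply, Lef, LinearMap.add_apply, j11_apply, j22_apply]
    have e : (((LinearMap.mulLeft ℚ (H.cl ηX)) ((0 : H.A X), y).1, (0 : H.A Y)) +
        ((0 : H.A X), (LinearMap.mulLeft ℚ (H.cl ηY)) ((0 : H.A X), y).2)) =
        ((0 : H.A X), H.cl ηY * y) := by
      apply Prod.ext
      · simp
      · simp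
    rw [e, ← Lef, ih, pow_succ, map_mul, mul_assoc]

/-- The graded pieces. -/
noncomputable def PX (X Y : 𝒱.Obj) (i : ℤ) : End ℚ (H.A X × H.A Y) := j11 (cmpH H X (X.dim + i))
@[inherit_doc PX]
noncomputable def PY (X Y : 𝒱.Obj) (i : ℤ) : End ℚ (H.A X × H.A Y) := j22 (cmpH H Y (Y.dim + i))

lemma PX_apply (i : ℤ) (z : H.A X × H.A Y) : PX H X Y i z = (cmpH H X (X.dim + i) z.1, 0) := rfl
lemma PY_apply (i : ℤ) (z : H.A X × H.A Y) : PY H X Y i z = (0, cmpH H Y (Y.dim + i) z.2) := rfl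

/-- The sum of the components of an algebraic operator. -/
lemma sum_hom {f : H.A X →ₗ[ℚ] H.A X} (hf : f ∈ Alg H X X) (d : ℤ) :
    ∑ i ∈ Finset.Icc (-(X.dim : ℤ)) X.dim,
      cmpH H X (X.dim + (i + 2 * d)) ∘ₗ f ∘ₗ cmpH H X (X.dim + i) ∈ Alg H X X := by
  obtain ⟨Γ, rfl⟩ := hf
  refine ⟨cmp C (X.prod X) (X.dim + d) Γ, ?_⟩
  apply ext_gr H
  intro m a ha
  rw [LinearMap.sum_apply, H.actL_apply]
  by_cases hm : m < 0 ∨ 2 * X.dim < m
  · rw [gr_out H hm ha, ← H.actL_apply, map_zero]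
    exact (Finset.sum_eq_zero fun i _ => map_zero _).symm
  · rw [Finset.sum_eq_single_of_mem (m - X.dim) (by rw [Finset.mem_Icc]; omega)]
    · rw [LinearMap.comp_apply, LinearMap.comp_apply, show (X.dim : ℤ) + (m - X.dim) = m by ring,
        cmpH_self H ha, show (X.dim : ℤ) + (m - X.dim + 2 * d) = m + 2 * d by ring, H.actL_apply,
        cmpH_act' H Γ d ha]
    · intro i _ hi
      rw [LinearMap.comp_apply, LinearMap.comp_apply, cmpH_ne H ha (by omega), map_zero, map_zero]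

variable {h : ∀ X, H.A X → H.A X → ℝ} {ηX : C.A X} {ηY : C.A Y}

lemma mul_mem_gr' (hη : C.Deg 1 ηX) {i : ℤ} {a : H.A X} (ha : a ∈ H.gr X i) :
    H.cl ηX * a ∈ H.gr X (i + 2) := by
  have h1 := H.mul_mem (H.cl_mem hη) ha
  rwa [show 2 * (1 : ℤ) + i = i + 2 by ring] at h1

lemma cmpH_mul (hη : C.Deg 1 ηX) (i : ℤ) (a : H.A X) :
    H.cl ηX * cmpH H X i a = cmpH H X (i + 2) (H.cl ηX * a) := by
  have h : LinearMap.mulLeft ℚ (H.cl ηX) ∘ₗ cmpH H X i =
      cmpH H X (i + 2) ∘ₗ LinearMap.mulLeft ℚ (H.cl ηX) := by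
    apply ext_gr H
    intro m a ha
    rw [LinearMap.comp_apply, LinearMap.comp_apply, LinearMap.mulLeft_apply,
      LinearMap.mulLeft_apply]
    by_cases hm : m = i
    · subst hm
      rw [cmpH_self H ha, cmpH_self H (mul_mem_gr' H hη ha)]
    · rw [cmpH_ne H ha hm, mul_zero, cmpH_ne H (mul_mem_gr' H hη ha) (by omega)]
  exact LinearMap.congr_fun h a

lemma PX_idem (i : ℤ) : PX H X Y i * PX H X Y i = PX H X Y i := by
  rw [PX, j11_mul]
  congr 1
  exact LinearMap.ext fun a => cmpH_idem H _ a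

lemma PX_orth (i j : ℤ) (hij : i ≠ j) : PX H X Y i * PX H X Y j = 0 := by
  rw [PX, PX, j11_mul]
  have : cmpH H X (X.dim + i) ∘ₗ cmpH H X (X.dim + j) = 0 :=
    LinearMap.ext fun a => cmpH_orth H (by omega) a
  rw [this]
  apply LinearMap.ext
  intro z
  simp [j11_apply]

lemma PX_out (i : ℤ) (hi : (X.dim : ℤ) < |i|) : PX H X Y i = 0 := by
  apply LinearMap.ext
  intro z
  rw [PX_apply, cmpH_out H (by rw [lt_abs] at hi; omega)]
  rfl

lemma PY_idem (i : ℤ) : PY H X Y i * PY H X Y i = PY H X Y i := by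
  rw [PY, j22_mul]
  congr 1
  exact LinearMap.ext fun a => cmpH_idem H _ a

lemma PY_orth (i j : ℤ) (hij : i ≠ j) : PY H X Y i * PY H X Y j = 0 := by
  rw [PY, PY, j22_mul]
  have : cmpH H Y (Y.dim + i) ∘ₗ cmpH H Y (Y.dim + j) = 0 :=
    LinearMap.ext fun a => cmpH_orth H (by omega) a
  rw [this]
  apply LinearMap.ext
  intro z
  simp [j22_apply]

lemma PY_out (i : ℤ) (hi : (Y.dim : ℤ) < |i|) : PY H X Y i = 0 := by
  apply LinearMap.ext
  intro z
  rw [PY_apply, cmpH_out H (by rw [lt_abs] at hi; omega)]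
  rfl

/-- The grading of the cohomology of `X`. -/
theorem grdX (hX : IsAmple H h X ηX) : Grd (algB H X Y) X.dim (PX H X Y) (Lef H X Y ηX ηY) where
  idem := PX_idem H
  orth := PX_orth H
  out := PX_out H
  tot_mem := by
    have : ∑ i ∈ Finset.Icc (-(X.dim : ℤ)) X.dim, PX H X Y i = j11 LinearMap.id := by
      simp only [PX]
      rw [← j11_sum]
      congr 1
      apply LinearMap.ext
      intro a
      rw [LinearMap.sum_apply, sum_cmpH' H a]
      rfl
    rw [this]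
    exact j11_mem H (Alg.id H X)
  L_mem := Lef_mem H ηX ηY
  L_P i := by
    apply LinearMap.ext
    intro z
    rw [Module.End.mul_apply, Module.End.mul_apply, PX_apply, PX_apply, Lef]
    simp only [LinearMap.add_apply, j11_apply, j22_apply, map_zero, LinearMap.mulLeft_apply,
      Prod.mk_add_mk, add_zero]
    rw [cmpH_mul H hX.deg, add_assoc]
  inj i z hz := by
    rw [PX_apply] at hz ⊢
    rw [Lef_pow_left] at hz
    have h1 : H.cl (ηX ^ i) * cmpH H X (X.dim + -(i : ℤ)) z.1 = 0 := congrArg Prod.fst hz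
    have h2 : cmpH H X (X.dim + -(i : ℤ)) z.1 = 0 := hX.inj i _ (cmpH_mem H _ z.1) h1
    rw [h2]
    rfl
  surj i z := by
    obtain ⟨x, hx, hxy⟩ := hX.surj i _ (cmpH_mem H ((X.dim : ℤ) + i) z.1)
    refine ⟨(x, 0), ?_⟩
    have e : cmpH H X (X.dim + -(i : ℤ)) x = x := cmpH_self H hx
    rw [PX_apply, PX_apply, Lef_pow_left]
    change (H.cl (ηX ^ i) * cmpH H X (X.dim + -(i : ℤ)) x, (0 : H.A Y)) = _
    rw [e]
    exact congrArg (fun t => (t, (0 : H.A Y))) hxy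
  hom b hb d := by
    have : ∑ i ∈ Finset.Icc (-(X.dim : ℤ)) X.dim, PX H X Y (i + 2 * d) * b * PX H X Y i =
        j11 (∑ i ∈ Finset.Icc (-(X.dim : ℤ)) X.dim,
          cmpH H X (X.dim + (i + 2 * d)) ∘ₗ c11 b ∘ₗ cmpH H X (X.dim + i)) := by
      rw [j11_sum]
      refine Finset.sum_congr rfl fun i _ => ?_
      rfl
    rw [this]
    exact j11_mem H (sum_hom H hb.1 d)

/-- The grading of the cohomology of `Y`. -/
theorem grdY (hY : IsAmple H h Y ηY) : Grd (algB H X Y) Y.dim (PY H X Y) (Lef H X Y ηX ηY) where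
  idem := PY_idem H
  orth := PY_orth H
  out := PY_out H
  tot_mem := by
    have : ∑ i ∈ Finset.Icc (-(Y.dim : ℤ)) Y.dim, PY H X Y i = j22 LinearMap.id := by
      simp only [PY]
      rw [← j22_sum]
      congr 1
      apply LinearMap.ext
      intro a
      rw [LinearMap.sum_apply, sum_cmpH' H a]
      rfl
    rw [this]
    exact j22_mem H (Alg.id H Y)
  L_mem := Lef_mem H ηX ηY
  L_P i := by
    apply LinearMap.ext
    intro z
    rw [Module.End.mul_apply, Module.End.mul_apply, PY_apply, PY_apply, Lef]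
    simp only [LinearMap.add_apply, j11_apply, j22_apply, map_zero, LinearMap.mulLeft_apply,
      Prod.mk_add_mk, zero_add]
    rw [cmpH_mul H hY.deg, add_assoc]
  inj i z hz := by
    rw [PY_apply] at hz ⊢
    rw [Lef_pow_right] at hz
    have h1 : H.cl (ηY ^ i) * cmpH H Y (Y.dim + -(i : ℤ)) z.2 = 0 := congrArg Prod.snd hz
    have h2 : cmpH H Y (Y.dim + -(i : ℤ)) z.2 = 0 := hY.inj i _ (cmpH_mem H _ z.2) h1
    rw [h2]
    rfl
  surj i z := by
    obtain ⟨x, hx, hxy⟩ := hY.surj i _ (cmpH_mem H ((Y.dim : ℤ) + i) z.2)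
    refine ⟨(0, x), ?_⟩
    have e : cmpH H Y (Y.dim + -(i : ℤ)) x = x := cmpH_self H hx
    rw [PY_apply, PY_apply, Lef_pow_right]
    change ((0 : H.A X), H.cl (ηY ^ i) * cmpH H Y (Y.dim + -(i : ℤ)) x) = _
    rw [e]
    exact congrArg (fun t => ((0 : H.A X), t)) hxy
  hom b hb d := by
    have : ∑ i ∈ Finset.Icc (-(Y.dim : ℤ)) Y.dim, PY H X Y (i + 2 * d) * b * PY H X Y i =
        j22 (∑ i ∈ Finset.Icc (-(Y.dim : ℤ)) Y.dim,
          cmpH H Y (Y.dim + (i + 2 * d)) ∘ₗ c22 b ∘ₗ cmpH H Y (Y.dim + i)) := by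
      rw [j22_sum]
      refine Finset.sum_congr rfl fun i _ => ?_
      rfl
    rw [this]
    exact j22_mem H (sum_hom H hb.2.2.2 d)

end Pool.Agent.Y121.OV
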