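import Pool.Agent.Y121.OV.Tot

/-!
# The Lagrangian in the middle cohomology attached to an isometry
-/

open Module

namespace Pool.Agent.Y121.OV

set_option linter.unusedSectionVars false

variable {V : Type*} [AddCommGroup V] [Module ℚ V] [FiniteDimensional ℚ V]

/-- Two varieties with an isometry of the Mukai forms in the algebra `A`. -/
structure Pair (A : Subalgebra ℚ (End ℚ V)) (q B : V →ₗ[ℚ] V →ₗ[ℚ] ℚ) (h : V → V → ℝ) (c : ℝ)
    (m : ℕ) (p r : ℤ → End ℚ V) (L : End ℚ V) (ε : ℤ → ℚ) (Φ Ψ : End ℚ V) : Prop where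
  reg : Reg A
  X : Side A q h c m p L
  Y : Side A q h c m r L
  BX : Bil q B p ε
  BY : Bil q B r ε
  pr : ∀ i j, p i * r j = 0
  rp : ∀ i j, r i * p j = 0
  add_left : ∀ x y z, h (x + y) z = h x z + h y z
  add_right : ∀ x y z, h x (y + z) = h x y + h x z
  hJ : ∀ f ∈ A, ∀ g ∈ A, (∀ x y, q (f x) (g y) = 0) → ∀ x y, h (f x) (g y) = 0
  ε_ne : ∀ j, ε j ≠ 0
  Φ_mem : Φ ∈ A
  Ψ_mem : Ψ ∈ A
  ΨΦ : Ψ * Φ = tot m p
  ΦΨ : Φ * Ψ = tot m r
  ΦP : Φ * tot m p = Φ
  RΦ : tot m r * Φ = Φ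
  PΨ : tot m p * Ψ = Ψ
  ΨR : Ψ * tot m r = Ψ
  isom : ∀ x y, tot m p x = x → tot m p y = y → B (Φ x) (Φ y) = B x y

namespace Pair

variable {A : Subalgebra ℚ (End ℚ V)} {q B : V →ₗ[ℚ] V →ₗ[ℚ] ℚ} {h : V → V → ℝ} {c : ℝ} {m : ℕ}
  {p r : ℤ → End ℚ V} {L : End ℚ V} {ε : ℤ → ℚ} {Φ Ψ : End ℚ V}
  (H : Pair A q B h c m p r L ε Φ Ψ)

include H

lemma tot_pr : tot m p * tot m r = 0 := by
  rw [tot, Finset.sum_mul]
  refine Finset.sum_eq_zero fun i _ => ?_
  rw [tot, Finset.mul_sum]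
  exact Finset.sum_eq_zero fun j _ => H.pr i j

lemma tot_rp : tot m r * tot m p = 0 := by
  rw [tot, Finset.sum_mul]
  refine Finset.sum_eq_zero fun i _ => ?_
  rw [tot, Finset.mul_sum]
  exact Finset.sum_eq_zero fun j _ => H.rp i j

/-- The idempotent with image the elements of nonnegative degree with image of nonnegative
degree. -/
lemma exists_rho : ∃ ρ, IsObj A ρ ∧ ∀ x, ρ x = x ↔ (up m p x = x ∧ up m r (Φ x) = Φ x) := by
  have hut := H.X.up_tot
  have hut' := H.Y.up_tot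
  set P := tot m p with hP
  set R := tot m r with hR
  set t := (P - up m p) + (R - up m r) * Φ with ht
  have htA : t ∈ A := A.add_mem (A.sub_mem H.X.tot_obj.mem H.X.up_obj.mem)
    (A.mul_mem (A.sub_mem H.Y.tot_obj.mem H.Y.up_obj.mem) H.Φ_mem)
  have htP : t * P = t := by
    rw [ht, add_mul, sub_mul, H.X.tot_obj.idem, hut.1, mul_assoc, H.ΦP]
  obtain ⟨b, hb, htb⟩ := H.reg t htA
  set ρ := P - P * b * t with hρ
  have htρ : t * ρ = 0 := by
    rw [hρ, mul_sub, htP, ← mul_assoc, ← mul_assoc, htP, htb, sub_self]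
  have hPρ : P * ρ = ρ := by
    rw [hρ, mul_sub, H.X.tot_obj.idem, ← mul_assoc, ← mul_assoc, H.X.tot_obj.idem]
  have hρP : ρ * P = ρ := by
    rw [hρ, sub_mul, H.X.tot_obj.idem, mul_assoc, htP]
  have hρρ : ρ * ρ = ρ := by
    conv_lhs => rw [hρ]
    rw [sub_mul, hPρ, mul_assoc, htρ, mul_zero, sub_zero]
  refine ⟨ρ, ⟨A.sub_mem H.X.tot_obj.mem (A.mul_mem (A.mul_mem H.X.tot_obj.mem hb) htA), hρρ⟩,
    fun x => ?_⟩
  have hPt : P * t = P - up m p := by
    rw [ht, mul_add, mul_sub, H.X.tot_obj.idem, hut.2, ← mul_assoc, mul_sub, H.tot_pr]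
    have : P * up m r = 0 := by rw [← hut'.2, ← mul_assoc, H.tot_pr, zero_mul]
    rw [this, sub_zero, zero_mul, add_zero]
  have hRt : R * t = (R - up m r) * Φ := by
    rw [ht, mul_add, mul_sub, H.tot_rp, ← mul_assoc, mul_sub, H.Y.tot_obj.idem, hut'.2]
    have : R * up m p = 0 := by rw [← hut.2, ← mul_assoc, H.tot_rp, zero_mul]
    rw [this, sub_zero, zero_add]
  constructor
  · intro hx
    have h1 : t x = 0 := by rw [← hx, ← Module.End.mul_apply, htρ, LinearMap.zero_apply]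
    have h2 : P x = x := by rw [← hx, ← Module.End.mul_apply, hPρ]
    have h3 : (P - up m p) x = 0 := by rw [← hPt, Module.End.mul_apply, h1, map_zero]
    have h4 : ((R - up m r) * Φ) x = 0 := by rw [← hRt, Module.End.mul_apply, h1, map_zero]
    have h5 : R (Φ x) = Φ x := by rw [← Module.End.mul_apply, H.RΦ]
    constructor
    · rw [LinearMap.sub_apply, h2] at h3
      exact (sub_eq_zero.1 h3).symm
    · rw [Module.End.mul_apply, LinearMap.sub_apply, h5] at h4
      exact (sub_eq_zero.1 h4).symm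
  · rintro ⟨h1, h2⟩
    have h3 : P x = x := by rw [← h1, ← Module.End.mul_apply, hut.2]
    have h4 : t x = 0 := by
      have h5 : R (Φ x) = Φ x := by rw [← Module.End.mul_apply, H.RΦ]
      rw [ht, LinearMap.add_apply, LinearMap.sub_apply, h3, h1, Module.End.mul_apply,
        LinearMap.sub_apply, h5, h2, sub_self, sub_self, add_zero]
    rw [hρ, LinearMap.sub_apply, Module.End.mul_apply, h4, map_zero, sub_zero, h3]

/-- The Lagrangian. -/
lemma exists_w : ∃ w ∈ A, (p 0 + r 0) * w = w ∧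
    (∀ x y, q (((p 0 - r 0) * w) x) (w y) = 0) ∧ rk (p 0) + rk (r 0) ≤ 2 * rk w := by
  obtain ⟨ρ, hρ, hρ'⟩ := H.exists_rho
  have hut := H.X.up_tot
  have hut' := H.Y.up_tot
  set f := p 0 + r 0 * Φ with hf
  have hfA : f ∈ A := A.add_mem (H.X.mem 0) (A.mul_mem (H.Y.mem 0) H.Φ_mem)
  have hρρ : ∀ x, ρ (ρ x) = ρ x := fun x => by rw [← Module.End.mul_apply, hρ.idem]
  have hq0 : ∀ x y, q (p 0 x) (r 0 y) = 0 := fun x y => by
    rw [H.X.q_left, neg_zero, ← Module.End.mul_apply, H.pr, LinearMap.zero_apply, map_zero]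
  have hq0' : ∀ x y, q (r 0 x) (p 0 y) = 0 := fun x y => by
    rw [H.Y.q_left, neg_zero, ← Module.End.mul_apply, H.rp, LinearMap.zero_apply, map_zero]
  refine ⟨f * ρ, A.mul_mem hfA hρ.mem, ?_, ?_, ?_⟩
  · have hpf : (p 0 + r 0) * f = f := by
      simp only [hf, mul_add, add_mul, ← mul_assoc, H.X.idem, H.Y.idem, H.pr, H.rp]
      simp
    rw [← mul_assoc, hpf]
  · intro x y
    have e1 : ((p 0 - r 0) * (f * ρ)) x = p 0 (ρ x) - r 0 (Φ (ρ x)) := by
      have : (p 0 - r 0) * f = p 0 - r 0 * Φ := by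
        simp only [hf, mul_add, sub_mul, ← mul_assoc, H.X.idem, H.Y.idem, H.pr, H.rp]
        simp [sub_eq_add_neg]
      rw [← mul_assoc, this, Module.End.mul_apply, LinearMap.sub_apply, Module.End.mul_apply]
    have e2 : (f * ρ) y = p 0 (ρ y) + r 0 (Φ (ρ y)) := by
      rw [Module.End.mul_apply, hf, LinearMap.add_apply, Module.End.mul_apply]
    have hx := (hρ' (ρ x)).1 (hρρ x)
    have hy := (hρ' (ρ y)).1 (hρρ y)
    have b1 := H.X.B_up H.BX hx.1 hy.1
    have b2 := H.Y.B_up H.BY hx.2 hy.2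
    have b3 := H.isom (ρ x) (ρ y)
      (by rw [← hx.1, ← Module.End.mul_apply, hut.2])
      (by rw [← hy.1, ← Module.End.mul_apply, hut.2])
    rw [b1, b2] at b3
    have b4 := mul_left_cancel₀ (H.ε_ne 0) b3
    rw [e1, e2, map_add, map_sub, LinearMap.sub_apply, LinearMap.sub_apply, hq0, hq0', b4]
    ring
  · -- the dimension
    set KK := LinearMap.range ρ with hKK
    set D := LinearMap.range (tot m p) with hD
    set f' := f.domRestrict KK with hf'
    set K₀ := LinearMap.ker f' with hK₀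
    have hmemK : ∀ x, x ∈ KK ↔ ρ x = x := fun x =>
      ⟨by
        rintro ⟨y, rfl⟩
        exact hρρ y, fun hx => ⟨x, hx⟩⟩
    have d1 : rk (f * ρ) + finrank ℚ K₀ = rk ρ := by
      have : LinearMap.range (f * ρ) = LinearMap.range f' := by
        ext z
        constructor
        · rintro ⟨x, rfl⟩
          exact ⟨⟨ρ x, x, rfl⟩, rfl⟩
        · rintro ⟨⟨_, x, rfl⟩, rfl⟩
          exact ⟨x, rfl⟩
      rw [rk, this, LinearMap.finrank_range_add_finrank_ker]
      rfl
    -- the idempotent `Ψ F Φ`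
    set E := Ψ * up m r * Φ with hE
    have hEE : E * E = E := by
      calc Ψ * up m r * Φ * (Ψ * up m r * Φ) = Ψ * up m r * (Φ * Ψ) * up m r * Φ := by
            simp only [mul_assoc]
        _ = Ψ * up m r * Φ := by
            rw [H.ΦΨ, mul_assoc Ψ, hut'.1, mul_assoc Ψ, H.Y.up_obj.idem]
    have hEr : rk E = rk (up m r) := by
      have : ((rk E : ℕ) : ℚ) = (rk (up m r) : ℕ) := by
        rw [rk_eq_trace hEE, rk_eq_trace H.Y.up_obj.idem, hE, mul_assoc, LinearMap.trace_mul_comm,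
          mul_assoc, H.ΦΨ, hut'.1]
      exact_mod_cast this
    set U := LinearMap.range (up m p) ⊔ LinearMap.range E with hU
    have hPE : tot m p * E = E := by rw [hE, ← mul_assoc, ← mul_assoc, H.PΨ]
    have hUD : U ≤ D := by
      refine sup_le ?_ ?_
      · rintro _ ⟨x, rfl⟩
        exact ⟨up m p x, by rw [← Module.End.mul_apply, hut.2]⟩
      · rintro _ ⟨x, rfl⟩
        exact ⟨E x, by rw [← Module.End.mul_apply, hPE]⟩
    have hinf : LinearMap.range (up m p) ⊓ LinearMap.range E = KK := by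
      ext x
      rw [hmemK, hρ' x, Submodule.mem_inf]
      constructor
      · rintro ⟨⟨y, rfl⟩, ⟨z, hz⟩⟩
        refine ⟨by rw [← Module.End.mul_apply, H.X.up_obj.idem], ?_⟩
        have : Φ * (Ψ * up m r * Φ) = up m r * Φ := by
          rw [← mul_assoc, ← mul_assoc, H.ΦΨ, hut'.2]
        have h9 : Φ (E z) = up m r (Φ z) := LinearMap.congr_fun this z
        rw [← hz, h9, ← Module.End.mul_apply, H.Y.up_obj.idem]
      · rintro ⟨h1, h2⟩
        refine ⟨⟨x, h1⟩, ⟨x, ?_⟩⟩
        rw [hE, Module.End.mul_apply, Module.End.mul_apply, h2, ← Module.End.mul_apply, H.ΨΦ,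
          ← h1, ← Module.End.mul_apply, hut.2]
    have d2 : finrank ℚ U + rk ρ = rk (up m p) + rk (up m r) := by
      rw [← hEr, rk, ← hKK, ← hinf]
      exact Submodule.finrank_sup_add_finrank_inf_eq _ _
    have d3 : finrank ℚ K₀ + finrank ℚ U ≤ rk (tot m p) := by
      set U' := U.comap D.subtype with hU'
      have hU'e : finrank ℚ U' = finrank ℚ U :=
        (Submodule.comapSubtypeEquivOfLe hUD).finrank_eq
      let β : K₀ →ₗ[ℚ] Module.Dual ℚ D :=
        D.subtype.dualMap ∘ₗ B ∘ₗ KK.subtype ∘ₗ K₀.subtype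
      have hβ : ∀ (x : K₀) (y : D), β x y = B x.1.1 y.1 := fun _ _ => rfl
      have hK₀' : ∀ x : K₀, up m p x.1.1 = x.1.1 ∧ up m r (Φ x.1.1) = Φ x.1.1 ∧
          p 0 x.1.1 = 0 ∧ r 0 (Φ x.1.1) = 0 := by
        intro x
        have h1 := (hρ' x.1.1).1 ((hmemK _).1 x.1.2)
        have h2 : p 0 x.1.1 + r 0 (Φ x.1.1) = 0 := LinearMap.mem_ker.1 x.2
        refine ⟨h1.1, h1.2, ?_, ?_⟩
        · have := congrArg (p 0) h2
          rwa [map_add, map_zero, ← Module.End.mul_apply, H.X.idem, ← Module.End.mul_apply (p 0),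
            H.pr, LinearMap.zero_apply, add_zero] at this
        · have := congrArg (r 0) h2
          rwa [map_add, map_zero, ← Module.End.mul_apply, H.rp, ← Module.End.mul_apply (r 0),
            H.Y.idem, LinearMap.zero_apply, zero_add] at this
      have hβi : Function.Injective β := by
        rw [← LinearMap.ker_eq_bot, LinearMap.ker_eq_bot']
        intro x hx
        by_contra hx0
        obtain ⟨h1, h2, h3, h4⟩ := hK₀' x
        have h5 : x.1.1 ≠ 0 := fun h => hx0 (Subtype.ext (Subtype.ext h))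
        obtain ⟨y, hy, hy'⟩ := H.X.B_nd H.BX H.ε_ne (x := x.1.1)
          (by rw [← h1, ← Module.End.mul_apply, hut.2]) h5
        apply hy'
        have := LinearMap.congr_fun hx ⟨y, y, hy⟩
        rwa [hβ] at this
      have hβr : LinearMap.range β ≤ U'.dualAnnihilator := by
        rintro _ ⟨x, rfl⟩
        rw [Submodule.mem_dualAnnihilator]
        intro y hy
        rw [hβ]
        obtain ⟨h1, h2, h3, h4⟩ := hK₀' x
        obtain ⟨y₁, ⟨z₁, rfl⟩, y₂, ⟨z₂, rfl⟩, hyy⟩ := Submodule.mem_sup.1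
          (show (y : V) ∈ U from hy)
        rw [← hyy, map_add]
        have e1 : B x.1.1 (up m p z₁) = 0 := by
          rw [H.X.B_up H.BX h1 (by rw [← Module.End.mul_apply, H.X.up_obj.idem]), h3, map_zero,
            LinearMap.zero_apply, mul_zero]
        have e2 : B x.1.1 (E z₂) = 0 := by
          rw [← H.isom x.1.1 (E z₂) (by rw [← h1, ← Module.End.mul_apply, hut.2])
            (by rw [← Module.End.mul_apply, hPE])]
          have h6 : Φ (E z₂) = up m r (Φ z₂) := by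
            have : Φ * (Ψ * up m r * Φ) = up m r * Φ := by
              rw [← mul_assoc, ← mul_assoc, H.ΦΨ, hut'.2]
            exact LinearMap.congr_fun this z₂
          rw [h6, H.Y.B_up H.BY h2 (by rw [← Module.End.mul_apply, H.Y.up_obj.idem]), h4,
            map_zero, LinearMap.zero_apply, mul_zero]
        rw [e1, e2, add_zero]
      have h7 := Subspace.finrank_add_finrank_dualAnnihilator_eq U'
      have h8 : finrank ℚ K₀ ≤ finrank ℚ U'.dualAnnihilator := by
        rw [← LinearMap.finrank_range_of_inj hβi]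
        exact Submodule.finrank_mono hβr
      rw [hU'e] at h7
      change finrank ℚ K₀ + finrank ℚ U ≤ finrank ℚ D
      omega
    have d4 := H.X.rk_tot H.reg
    have d5 := H.Y.rk_tot H.reg
    have d6 : rk (tot m p) = rk (tot m r) := by
      refine rk_congr H.X.tot_obj H.Y.tot_obj ⟨Ψ, H.Ψ_mem, Φ, H.Φ_mem, H.ΨΦ, H.ΦΨ, H.PΨ, H.ΨR,
        H.RΦ, H.ΦP⟩
    omega

end Pair

end Pool.Agent.Y121.OV
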