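import Pool.Agent.Y121.OV.Fin

/-!
# Derived equivalent varieties and the signature of the Mukai form
-/

open CategoryTheory AlgebraicGeometry Module

universe u v

namespace Pool.Agent.Y121.OV

open Pool.Agent.H914 Pool.Agent.H914.VarClass Pool.Agent.H914.VarClass.Obj Pool.Agent.W492.BB
  Pool.Agent.W550.Corr Pool.Agent.TH133 Pool.Agent.Y121.NK Pool.Agent.TH829.Kim

set_option linter.unusedSectionVars false

variable {k : Type u} [Field k] {𝒱 : VarClass k} {C : TheoryData.{u, v, 0} 𝒱 ℚ}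
  [hC : IsChowProj C] (H : WeilTheoryData.{u, v, 0} C ℚ) [hH : IsWeilProj H] {X Y Z W : 𝒱.Obj}

include hC hH

variable {κX : C.A X} {κY : C.A Y} {v : ℕ → C.A (X.prod Y)} {w : C.A (Y.prod X)}
  {h : ∀ X, H.A X → H.A X → ℝ} {ηX : C.A X} {ηY : C.A Y}
  [FiniteDimensional ℚ (H.A X)] [FiniteDimensional ℚ (H.A Y)]

/-- The graded pieces of given parity are isomorphic if those in the low degrees are. -/
theorem eqv_par (hFM : IsFM C κX κY v w) (hcomm : IsGradedComm H) (hW : IsWeilForm H h)
    (hX : IsAmple H h X ηX) (hY : IsAmple H h Y ηY) (hD : NumEqHom H (X.prod X)) (j : ℤ)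
    (hlow : ∀ i : ℕ, 1 ≤ i → i + 3 ≤ X.dim → (i : ℤ) % 2 = (X.dim + j) % 2 → IsoDeg H X Y i) :
    Eqv (algB H X Y) (PX H X Y j) (PY H X Y j) := by
  have hA := reg_algB H hFM hcomm hD
  have GX := grdX (Y := Y) (ηY := ηY) H hX
  have GY := grdY (X := X) (ηX := ηX) H hY
  have hdim := hFM.dim_eq
  have h3 : ∀ i : ℕ, 3 ≤ i → (i : ℤ) % 2 = j % 2 →
      Eqv (algB H X Y) (PX H X Y (-(i : ℤ))) (PY H X Y (-(i : ℤ))) := by
    intro i hi hij
    by_cases hn : X.dim < i
    · rw [PX_out H _ (by rw [abs_neg, Nat.abs_cast]; exact_mod_cast hn),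
        PY_out H _ (by rw [abs_neg, Nat.abs_cast, ← hdim]; exact_mod_cast hn)]
      exact Eqv.refl IsObj.zero
    · refine eqv_of_isoDeg H (i := X.dim - i) (by omega) hdim (GX.mem hA _) (GY.mem hA _) ?_
      by_cases h0 : X.dim - i = 0
      · rw [h0]
        exact isoDeg_zero H
      · exact hlow _ (by omega) (by omega) (by omega)
  have hP := pair H hFM hW hX hY hA
  have hneg : ∀ i : ℕ, (i : ℤ) % 2 = j % 2 →
      Eqv (algB H X Y) (PX H X Y (-(i : ℤ))) (PY H X Y (-(i : ℤ))) := by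
    by_cases hj : j % 2 = 0
    · have heven : ∀ i : ℕ, Eqv (algB H X Y) (PX H X Y (2 * (-(i : ℤ))))
          (PY H X Y (2 * (-(i : ℤ)))) := by
        intro i
        refine hP.all_eqv (fun i hi => ?_) i
        have := h3 (2 * i) (by omega) (by push_cast; omega)
        have e : -((2 * i : ℕ) : ℤ) = 2 * (-(i : ℤ)) := by push_cast; ring
        rw [e] at this
        exact this
      intro i hi
      have := heven (i / 2)
      rwa [show 2 * (-((i / 2 : ℕ) : ℤ)) = -(i : ℤ) by push_cast; omega] at this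
    · have hodd : ∀ i : ℕ, Eqv (algB H X Y) (PX H X Y (2 * (-((i + 1 : ℕ) : ℤ)) + 1))
          (PY H X Y (2 * (-((i + 1 : ℕ) : ℤ)) + 1)) := by
        intro i
        refine Odd'.eqv hA (GX.odd hA) (GY.odd hA) X.dim ?_ (fun i hi => ?_) i
        · rw [oth_X, oth_Y]
          refine par_eqv H hFM (cov_odd X.dim) ?_ ?_
          · rw [← oth_X]
            exact (algB H X Y).sum_mem fun j _ => GX.mem hA _
          · rw [← oth_Y]
            exact (algB H X Y).sum_mem fun j _ => GY.mem hA _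
        · have := h3 (2 * i + 1) (by omega) (by push_cast; omega)
          have e : -((2 * i + 1 : ℕ) : ℤ) = 2 * (-((i + 1 : ℕ) : ℤ)) + 1 := by push_cast; ring
          rw [e] at this
          exact this
      intro i hi
      have := hodd (i / 2)
      rwa [show 2 * (-((i / 2 + 1 : ℕ) : ℤ)) + 1 = -(i : ℤ) by push_cast; omega] at this
  rcases le_or_gt j 0 with hj | hj
  · obtain ⟨i, hi⟩ := Int.eq_ofNat_of_zero_le (a := -j) (by omega)
    have := hneg i (by omega)
    rwa [show -(i : ℤ) = j by omega] at this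
  · obtain ⟨i, hi⟩ := Int.eq_ofNat_of_zero_le (a := j) (by omega)
    rw [hi]
    exact ((GX.eqv_neg hA i).symm.trans (hneg i (by omega))).trans (GY.eqv_neg hA i)

/-- All graded pieces are isomorphic if those in the low degrees are. -/
theorem eqv_all (hFM : IsFM C κX κY v w) (hcomm : IsGradedComm H) (hW : IsWeilForm H h)
    (hX : IsAmple H h X ηX) (hY : IsAmple H h Y ηY) (hD : NumEqHom H (X.prod X))
    (hlow : ∀ i : ℕ, 1 ≤ i → i + 3 ≤ X.dim → IsoDeg H X Y i) (j : ℤ) :
    Eqv (algB H X Y) (PX H X Y j) (PY H X Y j) :=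
  eqv_par H hFM hcomm hW hX hY hD j fun i h1 h2 _ => hlow i h1 h2

/-- The motives `h^i` are isomorphic if those of the same parity in the low degrees are. -/
theorem isoDeg_par (hFM : IsFM C κX κY v w) (hcomm : IsGradedComm H) (hW : IsWeilForm H h)
    (hX : IsAmple H h X ηX) (hY : IsAmple H h Y ηY) (hD : NumEqHom H (X.prod X)) (i : ℕ)
    (hlow : ∀ j : ℕ, 1 ≤ j → j + 3 ≤ X.dim → j % 2 = i % 2 → IsoDeg H X Y j) :
    IsoDeg H X Y i := by
  obtain ⟨a, b, ha, hb, hab, hba⟩ := exists_cor H rfl hFM.dim_eq {(i : ℤ) - X.dim}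
    fun j hj => by
      rw [Finset.mem_singleton] at hj
      exact eqv_par H hFM hcomm hW hX hY hD j fun l h1 h2 h3 => hlow l h1 h2 (by omega)
  have e : (X.dim : ℤ) + ((i : ℤ) - X.dim) = i := by ring
  refine ⟨a, b, ha, hb, fun x hx => ?_, fun y hy => ?_⟩
  · exact hab _ (Finset.mem_singleton_self _) x (by rw [e]; exact hx)
  · exact hba _ (Finset.mem_singleton_self _) y (by rw [e]; exact hy)

/-- Orlov's conjecture modulo homological equivalence. -/
theorem hom_iso (hFM : IsFM C κX κY v w) (hcomm : IsGradedComm H) (hW : IsWeilForm H h)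
    (hX : IsAmple H h X ηX) (hY : IsAmple H h Y ηY) (hD : NumEqHom H (X.prod X))
    (hlow : ∀ i : ℕ, 1 ≤ i → i + 3 ≤ X.dim → IsoDeg H X Y i) :
    ∃ (a : C.A (X.prod Y)) (b : C.A (Y.prod X)), C.Deg X.dim a ∧ C.Deg Y.dim b ∧
      H.cl (C.comp a b) = H.cl (dg C X) ∧ H.cl (C.comp b a) = H.cl (dg C Y) := by
  obtain ⟨a, b, ha, hb, hab, hba⟩ := exists_cor H rfl hFM.dim_eq
    (Finset.Icc (-(X.dim : ℤ)) X.dim) fun j _ => eqv_all H hFM hcomm hW hX hY hD hlow j
  refine ⟨a, b, ha, hb, ?_, ?_⟩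
  · rw [← sub_eq_zero, ← map_sub]
    apply hom_zero_of_act H
    intro x
    have h1 : H.actL (H.cl b) ∘ₗ H.actL (H.cl a) = LinearMap.id := by
      apply ext_gr H
      intro m x hx
      rw [LinearMap.comp_apply, LinearMap.id_apply, H.actL_apply, H.actL_apply]
      by_cases hm : m < 0 ∨ 2 * X.dim < m
      · rw [gr_out H hm hx]
        rw [← H.actL_apply, ← H.actL_apply, map_zero, map_zero]
      · exact hab (m - X.dim) (by rw [Finset.mem_Icc]; omega) x (by
          rwa [show (X.dim : ℤ) + (m - X.dim) = m by ring])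
    have h2 : H.act (H.cl b) (H.act (H.cl a) x) = x := LinearMap.congr_fun h1 x
    rw [map_sub, H.act_sub, actH_comp, actH_dg, h2, sub_self]
  · rw [← sub_eq_zero, ← map_sub]
    apply hom_zero_of_act H
    intro x
    have h1 : H.actL (H.cl a) ∘ₗ H.actL (H.cl b) = LinearMap.id := by
      apply ext_gr H
      intro m x hx
      rw [LinearMap.comp_apply, LinearMap.id_apply, H.actL_apply, H.actL_apply]
      by_cases hm : m < 0 ∨ 2 * Y.dim < m
      · rw [gr_out H hm hx]
        rw [← H.actL_apply, ← H.actL_apply, map_zero, map_zero]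
      · have hdim := hFM.dim_eq
        exact hba (m - X.dim) (by rw [Finset.mem_Icc]; omega) x (by
          rwa [show (X.dim : ℤ) + (m - X.dim) = m by ring])
    have h2 : H.act (H.cl a) (H.act (H.cl b) x) = x := LinearMap.congr_fun h1 x
    rw [map_sub, H.act_sub, actH_comp, actH_dg, h2, sub_self]

omit hC hH in
/-- The direct sum of the groups `H^(n - 2 - 4 i)(X)`. -/
def everyFourth (X : 𝒱.Obj) : Submodule ℚ (H.A X) := ⨆ i : ℕ, H.gr X ((X.dim : ℤ) - 2 - 4 * i)

/-- The sums of every fourth cohomology group below the middle. -/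
theorem fourth_iso (hFM : IsFM C κX κY v w) (hcomm : IsGradedComm H) (hW : IsWeilForm H h)
    (hX : IsAmple H h X ηX) (hY : IsAmple H h Y ηY) (hD : NumEqHom H (X.prod X)) :
    ∃ (a : C.A (X.prod Y)) (b : C.A (Y.prod X)),
      (∀ x ∈ everyFourth H X, H.act (H.cl a) x ∈ everyFourth H Y ∧
        H.act (H.cl b) (H.act (H.cl a) x) = x) ∧
      ∀ y ∈ everyFourth H Y, H.act (H.cl b) y ∈ everyFourth H X ∧
        H.act (H.cl a) (H.act (H.cl b) y) = y := by
  have hA := reg_algB H hFM hcomm hD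
  have hP := pair H hFM hW hX hY hA
  have hdim := hFM.dim_eq
  obtain ⟨u, hu, v', hv', h1, h2, h3, h4, h5, h6⟩ := hP.odd_eqv
  set I := (Finset.range X.dim).filter Even with hI
  set E : End ℚ (H.A X × H.A Y) := ∑ j ∈ I, PX H X Y (2 * (-((j + 1 : ℕ) : ℤ))) with hE
  set E' : End ℚ (H.A X × H.A Y) := ∑ j ∈ I, PY H X Y (2 * (-((j + 1 : ℕ) : ℤ))) with hE'
  obtain ⟨Γ, hΓ⟩ := hv'.2.1
  obtain ⟨Δ, hΔ⟩ := hu.2.2.1
  have e1 : ∀ x ∈ everyFourth H X, E (x, 0) = (x, 0) := by
    intro x hx
    induction hx using Submodule.iSup_induction' with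
    | mem i x hx =>
      rw [hE, LinearMap.sum_apply]
      by_cases hi : 2 * i < X.dim
      · rw [Finset.sum_eq_single_of_mem (2 * i) (by
          rw [hI, Finset.mem_filter, Finset.mem_range]
          exact ⟨hi, even_two_mul i⟩)]
        · rw [PX_apply, show (X.dim : ℤ) + 2 * (-((2 * i + 1 : ℕ) : ℤ)) =
            (X.dim : ℤ) - 2 - 4 * i by push_cast; ring, cmpH_self H hx]
        · intro j _ hj
          rw [PX_apply, cmpH_ne H hx (by push_cast; omega)]
          rfl
      · have h0 : x = 0 := gr_out H (by omega) hx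
        rw [h0]
        exact Finset.sum_eq_zero fun j _ => map_zero _
    | zero => exact map_zero _
    | add x y _ _ hx hy =>
      have : ((x + y, 0) : H.A X × H.A Y) = (x, 0) + (y, 0) := by simp
      rw [this, map_add, hx, hy]
  have e1' : ∀ y ∈ everyFourth H Y, E' (0, y) = (0, y) := by
    intro y hy
    induction hy using Submodule.iSup_induction' with
    | mem i x hx =>
      rw [hE', LinearMap.sum_apply]
      by_cases hi : 2 * i < X.dim
      · rw [Finset.sum_eq_single_of_mem (2 * i) (by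
          rw [hI, Finset.mem_filter, Finset.mem_range]
          exact ⟨hi, even_two_mul i⟩)]
        · rw [PY_apply, show (Y.dim : ℤ) + 2 * (-((2 * i + 1 : ℕ) : ℤ)) =
            (Y.dim : ℤ) - 2 - 4 * i by push_cast; ring, cmpH_self H hx]
        · intro j _ hj
          rw [PY_apply, cmpH_ne H hx (by push_cast; omega)]
          rfl
      · have h0 : x = 0 := gr_out H (by omega) hx
        rw [h0]
        exact Finset.sum_eq_zero fun j _ => map_zero _
    | zero => exact map_zero _
    | add x y _ _ hx hy =>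
      have : ((0, x + y) : H.A X × H.A Y) = (0, x) + (0, y) := by simp
      rw [this, map_add, hx, hy]
  have e2 : ∀ z, (E z).1 ∈ everyFourth H X ∧ (E z).2 = 0 := by
    intro z
    rw [hE, LinearMap.sum_apply, Prod.fst_sum, Prod.snd_sum]
    constructor
    · refine Submodule.sum_mem _ fun j hj => ?_
      rw [hI, Finset.mem_filter] at hj
      obtain ⟨l, hl⟩ := hj.2
      refine Submodule.mem_iSup_of_mem l ?_
      rw [PX_apply]
      have := cmpH_mem H ((X.dim : ℤ) + 2 * (-((j + 1 : ℕ) : ℤ))) z.1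
      rwa [show (X.dim : ℤ) + 2 * (-((j + 1 : ℕ) : ℤ)) = (X.dim : ℤ) - 2 - 4 * l by
        push_cast; omega] at this ⊢
    · exact Finset.sum_eq_zero fun j _ => rfl
  have e2' : ∀ z, (E' z).2 ∈ everyFourth H Y ∧ (E' z).1 = 0 := by
    intro z
    rw [hE', LinearMap.sum_apply, Prod.fst_sum, Prod.snd_sum]
    constructor
    · refine Submodule.sum_mem _ fun j hj => ?_
      rw [hI, Finset.mem_filter] at hj
      obtain ⟨l, hl⟩ := hj.2
      refine Submodule.mem_iSup_of_mem l ?_
      rw [PY_apply]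
      have := cmpH_mem H ((Y.dim : ℤ) + 2 * (-((j + 1 : ℕ) : ℤ))) z.2
      rwa [show (Y.dim : ℤ) + 2 * (-((j + 1 : ℕ) : ℤ)) = (Y.dim : ℤ) - 2 - 4 * l by
        push_cast; omega] at this ⊢
    · exact Finset.sum_eq_zero fun j _ => rfl
  have f1 : ∀ x, v' (x, 0) = (0, H.act (H.cl Γ) x) ∧ H.act (H.cl Γ) x ∈ everyFourth H Y := by
    intro x
    have g1 : H.act (H.cl Γ) x = (v' (x, 0)).2 := LinearMap.congr_fun hΓ x
    have g2 : v' (x, 0) = E' (v' (x, 0)) := by
      rw [← Module.End.mul_apply]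
      exact (LinearMap.congr_fun h5 _).symm
    constructor
    · rw [g1]
      refine Prod.ext ?_ rfl
      rw [g2]
      exact (e2' _).2
    · rw [g1, g2]
      exact (e2' _).1
  have f2 : ∀ y, u (0, y) = (H.act (H.cl Δ) y, 0) ∧ H.act (H.cl Δ) y ∈ everyFourth H X := by
    intro y
    have g1 : H.act (H.cl Δ) y = (u (0, y)).1 := LinearMap.congr_fun hΔ y
    have g2 : u (0, y) = E (u (0, y)) := by
      rw [← Module.End.mul_apply]
      exact (LinearMap.congr_fun h3 _).symm
    constructor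
    · rw [g1]
      refine Prod.ext rfl ?_
      rw [g2]
      exact (e2 _).2
    · rw [g1, g2]
      exact (e2 _).1
  refine ⟨Γ, Δ, fun x hx => ⟨(f1 x).2, ?_⟩, fun y hy => ⟨(f2 y).2, ?_⟩⟩
  · have g1 : u (v' (x, 0)) = (x, 0) := by
      rw [← Module.End.mul_apply]
      exact (LinearMap.congr_fun h1 _).trans (e1 x hx)
    rw [(f1 x).1, (f2 _).1] at g1
    exact congrArg Prod.fst g1
  · have g1 : v' (u (0, y)) = (0, y) := by
      rw [← Module.End.mul_apply]
      exact (LinearMap.congr_fun h2 _).trans (e1' y hy)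
    rw [(f2 y).1, (f1 _).1] at g1
    exact congrArg Prod.snd g1

end Pool.Agent.Y121.OV
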