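import Pool.Agent.Y121.OV.Frm
import Pool.Agent.Y121.OV.Lag

/-!
# The Mukai forms are preserved by Fourier-Mukai equivalences
-/

open CategoryTheory AlgebraicGeometry Module

universe u v

namespace Pool.Agent.Y121.OV

open Pool.Agent.H914 Pool.Agent.H914.VarClass Pool.Agent.H914.VarClass.Obj Pool.Agent.W492.BB
  Pool.Agent.W550.Corr Pool.Agent.TH133 Pool.Agent.Y121.NK Pool.Agent.TH829.Kim

set_option linter.unusedSectionVars false

/-- The sign of the Mukai form in degree `k`. -/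
def sg (k : ℤ) : ℚ := (-1 : ℚ) ^ (k / 2)

lemma sg_ne (k : ℤ) : sg k ≠ 0 := zpow_ne_zero _ (by norm_num)

lemma sg_add (k d : ℤ) : sg (k + 2 * d) = sg k * (-1) ^ d := by
  rw [sg, sg, ← zpow_add₀ (by norm_num : (-1 : ℚ) ≠ 0)]
  congr 1
  omega

variable {k : Type u} [Field k] {𝒱 : VarClass k} {C : TheoryData.{u, v, 0} 𝒱 ℚ}
  [hC : IsChowProj C] (H : WeilTheoryData.{u, v, 0} C ℚ) [hH : IsWeilProj H] {X Y Z W : 𝒱.Obj}

include hC hH

/-- The operator which multiplies with the signs. -/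
noncomputable def tw (X : 𝒱.Obj) : H.A X →ₗ[ℚ] H.A X :=
  ∑ i ∈ Finset.Icc (-(X.dim : ℤ)) X.dim, sg (X.dim + i) • cmpH H X (X.dim + i)

lemma tw_apply {m : ℤ} {a : H.A X} (ha : a ∈ H.gr X m) : tw H X a = sg m • a := by
  rw [tw, LinearMap.sum_apply]
  by_cases hm : m < 0 ∨ 2 * X.dim < m
  · rw [gr_out H hm ha, smul_zero]
    exact Finset.sum_eq_zero fun i _ => map_zero _
  · rw [Finset.sum_eq_single_of_mem (m - X.dim) (by rw [Finset.mem_Icc]; omega)]
    · rw [show (X.dim : ℤ) + (m - X.dim) = m by ring, LinearMap.smul_apply, cmpH_self H ha]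
    · intro i _ hi
      rw [LinearMap.smul_apply, cmpH_ne H ha (by omega), smul_zero]

/-- The Mukai form on `H(X)`. -/
noncomputable def mB (κ : C.A X) : H.A X →ₗ[ℚ] H.A X →ₗ[ℚ] ℚ :=
  trB H X ∘ₗ LinearMap.mulLeft ℚ (H.cl (expo C κ)) ∘ₗ tw H X

lemma mB_apply (κ : C.A X) (a b : H.A X) :
    mB H κ a b = H.tr X (H.cl (expo C κ) * tw H X a * b) := rfl

/-- The Mukai form on `H(X) ⊕ H(Y)`. -/
noncomputable def Bf (κX : C.A X) (κY : C.A Y) :
    (H.A X × H.A Y) →ₗ[ℚ] (H.A X × H.A Y) →ₗ[ℚ] ℚ :=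
  (mB H κX).compl₁₂ (LinearMap.fst ℚ _ _) (LinearMap.fst ℚ _ _) +
    (mB H κY).compl₁₂ (LinearMap.snd ℚ _ _) (LinearMap.snd ℚ _ _)

lemma Bf_apply (κX : C.A X) (κY : C.A Y) (z w : H.A X × H.A Y) :
    Bf H κX κY z w = mB H κX z.1 w.1 + mB H κY z.2 w.2 := rfl

omit hH in
lemma pow_mem_gr {κ : C.A X} (hκ : C.Deg 1 κ) (j : ℕ) : κ ^ j ∈ C.gr X j := by
  induction j with
  | zero =>
    rw [pow_zero]
    exact C.one_mem X
  | succ j ih =>
    rw [pow_succ]
    have := C.mul_mem ih hκ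
    push_cast
    exact this

lemma tr_expo {κ : C.A X} (hκ : C.Deg 1 κ) {m : ℤ} (hm : 2 * X.dim ≤ m) {c : H.A X}
    (hc : c ∈ H.gr X m) : H.tr X (H.cl (expo C κ) * c) = H.tr X c := by
  rw [expo, map_sum, Finset.sum_mul, map_sum,
    Finset.sum_eq_single_of_mem 0 (Finset.mem_range.2 (Nat.succ_pos _))]
  · rw [pow_zero, Nat.factorial_zero, Nat.cast_one, inv_one, one_smul, map_one, one_mul]
  · intro j _ hj
    rw [cl_smul, smul_mul_assoc, map_smul]
    have h1 := H.mul_mem (H.cl_mem (pow_mem_gr hκ j)) hc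
    have h2 := tr_zero H h1 (by omega)
    rw [h2, smul_zero]

lemma mB_gr {κ : C.A X} (hκ : C.Deg 1 κ) {i j : ℤ} (hij : 2 * X.dim ≤ i + j) {a b : H.A X}
    (ha : a ∈ H.gr X i) (hb : b ∈ H.gr X j) : mB H κ a b = sg i * H.tr X (a * b) := by
  rw [mB_apply, tw_apply H ha, mul_smul_comm, smul_mul_assoc, map_smul, smul_eq_mul, mul_assoc,
    tr_expo H hκ hij (H.mul_mem ha hb)]

lemma bilX {κX : C.A X} {κY : C.A Y} (hκ : C.Deg 1 κX) :
    Bil (qf H X Y) (Bf H κX κY) (fun j => PX H X Y (2 * j)) (fun j => sg (X.dim + 2 * j)) where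
  pos i j x y hij := by
    change Bf H κX κY (PX H X Y (2 * i) x) (PX H X Y (2 * j) y) = 0
    rw [PX_apply, PX_apply, Bf_apply]
    simp only [map_zero, add_zero]
    rw [mB_gr H hκ (by omega) (cmpH_mem H _ x.1) (cmpH_mem H _ y.1),
      tr_zero H (H.mul_mem (cmpH_mem H _ x.1) (cmpH_mem H _ y.1)) (by omega), mul_zero]
  zero j x y := by
    change Bf H κX κY (PX H X Y (2 * j) x) (PX H X Y (2 * -j) y) =
      sg (X.dim + 2 * j) * qf H X Y (PX H X Y (2 * j) x) (PX H X Y (2 * -j) y)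
    rw [PX_apply, PX_apply, Bf_apply, qf_apply]
    simp only [map_zero, add_zero, mul_zero]
    rw [mB_gr H hκ (by omega) (cmpH_mem H _ x.1) (cmpH_mem H _ y.1)]

lemma bilY {κX : C.A X} {κY : C.A Y} (hκ : C.Deg 1 κY) :
    Bil (qf H X Y) (Bf H κX κY) (fun j => PY H X Y (2 * j)) (fun j => sg (Y.dim + 2 * j)) where
  pos i j x y hij := by
    change Bf H κX κY (PY H X Y (2 * i) x) (PY H X Y (2 * j) y) = 0
    rw [PY_apply, PY_apply, Bf_apply]
    simp only [map_zero, zero_add]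
    rw [mB_gr H hκ (by omega) (cmpH_mem H _ x.2) (cmpH_mem H _ y.2),
      tr_zero H (H.mul_mem (cmpH_mem H _ x.2) (cmpH_mem H _ y.2)) (by omega), mul_zero]
  zero j x y := by
    change Bf H κX κY (PY H X Y (2 * j) x) (PY H X Y (2 * -j) y) =
      sg (Y.dim + 2 * j) * qf H X Y (PY H X Y (2 * j) x) (PY H X Y (2 * -j) y)
    rw [PY_apply, PY_apply, Bf_apply, qf_apply]
    simp only [map_zero, zero_add, mul_zero]
    rw [mB_gr H hκ (by omega) (cmpH_mem H _ x.2) (cmpH_mem H _ y.2)]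

variable {κX : C.A X} {κY : C.A Y} {v : ℕ → C.A (X.prod Y)} {w : C.A (Y.prod X)}

/-- The dual Mukai vector. -/
noncomputable abbrev vd (v : ℕ → C.A (X.prod Y)) : C.A (X.prod Y) :=
  ∑ i ∈ Finset.range (2 * X.dim + 1), ((-1 : ℚ) ^ (X.dim + i)) • v i

lemma act_sum' {ι : Type*} (s : Finset ι) (Γ : ι → C.A (X.prod Y)) (a : H.A X) :
    H.act (H.cl (∑ i ∈ s, Γ i)) a = ∑ i ∈ s, H.act (H.cl (Γ i)) a := by
  rw [map_sum, Pool.Agent.W550.Corr.act_sum]

lemma act_smul' (q : ℚ) (Γ : C.A (X.prod Y)) (a : H.A X) :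
    H.act (H.cl (q • Γ)) a = q • H.act (H.cl Γ) a := by
  rw [cl_smul, H.act_apply, H.act_apply, smul_mul_assoc, map_smul]

lemma act_mem_gr {Γ : C.A (X.prod Y)} {j : ℤ} (hΓ : Γ ∈ C.gr (X.prod Y) j) {i : ℤ} {a : H.A X}
    (ha : a ∈ H.gr X i) : H.act (H.cl Γ) a ∈ H.gr Y (i + 2 * (j - X.dim)) := by
  rw [H.act_apply]
  have h2 := H.push_mem (snd X Y) (H.mul_mem (H.cl_mem hΓ) (H.pull_mem (fst X Y) ha))
  have e1 : 2 * j + i + 2 * ((Y.dim : ℤ) - ((X.prod Y).dim : ℤ)) = i + 2 * (j - X.dim) := by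
    rw [dim_prod]; push_cast; ring
  rwa [e1] at h2

/-- The action of a product with a class from the target. -/
lemma act_up_mul (Γ : C.A (X.prod Y)) (e : C.A Y) (a : H.A X) :
    H.act (H.cl (C.pull (snd X Y) e * Γ)) a = H.cl e * H.act (H.cl Γ) a := by
  rw [H.act_apply, H.act_apply, map_mul H.cl, H.cl_pull, mul_assoc, H.proj_left]

variable (hFM : IsFM C κX κY v w)

include hFM

/-- The adjointness of the operators of the Mukai vectors. -/
lemma mB_adj (x : H.A X) (y : H.A Y) :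
    mB H κY (H.act (H.cl (vt v)) x) y = mB H κX x (H.act (H.cl w) y) := by
  have key : (mB H κY).flip y ∘ₗ H.actL (H.cl (vt v)) =
      (mB H κX).flip (H.act (H.cl w) y) := by
    apply ext_gr H
    intro m a ha
    rw [LinearMap.comp_apply, LinearMap.flip_apply, LinearMap.flip_apply, H.actL_apply, mB_apply,
      mB_apply, tw_apply H ha]
    have h1 : tw H Y (H.act (H.cl (vt v)) a) = sg m • H.act (H.cl (vd v)) a := by
      rw [vt, act_sum', vd, act_sum', map_sum, Finset.smul_sum]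
      refine Finset.sum_congr rfl fun i _ => ?_
      rw [act_smul', tw_apply H (act_mem_gr H (hFM.deg i) ha), sg_add, smul_smul]
      congr 2
      rw [← zpow_natCast, ← sub_eq_zero]
      have : ((-1 : ℚ)) ^ ((i : ℤ) - X.dim) = (-1) ^ ((X.dim + i : ℕ) : ℤ) := by
        apply neg_one_zpow_mod
        push_cast
        rw [Int.even_iff]
        omega
      rw [this, sub_self]
    have h2 : H.cl (expo C κX) * H.act (H.cl w) y =
        H.act (H.cl (tp C (C.pull (snd X Y) (expo C κY) * vd v))) y := by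
      have h3 := hFM.dual
      change C.pull (snd Y X) (expo C κX) * w = tp C (C.pull (snd X Y) (expo C κY) * vd v) at h3
      rw [← h3, act_up_mul]
    rw [h1, mul_smul_comm, smul_mul_assoc, map_smul, mul_smul_comm, smul_mul_assoc, map_smul]
    congr 1
    have h4 : H.cl (expo C κX) * a * H.act (H.cl w) y =
        a * (H.cl (expo C κX) * H.act (H.cl w) y) := by
      rw [H.cl_central, mul_assoc]
    rw [h4, h2, tr_act, act_up_mul]
  exact LinearMap.congr_fun key x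

/-- The operator of the Mukai vector is an isometry. -/
lemma mB_isom (x x' : H.A X) :
    mB H κY (H.act (H.cl (vt v)) x) (H.act (H.cl (vt v)) x') = mB H κX x x' := by
  rw [mB_adj H hFM, act_left H hFM]

end Pool.Agent.Y121.OV
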