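import Pool.Agent.Y121.OV.Main

/-!
# Lifting isomorphisms to rational equivalence
-/

open CategoryTheory AlgebraicGeometry Module

universe u v

namespace Pool.Agent.Y121.OV

open Pool.Agent.H914 Pool.Agent.H914.VarClass Pool.Agent.H914.VarClass.Obj Pool.Agent.W492.BB
  Pool.Agent.W550.Corr Pool.Agent.TH133 Pool.Agent.Y121.NK Pool.Agent.TH829.Kim

set_option linter.unusedSectionVars false

variable {k : Type u} [Field k] {𝒱 : VarClass k} {C : TheoryData.{u, v, 0} 𝒱 ℚ}
  [hC : IsChowProj C] (H : WeilTheoryData.{u, v, 0} C ℚ) [hH : IsWeilProj H] {X Y Z W : 𝒱.Obj}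

include hC

lemma compPow_cA (x : Cor C X) (n : ℕ) : compPow C (cA C X x) n = cA C X (x ^ n) := by
  induction n with
  | zero => rfl
  | succ n ih =>
    rw [pow_succ', cA_mul, ← ih]
    rfl

include hH

lemma HomNil.isNilpotent (hN : HomNil H X) {x : Cor C X} (hx : H.cl (cA C X x) = 0) :
    IsNilpotent x := by
  obtain ⟨N, h⟩ := hN (cA C X x) hx
  rw [compPow_cA] at h
  exact ⟨N, h⟩

variable {κX : C.A X} {κY : C.A Y} {v : ℕ → C.A (X.prod Y)} {w : C.A (Y.prod X)}

/-- Nilpotence passes to Fourier-Mukai partners. -/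
theorem HomNil.transfer (hFM : IsFM C κX κY v w) (hN : HomNil H X) : HomNil H Y := by
  intro z hz
  set z' : C.A (X.prod X) := C.comp (C.comp (vt v) z) w with hz'
  have hl : C.comp (vt v) w = dg C X := hFM.left
  have hr : C.comp w (vt v) = dg C Y := hFM.right
  have key : ∀ n, compPow C z n = C.comp (C.comp w (compPow C z' n)) (vt v) := by
    intro n
    induction n with
    | zero =>
      change dg C Y = C.comp (C.comp w (dg C X)) (vt v)
      rw [comp_dg C w, hr]
    | succ n ih =>
      change C.comp (compPow C z n) z = C.comp (C.comp w (C.comp (compPow C z' n) z')) (vt v)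
      have h1 : C.comp z' (vt v) = C.comp (vt v) z := by
        rw [hz', comp_assoc C (C.comp (vt v) z) w (vt v), hr, comp_dg C]
      rw [comp_assoc C w (C.comp (compPow C z' n) z') (vt v),
        comp_assoc C (compPow C z' n) z' (vt v), h1, ih,
        comp_assoc C (C.comp w (compPow C z' n)) (vt v) z,
        comp_assoc C w (compPow C z' n) (C.comp (vt v) z)]
  obtain ⟨N, h⟩ := hN z' (by
    apply hom_zero_of_act H
    intro a
    have hz0 : H.cl z = 0 := hz
    rw [hz', actH_comp, actH_comp, hz0, H.act_zero, ← H.actL_apply, map_zero])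
  exact ⟨N, by rw [key, h, comp_zero C w, zero_comp C (vt v)]⟩

/-- Isomorphisms modulo homological equivalence lift to isomorphisms. -/
theorem chow_iso (hdim : X.dim = Y.dim) (hNX : HomNil H X) (hNY : HomNil H Y)
    {a : C.A (X.prod Y)} {b : C.A (Y.prod X)} (ha : C.Deg X.dim a) (hb : C.Deg Y.dim b)
    (hab : H.cl (C.comp a b) = H.cl (dg C X)) (hba : H.cl (C.comp b a) = H.cl (dg C Y)) :
    ∃ (Z : C.A (X.prod Y)) (Z' : C.A (Y.prod X)), C.Deg X.dim Z ∧ C.Deg X.dim Z' ∧
      C.comp Z Z' = dg C X ∧ C.comp Z' Z = dg C Y := by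
  have hcomp : C.comp a b ∈ C.gr (X.prod X) X.dim := by
    have := comp_mem C (e := 0) (e' := 0) (Γ := a) (Δ := b) (by rwa [add_zero]) (by rwa [add_zero])
    rwa [add_zero, add_zero] at this
  obtain ⟨x, hx⟩ : ∃ x : Cor C X, cA C X x = C.comp a b := ⟨C.comp a b, rfl⟩
  have hx0 : x ∈ cor0 C X := by
    rw [mem_cor0]
    change cA C X x ∈ _
    rw [hx]
    exact hcomp
  have hnil : IsNilpotent (x - 1) := by
    apply HomNil.isNilpotent H hNX
    rw [map_sub, hx, cA_one, map_sub, hab, sub_self]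
  have hunit : IsUnit (⟨x, hx0⟩ : cor0 C X) := by
    have h1 : IsNilpotent ((⟨x, hx0⟩ : cor0 C X) - 1) := by
      obtain ⟨n, hn⟩ := hnil
      exact ⟨n, Subtype.ext hn⟩
    have h2 := h1.isUnit_add_one
    rwa [sub_add_cancel] at h2
  obtain ⟨⟨x', ⟨U, hU0⟩, hxU, hUx⟩, hx'⟩ := hunit
  have hUx' : U * x = 1 := by
    have h1 := congrArg Subtype.val hUx
    change U * x'.1 = 1 at h1
    have h2 : x'.1 = x := congrArg Subtype.val hx'
    rwa [h2] at h1
  have hUdeg : cA C X U ∈ C.gr (X.prod X) X.dim := (mem_cor0 (C := C)).1 hU0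
  have h1 : C.comp a (C.comp b (cA C X U)) = dg C X := by
    rw [← comp_assoc C a b (cA C X U), ← hx, ← cA_mul, hUx', cA_one]
  have hdeg : C.comp b (cA C X U) ∈ C.gr (Y.prod X) X.dim := by
    have := comp_mem C (e := 0) (e' := 0) (Γ := b) (Δ := cA C X U) (by rwa [add_zero])
      (by rwa [add_zero])
    rw [add_zero, add_zero] at this
    rwa [hdim]
  refine ⟨a, C.comp b (cA C X U), ha, hdeg, h1, ?_⟩
  -- the other composition
  have hidem : ∀ y : Cor C Y, y * y = y → H.cl (cA C Y y) = 0 → y = 0 := by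
    intro y hyy hy
    obtain ⟨n, hn⟩ := HomNil.isNilpotent H hNY hy
    have h2 : ∀ m, y ^ (m + 1) = y := by
      intro m
      induction m with
      | zero => rw [zero_add, pow_one]
      | succ m ih => rw [pow_succ, ih, hyy]
    rw [← h2 n, pow_succ, hn, zero_mul]
  obtain ⟨e, he⟩ : ∃ e : Cor C Y, cA C Y e = C.comp (C.comp b (cA C X U)) a :=
    ⟨C.comp (C.comp b (cA C X U)) a, rfl⟩
  have hee : e * e = e := by
    apply cA_inj
    rw [cA_mul, he, comp_assoc C (C.comp b (cA C X U)) a (C.comp (C.comp b (cA C X U)) a),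
      ← comp_assoc C a (C.comp b (cA C X U)) a, h1, dg_comp C a]
  have hUact : ∀ z : H.A X, H.act (H.cl (cA C X U)) z = z := by
    intro z
    have h2 : H.act (H.cl (cA C X (U * x))) z = z := by
      rw [hUx', cA_one, actH_dg]
    rw [cA_mul, actH_comp, hx, hab, actH_dg] at h2
    exact h2
  have hcl : H.cl (cA C Y (1 - e)) = 0 := by
    apply hom_zero_of_act H
    intro z
    have h2 : H.act (H.cl (C.comp b a)) z = z := by rw [hba, actH_dg]
    rw [actH_comp] at h2
    rw [map_sub, map_sub, H.act_sub, cA_one, actH_dg, he, actH_comp, actH_comp, hUact, h2, sub_self]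
  have h3 := hidem (1 - e) (by
    rw [mul_sub, sub_mul, sub_mul, one_mul, mul_one, hee, one_mul]
    abel) hcl
  have h4 : e = 1 := (sub_eq_zero.1 h3).symm
  rw [← he, h4, cA_one]

end Pool.Agent.Y121.OV
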