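import Pool.Agent.Y121.OV.Sgn

/-!
# The numerical consequences of the signature argument
-/

open Module

namespace Pool.Agent.Y121.OV

set_option linter.unusedSectionVars false

/-- The arithmetic of the multiplicities. -/
lemma alternating (m : ℕ) (x α : ℕ → ℤ) (h : ∀ j, x j + α (j + 1) = α j) (h0 : α (m + 1) = 0) :
    (α 0 + 2 * ∑ j ∈ Finset.range m, α (j + 1)) -
      (∑ j ∈ (Finset.range (m + 1)).filter Even, x j -
        ∑ j ∈ (Finset.range (m + 1)).filter (¬ Even ·), x j) =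
      4 * ∑ j ∈ (Finset.range m).filter Even, α (j + 1) := by
  have h1 : ∀ f : ℕ → ℤ, ∀ s : Finset ℕ, ∑ j ∈ s.filter Even, f j -
      ∑ j ∈ s.filter (¬ Even ·), f j = ∑ j ∈ s, (-1) ^ j * f j := by
    intro f s
    rw [← Finset.sum_filter_add_sum_filter_not s Even (fun j => (-1) ^ j * f j), sub_eq_add_neg,
      ← Finset.sum_neg_distrib]
    congr 1
    · refine Finset.sum_congr rfl fun j hj => ?_
      rw [(Finset.mem_filter.1 hj).2.neg_one_pow, one_mul]
    · refine Finset.sum_congr rfl fun j hj => ?_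
      rw [(Nat.not_even_iff_odd.1 (Finset.mem_filter.1 hj).2).neg_one_pow]
      ring
  have h2 : ∀ k : ℕ, ∑ j ∈ Finset.range (k + 1), (-1 : ℤ) ^ j * x j =
      α 0 + 2 * ∑ j ∈ Finset.range k, (-1) ^ (j + 1) * α (j + 1) -
        (-1) ^ k * α (k + 1) := by
    intro k
    induction k with
    | zero =>
      have := h 0
      simp
      linarith
    | succ k ih =>
      rw [Finset.sum_range_succ, ih, Finset.sum_range_succ (fun j => (-1 : ℤ) ^ (j + 1) * α (j + 1))]
      have := h (k + 1)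
      have e : x (k + 1) = α (k + 1) - α (k + 1 + 1) := by linarith
      rw [e, pow_succ (-1 : ℤ) k]
      ring
  rw [h1, h2, h0]
  have h3 : ∑ j ∈ Finset.range m, α (j + 1) - ∑ j ∈ Finset.range m, (-1 : ℤ) ^ (j + 1) * α (j + 1) =
      2 * ∑ j ∈ (Finset.range m).filter Even, α (j + 1) := by
    rw [← Finset.sum_sub_distrib, Finset.mul_sum,
      ← Finset.sum_filter_add_sum_filter_not (Finset.range m) Even]
    have e1 : ∑ j ∈ (Finset.range m).filter (¬ Even ·), (α (j + 1) - (-1 : ℤ) ^ (j + 1) * α (j + 1)) =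
        0 := by
      refine Finset.sum_eq_zero fun j hj => ?_
      rw [(Nat.not_even_iff_odd.1 (Finset.mem_filter.1 hj).2).add_one.neg_one_pow]
      ring
    rw [e1, add_zero]
    refine Finset.sum_congr rfl fun j hj => ?_
    rw [(Finset.mem_filter.1 hj).2.add_one.neg_one_pow]
    ring
  linarith

variable {V : Type*} [AddCommGroup V] [Module ℚ V] [FiniteDimensional ℚ V]

namespace Pair

variable {A : Subalgebra ℚ (End ℚ V)} {q B : V →ₗ[ℚ] V →ₗ[ℚ] ℚ} {h : V → V → ℝ} {c : ℝ} {m : ℕ}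
  {p r : ℤ → End ℚ V} {L : End ℚ V} {ε : ℤ → ℚ} {Φ Ψ : End ℚ V}
  (H : Pair A q B h c m p r L ε Φ Ψ)

include H

/-- The sums of the multiplicities in the odd positions agree. -/
theorem odd_eq (T : End ℚ V) :
    ∑ j ∈ (Finset.range m).filter Even, hd A T (p (-((j + 1 : ℕ) : ℤ))) =
      ∑ j ∈ (Finset.range m).filter Even, hd A T (r (-((j + 1 : ℕ) : ℤ))) := by
  obtain ⟨e, d, he, hd', hsig⟩ := H.signs
  have htot : hd A T (tot m p) = hd A T (tot m r) :=
    hd_congr ⟨Ψ, H.Ψ_mem, Φ, H.Φ_mem, H.ΨΦ, H.ΦΨ, H.PΨ, H.ΨR, H.RΦ, H.ΦP⟩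
  rw [H.X.hd_tot H.reg, H.Y.hd_tot H.reg] at htot
  have h0p : hd A T (p (-((m + 1 : ℕ) : ℤ))) = 0 := by
    rw [H.X.out _ (by rw [abs_neg, Nat.abs_cast]; exact_mod_cast Nat.lt_succ_self m), hd_zero]
  have h0r : hd A T (r (-((m + 1 : ℕ) : ℤ))) = 0 := by
    rw [H.Y.out _ (by rw [abs_neg, Nat.abs_cast]; exact_mod_cast Nat.lt_succ_self m), hd_zero]
  have a1 := alternating m (fun j => (hd A T (e j) : ℤ)) (fun j => (hd A T (p (-(j : ℤ))) : ℤ))
    (fun j => by exact_mod_cast he j T) (by exact_mod_cast h0p)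
  have a2 := alternating m (fun j => (hd A T (d j) : ℤ)) (fun j => (hd A T (r (-(j : ℤ))) : ℤ))
    (fun j => by exact_mod_cast hd' j T) (by exact_mod_cast h0r)
  have a3 := hsig T
  zify at a3 htot ⊢
  simp only [Nat.cast_zero, neg_zero] at a1 a2
  push_cast at a1 a2 a3 htot ⊢
  linarith

/-- **The sum of the pieces in the odd positions is invariant.** -/
theorem odd_eqv : Eqv A (∑ j ∈ (Finset.range m).filter Even, p (-((j + 1 : ℕ) : ℤ)))
    (∑ j ∈ (Finset.range m).filter Even, r (-((j + 1 : ℕ) : ℤ))) := by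
  have o1 := IsObj.sum (A := A) ((Finset.range m).filter Even)
    (e := fun j : ℕ => p (-((j + 1 : ℕ) : ℤ))) (fun j => H.X.obj _)
    (fun i j hij => H.X.orth _ _ (by omega))
  have o2 := IsObj.sum (A := A) ((Finset.range m).filter Even)
    (e := fun j : ℕ => r (-((j + 1 : ℕ) : ℤ))) (fun j => H.Y.obj _)
    (fun i j hij => H.Y.orth _ _ (by omega))
  refine eqv_of_hd H.reg o1.1 o2.1 fun T _ => ?_
  rw [hd_sum (A := A) (T := T) ((Finset.range m).filter Even)
    (e := fun j : ℕ => p (-((j + 1 : ℕ) : ℤ))) (fun j => H.X.obj _)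
    (fun i j hij => H.X.orth _ _ (by omega)),
    hd_sum (A := A) (T := T) ((Finset.range m).filter Even)
    (e := fun j : ℕ => r (-((j + 1 : ℕ) : ℤ))) (fun j => H.Y.obj _)
    (fun i j hij => H.Y.orth _ _ (by omega))]
  exact H.odd_eq T

/-- If the pieces in the positions at least two are isomorphic, then all pieces are isomorphic. -/
theorem all_eqv (h2 : ∀ j : ℕ, 2 ≤ j → Eqv A (p (-(j : ℤ))) (r (-(j : ℤ)))) (j : ℕ) :
    Eqv A (p (-(j : ℤ))) (r (-(j : ℤ))) := by
  have key : ∀ T, hd A T (p (-((1 : ℕ) : ℤ))) = hd A T (r (-((1 : ℕ) : ℤ))) := by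
    intro T
    by_cases hm : m = 0
    · have a1 : p (-((1 : ℕ) : ℤ)) = 0 := H.X.out _ (by rw [hm]; norm_num)
      have a2 : r (-((1 : ℕ) : ℤ)) = 0 := H.Y.out _ (by rw [hm]; norm_num)
      rw [a1, a2]
    · have h0 : 0 ∈ (Finset.range m).filter Even := by
        rw [Finset.mem_filter, Finset.mem_range]
        exact ⟨Nat.pos_of_ne_zero hm, Even.zero⟩
      have h1 := H.odd_eq T
      rw [← Finset.add_sum_erase _ _ h0, ← Finset.add_sum_erase _ _ h0] at h1
      have h3 : ∑ j ∈ ((Finset.range m).filter Even).erase 0, hd A T (p (-((j + 1 : ℕ) : ℤ))) =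
          ∑ j ∈ ((Finset.range m).filter Even).erase 0, hd A T (r (-((j + 1 : ℕ) : ℤ))) := by
        refine Finset.sum_congr rfl fun j hj => ?_
        rw [Finset.mem_erase] at hj
        exact hd_congr (h2 (j + 1) (by omega))
      rw [zero_add] at h1
      omega
  rcases j with _ | _ | j
  · refine eqv_of_hd H.reg (H.X.obj _) (H.Y.obj _) fun T _ => ?_
    have htot : hd A T (tot m p) = hd A T (tot m r) :=
      hd_congr ⟨Ψ, H.Ψ_mem, Φ, H.Φ_mem, H.ΨΦ, H.ΦΨ, H.PΨ, H.ΨR, H.RΦ, H.ΦP⟩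
    rw [H.X.hd_tot H.reg, H.Y.hd_tot H.reg] at htot
    have h3 : ∑ j ∈ Finset.range m, hd A T (p (-((j + 1 : ℕ) : ℤ))) =
        ∑ j ∈ Finset.range m, hd A T (r (-((j + 1 : ℕ) : ℤ))) := by
      refine Finset.sum_congr rfl fun j _ => ?_
      rcases j with _ | j
      · exact key T
      · exact hd_congr (h2 (j + 1 + 1) (by omega))
    rw [Nat.cast_zero, neg_zero]
    omega
  · exact eqv_of_hd H.reg (H.X.obj _) (H.Y.obj _) fun T _ => key T
  · exact h2 _ (by omega)

end Pair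

end Pool.Agent.Y121.OV
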