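import Pool.Agent.Y121.OV.Reg

/-!
# The cohomology in the degrees not congruent to the dimension modulo two
-/

open Module

namespace Pool.Agent.Y121.OV

set_option linter.unusedSectionVars false

variable {V : Type*} [AddCommGroup V] [Module ℚ V] [FiniteDimensional ℚ V]

/-- The pieces of a graded space in the degrees `2 j + 1`. -/
structure Odd' (A : Subalgebra ℚ (End ℚ V)) (u : ℤ → End ℚ V) : Prop where
  obj : ∀ j, IsObj A (u j)
  orth : ∀ i j, i ≠ j → u i * u j = 0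
  sym : ∀ j : ℕ, Eqv A (u (-((j + 1 : ℕ) : ℤ))) (u j)

variable {A : Subalgebra ℚ (End ℚ V)} {u u' : ℤ → End ℚ V}

lemma Odd'.hd_tot (O : Odd' A u) (T : End ℚ V) (m : ℕ) :
    hd A T (∑ j ∈ Finset.Icc (-((m + 1 : ℕ) : ℤ)) m, u j) =
      2 * ∑ j ∈ Finset.range (m + 1), hd A T (u (-((j + 1 : ℕ) : ℤ))) := by
  rw [hd_sum _ O.obj O.orth]
  induction m with
  | zero =>
    have e : Finset.Icc (-((0 + 1 : ℕ) : ℤ)) ((0 : ℕ) : ℤ) = {-1, 0} := by
      ext i
      simp only [Finset.mem_Icc, Finset.mem_insert, Finset.mem_singleton]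
      push_cast
      omega
    have h0 := hd_congr (T := T) (O.sym 0)
    rw [e, Finset.sum_pair (by decide), Finset.sum_range_one]
    simp only [Nat.cast_zero, zero_add, Nat.cast_one] at h0 ⊢
    omega
  | succ k ih =>
    have e1 : Finset.Icc (-((k + 1 + 1 : ℕ) : ℤ)) ((k + 1 : ℕ) : ℤ) =
        insert (-((k + 1 + 1 : ℕ) : ℤ)) (insert ((k + 1 : ℕ) : ℤ)
          (Finset.Icc (-((k + 1 : ℕ) : ℤ)) k)) := by
      ext i
      simp only [Finset.mem_Icc, Finset.mem_insert]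
      push_cast
      omega
    rw [e1, Finset.sum_insert, Finset.sum_insert, ih, Finset.sum_range_succ _ (k + 1),
      ← hd_congr (O.sym (k + 1))]
    · ring
    · rw [Finset.mem_Icc]
      push_cast
      omega
    · rw [Finset.mem_insert, Finset.mem_Icc]
      push_cast
      omega

/-- If the total spaces and the pieces in the positions at least two are isomorphic, then so are
the pieces next to the middle. -/
lemma Odd'.eqv (hA : Reg A) (O : Odd' A u) (O' : Odd' A u') (m : ℕ)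
    (htot : Eqv A (∑ j ∈ Finset.Icc (-((m + 1 : ℕ) : ℤ)) m, u j)
      (∑ j ∈ Finset.Icc (-((m + 1 : ℕ) : ℤ)) m, u' j))
    (h2 : ∀ j : ℕ, 1 ≤ j → Eqv A (u (-((j + 1 : ℕ) : ℤ))) (u' (-((j + 1 : ℕ) : ℤ)))) (j : ℕ) :
    Eqv A (u (-((j + 1 : ℕ) : ℤ))) (u' (-((j + 1 : ℕ) : ℤ))) := by
  by_cases hj : 1 ≤ j
  · exact h2 j hj
  obtain rfl : j = 0 := by omega
  refine eqv_of_hd hA (O.obj _) (O'.obj _) fun T _ => ?_
  have h1 := hd_congr (T := T) htot
  rw [O.hd_tot, O'.hd_tot, Finset.sum_range_succ', Finset.sum_range_succ'] at h1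
  have h3 : ∑ j ∈ Finset.range m, hd A T (u (-((j + 1 + 1 : ℕ) : ℤ))) =
      ∑ j ∈ Finset.range m, hd A T (u' (-((j + 1 + 1 : ℕ) : ℤ))) :=
    Finset.sum_congr rfl fun j _ => hd_congr (h2 (j + 1) (by omega))
  omega

end Pool.Agent.Y121.OV
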