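import Pool.Agent.Y121.OV.Muk
import Pool.Agent.Y121.OV.Num
import Pool.Agent.Y121.OV.Oth

/-!
# Fourier-Mukai partners satisfy the hypotheses of the signature argument
-/

open CategoryTheory AlgebraicGeometry Module

universe u v

namespace Pool.Agent.Y121.OV

open Pool.Agent.H914 Pool.Agent.H914.VarClass Pool.Agent.H914.VarClass.Obj Pool.Agent.W492.BB
  Pool.Agent.W550.Corr Pool.Agent.TH133 Pool.Agent.Y121.NK Pool.Agent.TH829.Kim

set_option linter.unusedSectionVars false

namespace Grd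

variable {V : Type*} [AddCommGroup V] [Module ℚ V] [FiniteDimensional ℚ V]
  {A : Subalgebra ℚ (End ℚ V)} {n : ℕ} {P : ℤ → End ℚ V} {L : End ℚ V} (G : Grd A n P L)

include G

lemma obj (hA : Reg A) (i : ℤ) : IsObj A (P i) := ⟨G.mem hA i, G.idem i⟩

lemma eqv_neg (hA : Reg A) (i : ℕ) : Eqv A (P (-i)) (P i) := by
  have hii : -(i : ℤ) + 2 * (i : ℤ) = i := by ring
  refine eqv_of_bij hA (G.obj hA _) (G.obj hA _) (a := L ^ i * P (-i))
    (A.mul_mem (pow_mem G.L_mem _) (G.mem hA _)) ?_ ?_ ?_ ?_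
  · rw [G.L_pow, hii, ← mul_assoc, G.idem]
  · rw [mul_assoc, G.idem]
  · intro x hx h0
    rw [← hx]
    exact G.inj i x h0
  · intro y hy
    obtain ⟨x, hx⟩ := G.surj i y
    exact ⟨x, by rw [Module.End.mul_apply, hx, hy]⟩

lemma odd (hA : Reg A) : Odd' A (fun j => P (2 * j + 1)) where
  obj j := G.obj hA _
  orth i j hij := G.orth _ _ (by omega)
  sym j := by
    have h := G.eqv_neg hA (2 * j + 1)
    have e1 : -((2 * j + 1 : ℕ) : ℤ) = 2 * (-((j + 1 : ℕ) : ℤ)) + 1 := by push_cast; ring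
    have e2 : ((2 * j + 1 : ℕ) : ℤ) = 2 * (j : ℤ) + 1 := by push_cast; ring
    rw [e1, e2] at h
    exact h

end Grd

variable {k : Type u} [Field k] {𝒱 : VarClass k} {C : TheoryData.{u, v, 0} 𝒱 ℚ}
  [hC : IsChowProj C] (H : WeilTheoryData.{u, v, 0} C ℚ) [hH : IsWeilProj H] {X Y Z W : 𝒱.Obj}

include hC hH

/-- The sum of the components of the degrees `dim X + 2 j + s`. -/
noncomputable def parP (X : 𝒱.Obj) (s : ℤ) (S : Finset ℤ) : H.A X →ₗ[ℚ] H.A X :=
  ∑ j ∈ S, cmpH H X (X.dim + (2 * j + s))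

omit hC hH in
/-- The set `S` contains the relevant indices. -/
def Cov (n : ℕ) (s : ℤ) (S : Finset ℤ) : Prop :=
  ∀ j : ℤ, -(n : ℤ) ≤ 2 * j + s → 2 * j + s ≤ n → j ∈ S

lemma parP_self {s : ℤ} {S : Finset ℤ} (hS : Cov X.dim s S) {m j : ℤ}
    (hm : m = X.dim + (2 * j + s)) {a : H.A X} (ha : a ∈ H.gr X m) : parP H X s S a = a := by
  rw [parP, LinearMap.sum_apply]
  by_cases h0 : m < 0 ∨ 2 * X.dim < m
  · rw [gr_out H h0 ha]
    exact Finset.sum_eq_zero fun i _ => map_zero _
  · rw [Finset.sum_eq_single_of_mem j (hS j (by omega) (by omega))]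
    · rw [← hm, cmpH_self H ha]
    · intro i _ hi
      exact cmpH_ne H ha (by omega)

lemma parP_zero {s : ℤ} {S : Finset ℤ} {m : ℤ} (hm : ∀ j, m ≠ X.dim + (2 * j + s)) {a : H.A X}
    (ha : a ∈ H.gr X m) : parP H X s S a = 0 := by
  rw [parP, LinearMap.sum_apply]
  exact Finset.sum_eq_zero fun i _ => cmpH_ne H ha (hm i)

lemma parP_idem {s : ℤ} {S : Finset ℤ} (hS : Cov X.dim s S) (a : H.A X) :
    parP H X s S (parP H X s S a) = parP H X s S a := by
  have h : parP H X s S ∘ₗ parP H X s S = parP H X s S := by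
    apply ext_gr H
    intro m a ha
    rw [LinearMap.comp_apply]
    by_cases hj : ∃ j, m = X.dim + (2 * j + s)
    · obtain ⟨j, hj⟩ := hj
      rw [parP_self H hS hj ha, parP_self H hS hj ha]
    · push Not at hj
      rw [parP_zero H hj ha, map_zero]
  exact LinearMap.congr_fun h a

/-- Correspondences preserve the parity. -/
lemma parP_act (hdim : X.dim = Y.dim) {s : ℤ} {S : Finset ℤ} (hS : Cov X.dim s S)
    (Γ : C.A (X.prod Y)) (a : H.A X) :
    parP H Y s S (H.act (H.cl Γ) a) = H.act (H.cl Γ) (parP H X s S a) := by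
  have hS' : Cov Y.dim s S := hdim ▸ hS
  induction mem_iSup_gr Γ using Submodule.iSup_induction' with
  | mem i Γ hΓ =>
    have h : parP H Y s S ∘ₗ H.actL (H.cl Γ) = H.actL (H.cl Γ) ∘ₗ parP H X s S := by
      apply ext_gr H
      intro m a ha
      rw [LinearMap.comp_apply, LinearMap.comp_apply, H.actL_apply, H.actL_apply]
      have h1 := act_mem_gr H hΓ ha
      by_cases hj : ∃ j, m = X.dim + (2 * j + s)
      · obtain ⟨j, hj⟩ := hj
        rw [parP_self H hS hj ha, parP_self H hS' (j := j + (i - X.dim)) (by omega) h1]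
      · push Not at hj
        rw [parP_zero H hj ha, parP_zero H (fun j hj' => hj (j - (i - X.dim)) (by omega)) h1,
          ← H.actL_apply, map_zero]
    exact LinearMap.congr_fun h a
  | zero => rw [map_zero, H.act_zero, map_zero, H.act_zero]
  | add x y _ _ hx hy => rw [map_add, H.act_add, map_add, hx, hy, H.act_add]

omit hC hH in
lemma cov_even (n : ℕ) : Cov n 0 (Finset.Icc (-(n : ℤ)) n) := fun j h1 h2 => by
  rw [Finset.mem_Icc]
  omega

omit hC hH in
lemma cov_odd (n : ℕ) : Cov n 1 (Finset.Icc (-((n + 1 : ℕ) : ℤ)) n) := fun j h1 h2 => by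
  rw [Finset.mem_Icc]
  push_cast
  omega

lemma tot_X (m : ℕ) : tot m (fun j => PX H X Y (2 * j)) =
    j11 (parP H X 0 (Finset.Icc (-(m : ℤ)) m)) := by
  simp only [tot, PX, parP]
  rw [j11_sum]
  simp only [add_zero]

lemma tot_Y (m : ℕ) : tot m (fun j => PY H X Y (2 * j)) =
    j22 (parP H Y 0 (Finset.Icc (-(m : ℤ)) m)) := by
  simp only [tot, PY, parP]
  rw [j22_sum]
  simp only [add_zero]

lemma oth_X (S : Finset ℤ) : ∑ j ∈ S, PX H X Y (2 * j + 1) = j11 (parP H X 1 S) := by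
  simp only [PX, parP]
  rw [j11_sum]

lemma oth_Y (S : Finset ℤ) : ∑ j ∈ S, PY H X Y (2 * j + 1) = j22 (parP H Y 1 S) := by
  simp only [PY, parP]
  rw [j22_sum]

variable {κX : C.A X} {κY : C.A Y} {v : ℕ → C.A (X.prod Y)} {w : C.A (Y.prod X)}

lemma comm_Phi (hdim : X.dim = Y.dim) {s : ℤ} {S : Finset ℤ} (hS : Cov X.dim s S) :
    j22 (parP H Y s S) * Phi H v = Phi H v * j11 (parP H X s S) := by
  apply LinearMap.ext
  intro z
  rw [Module.End.mul_apply, Module.End.mul_apply, Phi, j21_apply, j22_apply, j11_apply, j21_apply]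
  exact congrArg (fun t => ((0 : H.A X), t)) (parP_act H hdim hS (vt v) z.1)

lemma comm_Psi (hdim : X.dim = Y.dim) {s : ℤ} {S : Finset ℤ} (hS : Cov X.dim s S) :
    j11 (parP H X s S) * Psi H w = Psi H w * j22 (parP H Y s S) := by
  apply LinearMap.ext
  intro z
  rw [Module.End.mul_apply, Module.End.mul_apply, Psi, j12_apply, j22_apply, j11_apply, j12_apply]
  exact congrArg (fun t => (t, (0 : H.A Y))) (parP_act H hdim.symm (hdim ▸ hS) w z.2)

lemma idemX {s : ℤ} {S : Finset ℤ} (hS : Cov X.dim s S) :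
    (j11 (parP H X s S) * j11 (parP H X s S) : End ℚ (H.A X × H.A Y)) = j11 (parP H X s S) := by
  rw [j11_mul]
  congr 1
  exact LinearMap.ext fun a => parP_idem H hS a

lemma idemY {s : ℤ} {S : Finset ℤ} (hS : Cov Y.dim s S) :
    (j22 (parP H Y s S) * j22 (parP H Y s S) : End ℚ (H.A X × H.A Y)) = j22 (parP H Y s S) := by
  rw [j22_mul]
  congr 1
  exact LinearMap.ext fun a => parP_idem H hS a

variable (hFM : IsFM C κX κY v w)

include hFM

lemma psi_phi_par {s : ℤ} {S : Finset ℤ} (hS : Cov X.dim s S) :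
    (Psi H w * j22 (parP H Y s S)) * (Phi H v * j11 (parP H X s S)) = j11 (parP H X s S) := by
  calc (Psi H w * j22 (parP H Y s S)) * (Phi H v * j11 (parP H X s S))
      = Psi H w * (j22 (parP H Y s S) * Phi H v) * j11 (parP H X s S) := by
        simp only [mul_assoc]
    _ = (Psi H w * Phi H v) * (j11 (parP H X s S) * j11 (parP H X s S)) := by
        rw [comm_Phi H hFM.dim_eq hS]; simp only [mul_assoc]
    _ = _ := by rw [idemX H hS, Psi_Phi H hFM, j11_mul, LinearMap.id_comp]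

lemma phi_psi_par {s : ℤ} {S : Finset ℤ} (hS : Cov X.dim s S) :
    (Phi H v * j11 (parP H X s S)) * (Psi H w * j22 (parP H Y s S)) = j22 (parP H Y s S) := by
  calc (Phi H v * j11 (parP H X s S)) * (Psi H w * j22 (parP H Y s S))
      = Phi H v * (j11 (parP H X s S) * Psi H w) * j22 (parP H Y s S) := by
        simp only [mul_assoc]
    _ = (Phi H v * Psi H w) * (j22 (parP H Y s S) * j22 (parP H Y s S)) := by
        rw [comm_Psi H hFM.dim_eq hS]; simp only [mul_assoc]
    _ = _ := by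
        rw [idemY H (hFM.dim_eq ▸ hS), Phi_Psi H hFM, j22_mul, LinearMap.id_comp]

/-- The parts of given parity are isomorphic. -/
lemma par_eqv {s : ℤ} {S : Finset ℤ} (hS : Cov X.dim s S)
    (hX : (j11 (parP H X s S) : End ℚ (H.A X × H.A Y)) ∈ algB H X Y)
    (hY : (j22 (parP H Y s S) : End ℚ (H.A X × H.A Y)) ∈ algB H X Y) :
    Eqv (algB H X Y) (j11 (parP H X s S)) (j22 (parP H Y s S)) := by
  have hS' : Cov Y.dim s S := hFM.dim_eq ▸ hS
  refine ⟨Psi H w * j22 (parP H Y s S), (algB H X Y).mul_mem (Psi_mem H) hY,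
    Phi H v * j11 (parP H X s S), (algB H X Y).mul_mem (Phi_mem H) hX, psi_phi_par H hFM hS,
    phi_psi_par H hFM hS, ?_, ?_, ?_, ?_⟩
  · rw [← mul_assoc, comm_Psi H hFM.dim_eq hS, mul_assoc, idemY H hS']
  · rw [mul_assoc, idemY H hS']
  · rw [← mul_assoc, comm_Phi H hFM.dim_eq hS, mul_assoc, idemX H hS]
  · rw [mul_assoc, idemX H hS]

variable {h : ∀ X, H.A X → H.A X → ℝ} {ηX : C.A X} {ηY : C.A Y}
  [FiniteDimensional ℚ (H.A X)] [FiniteDimensional ℚ (H.A Y)]

/-- **Fourier-Mukai partners give a pair.** -/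
theorem pair (hW : IsWeilForm H h) (hX : IsAmple H h X ηX) (hY : IsAmple H h Y ηY)
    (hA : Reg (algB H X Y)) :
    Pair (algB H X Y) (qf H X Y) (Bf H κX κY) (hf H h X Y)
      ((-1 : ℝ) ^ (X.dim * (X.dim - 1) / 2)) X.dim (fun j => PX H X Y (2 * j))
      (fun j => PY H X Y (2 * j)) (Lef H X Y ηX ηY) (fun j => sg (X.dim + 2 * j))
      (Phi H v * tot X.dim (fun j => PX H X Y (2 * j)))
      (Psi H w * tot X.dim (fun j => PY H X Y (2 * j))) := by
  have sX := sideX (ηY := ηY) H hW hX hA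
  have sY := sideY (ηX := ηX) H hW hY hA
  have bY := bilY (X := X) (κX := κX) H hFM.degY
  rw [← hFM.dim_eq] at sY bY
  have hcov := cov_even X.dim
  have hcov' : Cov Y.dim 0 (Finset.Icc (-(X.dim : ℤ)) X.dim) := hFM.dim_eq ▸ hcov
  exact
    { reg := hA
      X := sX
      Y := sY
      BX := bilX H hFM.degX
      BY := bY
      pr := fun i j => j11_mul_j22 _ _
      rp := fun i j => j22_mul_j11 _ _
      add_left := fun x y z => by
        simp only [hf, Prod.fst_add, Prod.snd_add, hW.add_left]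
        ring
      add_right := fun x y z => by
        simp only [hf, Prod.fst_add, Prod.snd_add, hW.add_right]
        ring
      hJ := fun f _ g hg hfg => hf_zero H hW hg hfg
      ε_ne := fun j => sg_ne _
      Φ_mem := (algB H X Y).mul_mem (Phi_mem H) sX.tot_obj.mem
      Ψ_mem := (algB H X Y).mul_mem (Psi_mem H) sY.tot_obj.mem
      ΨΦ := by rw [tot_X, tot_Y]; exact psi_phi_par H hFM hcov
      ΦΨ := by rw [tot_X, tot_Y]; exact phi_psi_par H hFM hcov
      ΦP := by rw [mul_assoc, sX.tot_obj.idem]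
      RΦ := by
        rw [tot_X, tot_Y, ← mul_assoc, comm_Phi H hFM.dim_eq hcov, mul_assoc, idemX H hcov]
      PΨ := by
        rw [tot_X, tot_Y, ← mul_assoc, comm_Psi H hFM.dim_eq hcov, mul_assoc, idemY H hcov']
      ΨR := by rw [mul_assoc, sY.tot_obj.idem]
      isom := by
        intro x y hx hy
        have e1 : ∀ z : H.A X × H.A Y, tot X.dim (fun j => PX H X Y (2 * j)) z = z →
            z.2 = 0 ∧ (Phi H v * tot X.dim (fun j => PX H X Y (2 * j))) z =
              (0, H.act (H.cl (vt v)) z.1) := by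
          intro z hz
          constructor
          · rw [tot_X, j11_apply] at hz
            rw [← hz]
          · rw [Module.End.mul_apply, hz]
            rfl
        rw [(e1 x hx).2, (e1 y hy).2, Bf_apply, Bf_apply, (e1 x hx).1, mB_isom H hFM]
        simp only [map_zero, LinearMap.zero_apply, zero_add, add_zero] }

end Pool.Agent.Y121.OV
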