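import Mathlib

/-!
# Idempotents of regular algebras of operators

`A` is an algebra of operators on a finite-dimensional vector space which is regular in the sense of
von Neumann. Two idempotents are equivalent if the numbers of homomorphisms to them agree.
-/

open Module

namespace Pool.Agent.Y121.OV

set_option linter.unusedSectionVars false

variable {F V : Type*} [Field F] [AddCommGroup V] [Module F V] [FiniteDimensional F V]

/-- `e` is an idempotent of `A`. -/
structure IsObj (A : Subalgebra F (End F V)) (e : End F V) : Prop where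
  mem : e ∈ A
  idem : e * e = e

/-- The idempotents `e` and `f` of `A` are equivalent. -/
def Eqv (A : Subalgebra F (End F V)) (e f : End F V) : Prop :=
  ∃ u ∈ A, ∃ v ∈ A, u * v = e ∧ v * u = f ∧ e * u = u ∧ u * f = u ∧ f * v = v ∧ v * e = v

/-- The homomorphisms from `T` to `e`. -/
def hs (A : Subalgebra F (End F V)) (T e : End F V) : Submodule F (End F V) where
  carrier := {x | x ∈ A ∧ e * x = x ∧ x * T = x}
  zero_mem' := ⟨A.zero_mem, mul_zero _, zero_mul _⟩
  add_mem' := by
    rintro x y ⟨h1, h2, h3⟩ ⟨h4, h5, h6⟩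
    exact ⟨A.add_mem h1 h4, by rw [mul_add, h2, h5], by rw [add_mul, h3, h6]⟩
  smul_mem' := by
    rintro c x ⟨h1, h2, h3⟩
    exact ⟨A.smul_mem h1 c, by rw [mul_smul_comm, h2], by rw [smul_mul_assoc, h3]⟩

/-- The dimension of the space of homomorphisms from `T` to `e`. -/
noncomputable def hd (A : Subalgebra F (End F V)) (T e : End F V) : ℕ := finrank F (hs A T e)

/-- Regularity. -/
def Reg (A : Subalgebra F (End F V)) : Prop := ∀ a ∈ A, ∃ b ∈ A, a * b * a = a

variable {A : Subalgebra F (End F V)} {e f T : End F V}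

lemma mem_hs {x : End F V} : x ∈ hs A T e ↔ x ∈ A ∧ e * x = x ∧ x * T = x := Iff.rfl

lemma IsObj.zero : IsObj A (0 : End F V) := ⟨A.zero_mem, mul_zero _⟩

lemma IsObj.one : IsObj A (1 : End F V) := ⟨A.one_mem, mul_one _⟩

lemma IsObj.add (he : IsObj A e) (hf : IsObj A f) (h1 : e * f = 0) (h2 : f * e = 0) :
    IsObj A (e + f) :=
  ⟨A.add_mem he.mem hf.mem, by rw [mul_add, add_mul, add_mul, he.idem, hf.idem, h1, h2]; simp⟩

lemma IsObj.sub (he : IsObj A e) (hf : IsObj A f) (h1 : e * f = f) (h2 : f * e = f) :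
    IsObj A (e - f) :=
  ⟨A.sub_mem he.mem hf.mem, by rw [mul_sub, sub_mul, sub_mul, he.idem, hf.idem, h1, h2]; simp⟩

lemma Eqv.refl (he : IsObj A e) : Eqv A e e :=
  ⟨e, he.mem, e, he.mem, he.idem, he.idem, he.idem, he.idem, he.idem, he.idem⟩

lemma Eqv.symm (h : Eqv A e f) : Eqv A f e := by
  obtain ⟨u, hu, v, hv, h1, h2, h3, h4, h5, h6⟩ := h
  exact ⟨v, hv, u, hu, h2, h1, h5, h6, h3, h4⟩

lemma Eqv.trans {g : End F V} (h : Eqv A e f) (h' : Eqv A f g) : Eqv A e g := by
  obtain ⟨u, hu, v, hv, h1, h2, h3, h4, h5, h6⟩ := h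
  obtain ⟨a, ha, b, hb, k1, k2, k3, k4, k5, k6⟩ := h'
  refine ⟨u * a, A.mul_mem hu ha, b * v, A.mul_mem hb hv, ?_, ?_, ?_, ?_, ?_, ?_⟩
  · rw [mul_assoc, ← mul_assoc a, k1, ← mul_assoc, h4, h1]
  · rw [mul_assoc, ← mul_assoc v, h2, ← mul_assoc, k6, k2]
  · rw [← mul_assoc, h3]
  · rw [mul_assoc, k4]
  · rw [← mul_assoc, k5]
  · rw [mul_assoc, h6]

lemma Eqv.add {e₁ e₂ f₁ f₂ : End F V} (h : Eqv A e₁ f₁) (h' : Eqv A e₂ f₂) (he : e₁ * e₂ = 0)
    (he' : e₂ * e₁ = 0) (hf : f₁ * f₂ = 0) (hf' : f₂ * f₁ = 0) :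
    Eqv A (e₁ + e₂) (f₁ + f₂) := by
  obtain ⟨u, hu, v, hv, h1, h2, h3, h4, h5, h6⟩ := h
  obtain ⟨a, ha, b, hb, k1, k2, k3, k4, k5, k6⟩ := h'
  have hub : u * b = 0 := by rw [← h4, ← k5, mul_assoc, ← mul_assoc f₁, hf, zero_mul, mul_zero]
  have hav : a * v = 0 := by rw [← k4, ← h5, mul_assoc, ← mul_assoc f₂, hf', zero_mul, mul_zero]
  have hva : v * a = 0 := by rw [← h6, ← k3, mul_assoc, ← mul_assoc e₁, he, zero_mul, mul_zero]
  have hbu : b * u = 0 := by rw [← k6, ← h3, mul_assoc, ← mul_assoc e₂, he', zero_mul, mul_zero]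
  have e1a : e₁ * a = 0 := by rw [← k3, ← mul_assoc, he, zero_mul]
  have e2u : e₂ * u = 0 := by rw [← h3, ← mul_assoc, he', zero_mul]
  have uf2 : u * f₂ = 0 := by rw [← h4, mul_assoc, hf, mul_zero]
  have af1 : a * f₁ = 0 := by rw [← k4, mul_assoc, hf', mul_zero]
  have f1b : f₁ * b = 0 := by rw [← k5, ← mul_assoc, hf, zero_mul]
  have f2v : f₂ * v = 0 := by rw [← h5, ← mul_assoc, hf', zero_mul]
  have ve2 : v * e₂ = 0 := by rw [← h6, mul_assoc, he, mul_zero]
  have be1 : b * e₁ = 0 := by rw [← k6, mul_assoc, he', mul_zero]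
  refine ⟨u + a, A.add_mem hu ha, v + b, A.add_mem hv hb, ?_, ?_, ?_, ?_, ?_, ?_⟩
  · rw [add_mul, mul_add, mul_add, h1, hub, hav, k1]; simp
  · rw [add_mul, mul_add, mul_add, h2, hva, hbu, k2]; simp
  · rw [add_mul, mul_add, mul_add, h3, e1a, e2u, k3]; simp
  · rw [add_mul, mul_add, mul_add, h4, uf2, af1, k4]; simp
  · rw [add_mul, mul_add, mul_add, h5, f1b, f2v, k5]; simp
  · rw [add_mul, mul_add, mul_add, h6, ve2, be1, k6]; simp

lemma hd_congr (h : Eqv A e f) : hd A T e = hd A T f := by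
  obtain ⟨u, hu, v, hv, h1, h2, h3, h4, h5, h6⟩ := h
  refine LinearEquiv.finrank_eq
    { toFun := fun x => ⟨v * x.1, A.mul_mem hv x.2.1, by rw [← mul_assoc, h5],
        by rw [mul_assoc, x.2.2.2]⟩
      map_add' := fun x y => Subtype.ext (mul_add _ _ _)
      map_smul' := fun c x => Subtype.ext (mul_smul_comm _ _ _)
      invFun := fun x => ⟨u * x.1, A.mul_mem hu x.2.1, by rw [← mul_assoc, h3],
        by rw [mul_assoc, x.2.2.2]⟩
      left_inv := fun x => Subtype.ext (by
        change u * (v * x.1) = x.1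
        rw [← mul_assoc, h1, x.2.2.1])
      right_inv := fun x => Subtype.ext (by
        change v * (u * x.1) = x.1
        rw [← mul_assoc, h2, x.2.2.1]) }

lemma hd_add (he : IsObj A e) (hf : IsObj A f) (h1 : e * f = 0) (h2 : f * e = 0) :
    hd A T (e + f) = hd A T e + hd A T f := by
  rw [hd, hd, hd, ← Module.finrank_prod]
  refine LinearEquiv.finrank_eq
    { toFun := fun x => (⟨e * x.1, A.mul_mem he.mem x.2.1, by rw [← mul_assoc, he.idem],
        by rw [mul_assoc, x.2.2.2]⟩, ⟨f * x.1, A.mul_mem hf.mem x.2.1, by rw [← mul_assoc, hf.idem],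
        by rw [mul_assoc, x.2.2.2]⟩)
      map_add' := fun x y => Prod.ext (Subtype.ext (mul_add _ _ _)) (Subtype.ext (mul_add _ _ _))
      map_smul' := fun c x => Prod.ext (Subtype.ext (mul_smul_comm _ _ _))
        (Subtype.ext (mul_smul_comm _ _ _))
      invFun := fun x => ⟨x.1.1 + x.2.1, A.add_mem x.1.2.1 x.2.2.1, by
        have e1 := x.1.2.2.1
        have e2 := x.2.2.2.1
        have e3 : e * x.2.1 = 0 := by rw [← e2, ← mul_assoc, h1, zero_mul]
        have e4 : f * x.1.1 = 0 := by rw [← e1, ← mul_assoc, h2, zero_mul]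
        rw [add_mul, mul_add, mul_add, e1, e2, e3, e4]; simp,
        by rw [add_mul, x.1.2.2.2, x.2.2.2.2]⟩
      left_inv := fun x => Subtype.ext (by
        change e * x.1 + f * x.1 = x.1
        rw [← add_mul, x.2.2.1])
      right_inv := fun x => by
        have e1 := x.1.2.2.1
        have e2 := x.2.2.2.1
        have e3 : e * x.2.1 = 0 := by rw [← e2, ← mul_assoc, h1, zero_mul]
        have e4 : f * x.1.1 = 0 := by rw [← e1, ← mul_assoc, h2, zero_mul]
        refine Prod.ext (Subtype.ext ?_) (Subtype.ext ?_)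
        · change e * (x.1.1 + x.2.1) = x.1.1
          rw [mul_add, e1, e3, add_zero]
        · change f * (x.1.1 + x.2.1) = x.2.1
          rw [mul_add, e2, e4, zero_add] }

lemma hd_zero : hd A T (0 : End F V) = 0 := by
  rw [hd, finrank_eq_zero_iff_of_free]
  constructor
  rintro ⟨x, hx⟩ ⟨y, hy⟩
  apply Subtype.ext
  change x = y
  rw [← hx.2.1, ← hy.2.1, zero_mul, zero_mul]

lemma hd_self_pos (he : IsObj A e) (h : e ≠ 0) : hd A e e ≠ 0 := by
  intro h0
  rw [hd, finrank_eq_zero_iff_of_free] at h0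
  have := h0.elim ⟨e, he.mem, he.idem, he.idem⟩ 0
  exact h (congrArg Subtype.val this)

lemma hd_self_eq_zero_iff (he : IsObj A e) : hd A e e = 0 ↔ e = 0 :=
  ⟨fun h => by_contra fun h' => hd_self_pos he h' h, fun h => by rw [h]; exact hd_zero⟩

/-- An operator which is bijective between the images of idempotents is invertible. -/
lemma exists_inv (hA : Reg A) (he : IsObj A e) (hf : IsObj A f) {a : End F V} (ha : a ∈ A)
    (hfa : f * a = a) (hae : a * e = a) (hinj : ∀ x, e x = x → a x = 0 → x = 0)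
    (hsurj : ∀ y, f y = y → ∃ x, a x = y) :
    ∃ c ∈ A, c * a = e ∧ a * c = f ∧ e * c = c ∧ c * f = c := by
  obtain ⟨b, hb, hab⟩ := hA a ha
  set c := e * b * f with hc
  have hcA : c ∈ A := A.mul_mem (A.mul_mem he.mem hb) hf.mem
  have haca : a * c * a = a := by
    rw [hc, ← mul_assoc, ← mul_assoc, hae, mul_assoc _ f, hfa, hab]
  have hec : e * c = c := by rw [hc, ← mul_assoc, ← mul_assoc, he.idem]
  have hcf : c * f = c := by rw [hc, mul_assoc, hf.idem]
  have h1 : c * a = e := by
    apply LinearMap.ext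
    intro x
    have h2 : e ((c * a) x - e x) = (c * a) x - e x := by
      rw [map_sub, ← Module.End.mul_apply, ← mul_assoc, hec, ← Module.End.mul_apply, he.idem]
    have h3 : a ((c * a) x - e x) = 0 := by
      rw [map_sub, ← Module.End.mul_apply, ← mul_assoc, haca, ← Module.End.mul_apply, hae, sub_self]
    exact sub_eq_zero.1 (hinj _ h2 h3)
  have h2 : a * c = f := by
    apply LinearMap.ext
    intro y
    obtain ⟨x, hx⟩ := hsurj (f y) (by rw [← Module.End.mul_apply, hf.idem])
    have h3 : (a * c) y = (a * c) (f y) := by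
      rw [← Module.End.mul_apply (a * c) f, mul_assoc, hcf]
    rw [h3, ← hx, ← Module.End.mul_apply, haca]
  exact ⟨c, hcA, h1, h2, hec, hcf⟩

/-- An operator which is bijective between the images of idempotents gives an equivalence. -/
lemma eqv_of_bij (hA : Reg A) (he : IsObj A e) (hf : IsObj A f) {a : End F V} (ha : a ∈ A)
    (hfa : f * a = a) (hae : a * e = a) (hinj : ∀ x, e x = x → a x = 0 → x = 0)
    (hsurj : ∀ y, f y = y → ∃ x, a x = y) : Eqv A e f := by
  obtain ⟨c, hc, h1, h2, h3, h4⟩ := exists_inv hA he hf ha hfa hae hinj hsurj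
  exact ⟨c, hc, a, ha, h1, h2, h3, h4, hfa, hae⟩

/-- The image of an operator of the algebra is the image of an idempotent. -/
lemma exists_range (hA : Reg A) {a : End F V} (ha : a ∈ A) :
    ∃ l, IsObj A l ∧ l * a = a ∧ LinearMap.range l = LinearMap.range a := by
  obtain ⟨b, hb, hab⟩ := hA a ha
  refine ⟨a * b, ⟨A.mul_mem ha hb, by rw [← mul_assoc, hab]⟩, hab, ?_⟩
  apply le_antisymm
  · rintro _ ⟨x, rfl⟩
    exact ⟨b x, rfl⟩
  · rintro _ ⟨x, rfl⟩
    exact ⟨a x, by rw [← Module.End.mul_apply, hab]⟩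

/-- There is a minimal nonzero idempotent below a nonzero idempotent. -/
lemma exists_min (he : IsObj A e) (h : e ≠ 0) :
    ∃ s, IsObj A s ∧ s ≠ 0 ∧ e * s = s ∧ s * e = s ∧
      ∀ g, IsObj A g → g ≠ 0 → s * g = g → g * s = g → g = s := by
  classical
  have hex : ∃ n, ∃ s, IsObj A s ∧ s ≠ 0 ∧ e * s = s ∧ s * e = s ∧
      finrank F (LinearMap.range s) = n :=
    ⟨_, e, he, h, he.idem, he.idem, rfl⟩
  obtain ⟨s, hs, hs0, h1, h2, h3⟩ := Nat.find_spec hex
  refine ⟨s, hs, hs0, h1, h2, fun g hg hg0 h4 h5 => ?_⟩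
  have h6 : LinearMap.range g ≤ LinearMap.range s := by
    rintro _ ⟨x, rfl⟩
    exact ⟨g x, by rw [← Module.End.mul_apply, h4]⟩
  have h7 : Nat.find hex ≤ finrank F (LinearMap.range g) :=
    Nat.find_min' hex ⟨g, hg, hg0, by rw [← h4, ← mul_assoc, h1], by
      rw [← h5, mul_assoc, h2], rfl⟩
  rw [← h3] at h7
  have h8 : LinearMap.range g = LinearMap.range s := Submodule.eq_of_le_of_finrank_le h6 h7
  have h9 : g * s = s := by
    apply LinearMap.ext
    intro x
    have : s x ∈ LinearMap.range g := h8 ▸ ⟨x, rfl⟩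
    obtain ⟨y, hy⟩ := this
    rw [Module.End.mul_apply, ← hy, ← Module.End.mul_apply, hg.idem]
  rw [← h5, h9]

/-- **Idempotents with the same numbers of homomorphisms are equivalent.** -/
theorem eqv_of_hd (hA : Reg A) (he : IsObj A e) (hf : IsObj A f)
    (h : ∀ T, IsObj A T → hd A T e = hd A T f) : Eqv A e f := by
  obtain ⟨n, hn⟩ : ∃ n, finrank F (LinearMap.range e) = n := ⟨_, rfl⟩
  induction n using Nat.strong_induction_on generalizing e f with
  | _ n ih =>
    by_cases he0 : e = 0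
    · have hf0 : f = 0 := by
        rw [← hd_self_eq_zero_iff hf, ← h f hf, he0, hd_zero]
      rw [he0, hf0]
      exact Eqv.refl IsObj.zero
    · obtain ⟨s, hsO, hs0, hes, hse, hmin⟩ := exists_min he he0
      have h1 : hd A s f ≠ 0 := by
        rw [← h s hsO]
        intro h0
        rw [hd, finrank_eq_zero_iff_of_free] at h0
        have := h0.elim ⟨s, hsO.mem, hes, hsO.idem⟩ 0
        exact hs0 (congrArg Subtype.val this)
      obtain ⟨x, hx0⟩ : ∃ x : hs A s f, x ≠ 0 := by
        by_contra hcon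
        push Not at hcon
        apply h1
        rw [hd, finrank_eq_zero_iff_of_free]
        exact ⟨fun a b => (hcon a).trans (hcon b).symm⟩
      obtain ⟨x, hxA, hfx, hxs⟩ := x
      have hx0' : x ≠ 0 := fun h0 => hx0 (Subtype.ext h0)
      obtain ⟨y, hyA, hxy⟩ := hA x hxA
      set z := s * y * f with hz
      have hzA : z ∈ A := A.mul_mem (A.mul_mem hsO.mem hyA) hf.mem
      have hxzx : x * z * x = x := by
        rw [hz, ← mul_assoc, ← mul_assoc, hxs, mul_assoc _ f, hfx, hxy]
      have hsz : s * z = z := by rw [hz, ← mul_assoc, ← mul_assoc, hsO.idem]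
      have hzf : z * f = z := by rw [hz, mul_assoc, hf.idem]
      have hzx : z * x = s := by
        apply hmin (z * x) ⟨A.mul_mem hzA hxA, by rw [← mul_assoc, mul_assoc z x z, mul_assoc z,
          hxzx]⟩
        · intro h0
          apply hx0'
          rw [← hxzx, mul_assoc, h0, mul_zero]
        · rw [← mul_assoc, hsz]
        · rw [mul_assoc, hxs]
      set t := x * z with ht
      have htobj : IsObj A t := ⟨A.mul_mem hxA hzA, by rw [ht, ← mul_assoc, hxzx]⟩
      have hft : f * t = t := by rw [ht, ← mul_assoc, hfx]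
      have htf : t * f = t := by rw [ht, mul_assoc, hzf]
      have hst : Eqv A s t := by
        refine ⟨z, hzA, x, hxA, hzx, rfl, hsz, ?_, ?_, hxs⟩
        · rw [ht, ← mul_assoc, hzx, hsz]
        · rw [ht]
          exact hxzx
      have he1 : IsObj A (e - s) := he.sub hsO hes hse
      have hf1 : IsObj A (f - t) := hf.sub htobj hft htf
      have o1 : s * (e - s) = 0 := by rw [mul_sub, hse, hsO.idem, sub_self]
      have o2 : (e - s) * s = 0 := by rw [sub_mul, hes, hsO.idem, sub_self]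
      have o3 : t * (f - t) = 0 := by rw [mul_sub, htf, htobj.idem, sub_self]
      have o4 : (f - t) * t = 0 := by rw [sub_mul, hft, htobj.idem, sub_self]
      have key : Eqv A (e - s) (f - t) := by
        refine ih (finrank F (LinearMap.range (e - s))) ?_ he1 hf1 ?_ rfl
        · rw [← hn]
          apply Submodule.finrank_lt_finrank_of_lt
          refine lt_of_le_of_ne ?_ ?_
          · rintro _ ⟨w, rfl⟩
            exact ⟨(e - s) w, by rw [← Module.End.mul_apply, mul_sub, he.idem, hes]⟩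
          · intro heq
            apply hs0
            apply LinearMap.ext
            intro w
            have hw : s w ∈ LinearMap.range (e - s) := by
              rw [heq]
              exact ⟨s w, by rw [← Module.End.mul_apply, hes]⟩
            obtain ⟨w', hw'⟩ := hw
            have : s (s w) = 0 := by rw [← hw', ← Module.End.mul_apply, o1, LinearMap.zero_apply]
            rwa [← Module.End.mul_apply, hsO.idem] at this
        · intro T hT
          have a1 := hd_add (T := T) hsO he1 o1 o2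
          have a2 := hd_add (T := T) htobj hf1 o3 o4
          rw [add_sub_cancel] at a1 a2
          have a3 := h T hT
          have a4 := hd_congr (T := T) hst
          omega
      have := hst.add key o1 o2 o3 o4
      rwa [add_sub_cancel, add_sub_cancel] at this

/-- Sums of orthogonal idempotents. -/
lemma IsObj.sum {ι : Type*} [DecidableEq ι] (s : Finset ι) {e : ι → End F V}
    (he : ∀ i, IsObj A (e i)) (h : ∀ i j, i ≠ j → e i * e j = 0) :
    IsObj A (∑ i ∈ s, e i) ∧ (∀ i ∉ s, e i * ∑ j ∈ s, e j = 0 ∧ (∑ j ∈ s, e j) * e i = 0) ∧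
      ∀ i ∈ s, e i * ∑ j ∈ s, e j = e i ∧ (∑ j ∈ s, e j) * e i = e i := by
  refine ⟨⟨A.sum_mem fun i _ => (he i).mem, ?_⟩, fun i hi => ⟨?_, ?_⟩, fun i hi => ⟨?_, ?_⟩⟩
  · rw [Finset.sum_mul]
    refine Finset.sum_congr rfl fun i hi => ?_
    rw [Finset.mul_sum, Finset.sum_eq_single_of_mem i hi fun j _ hj => h i j hj.symm, (he i).idem]
  · rw [Finset.mul_sum]
    exact Finset.sum_eq_zero fun j hj => h i j fun hij => hi (hij ▸ hj)
  · rw [Finset.sum_mul]
    exact Finset.sum_eq_zero fun j hj => h j i fun hij => hi (hij ▸ hj)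
  · rw [Finset.mul_sum, Finset.sum_eq_single_of_mem i hi fun j _ hj => h i j hj.symm, (he i).idem]
  · rw [Finset.sum_mul, Finset.sum_eq_single_of_mem i hi fun j _ hj => h j i hj, (he i).idem]

lemma hd_sum {ι : Type*} [DecidableEq ι] (s : Finset ι) {e : ι → End F V}
    (he : ∀ i, IsObj A (e i)) (h : ∀ i j, i ≠ j → e i * e j = 0) :
    hd A T (∑ i ∈ s, e i) = ∑ i ∈ s, hd A T (e i) := by
  induction s using Finset.induction_on with
  | empty => simp [hd_zero]
  | insert a s ha ih =>
    obtain ⟨h1, h2, -⟩ := IsObj.sum (A := A) s he h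
    rw [Finset.sum_insert ha, Finset.sum_insert ha, hd_add (he a) h1 (h2 a ha).1 (h2 a ha).2, ih]

end Pool.Agent.Y121.OV
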