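import Pool.Agent.Y121.OV.Lag

/-!
# The signature argument
-/

open Module

namespace Pool.Agent.Y121.OV

set_option linter.unusedSectionVars false

variable {V : Type*} [AddCommGroup V] [Module ℚ V] [FiniteDimensional ℚ V]

namespace Pair

variable {A : Subalgebra ℚ (End ℚ V)} {q B : V →ₗ[ℚ] V →ₗ[ℚ] ℚ} {h : V → V → ℝ} {c : ℝ} {m : ℕ}
  {p r : ℤ → End ℚ V} {L : End ℚ V} {ε : ℤ → ℚ} {Φ Ψ : End ℚ V}
  (H : Pair A q B h c m p r L ε Φ Ψ)

include H

lemma h_sum_left {ι : Type*} (s : Finset ι) (f : ι → V) (z : V) :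
    h (∑ i ∈ s, f i) z = ∑ i ∈ s, h (f i) z :=
  map_sum (AddMonoidHom.mk' (fun x => h x z) fun x y => H.add_left x y z) f s

lemma h_sum_right {ι : Type*} (s : Finset ι) (f : ι → V) (z : V) :
    h z (∑ i ∈ s, f i) = ∑ i ∈ s, h z (f i) :=
  map_sum (AddMonoidHom.mk' (fun x => h z x) fun x y => H.add_right z x y) f s

lemma h_sub_left (x y z : V) : h (x - y) z = h x z - h y z :=
  map_sub (AddMonoidHom.mk' (fun x => h x z) fun x y => H.add_left x y z) x y

lemma h_zero_left (z : V) : h 0 z = 0 :=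
  map_zero (AddMonoidHom.mk' (fun x => h x z) fun x y => H.add_left x y z)

/-- The comparison of the real forms. -/
lemma h_eq {e d : ℕ → End ℚ V} (he : ∀ j, IsObj A (e j)) (hd : ∀ j, IsObj A (d j))
    (hes : ∑ j ∈ Finset.range (m + 1), e j = p 0) (hds : ∑ j ∈ Finset.range (m + 1), d j = r 0)
    (hep : ∀ j, p 0 * e j = e j ∧ e j * p 0 = e j) (hdr : ∀ j, r 0 * d j = d j ∧ d j * r 0 = d j)
    (heq : ∀ i j x y, i ≠ j → q (e i x) (e j y) = 0)
    (hdq : ∀ i j x y, i ≠ j → q (d i x) (d j y) = 0) {w : End ℚ V} (hw : w ∈ A)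
    (hpw : (p 0 + r 0) * w = w) (hiso : ∀ x y, q (((p 0 - r 0) * w) x) (w y) = 0) (x : V) :
    ∑ j ∈ Finset.range (m + 1), h (e j (w x)) (e j (w x)) =
      ∑ j ∈ Finset.range (m + 1), h (d j (w x)) (d j (w x)) := by
  set z := w x with hz
  have h1 : h (((p 0 - r 0) * w) x) z = 0 :=
    H.hJ _ (A.mul_mem (A.sub_mem (H.X.mem 0) (H.Y.mem 0)) hw) w hw hiso x x
  have h2 : ((p 0 - r 0) * w) x = p 0 z - r 0 z := rfl
  have h3 : z = p 0 z + r 0 z := by
    conv_lhs => rw [hz, ← hpw]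
    rfl
  have hpe : p 0 z = ∑ j ∈ Finset.range (m + 1), e j z := by rw [← hes, LinearMap.sum_apply]
  have hrd : r 0 z = ∑ j ∈ Finset.range (m + 1), d j z := by rw [← hds, LinearMap.sum_apply]
  have hee : ∀ i j, i ≠ j → h (e i z) (e j z) = 0 := fun i j hij =>
    H.hJ _ (he i).mem _ (he j).mem (fun a b => heq i j a b hij) z z
  have hdd : ∀ i j, i ≠ j → h (d i z) (d j z) = 0 := fun i j hij =>
    H.hJ _ (hd i).mem _ (hd j).mem (fun a b => hdq i j a b hij) z z
  have hp0 : ∀ j b, p 0 (d j b) = 0 := fun j b => by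
    have : p 0 * d j = 0 := by rw [← (hdr j).1, ← mul_assoc, H.pr, zero_mul]
    rw [← Module.End.mul_apply, this, LinearMap.zero_apply]
  have hr0 : ∀ j b, r 0 (e j b) = 0 := fun j b => by
    have : r 0 * e j = 0 := by rw [← (hep j).1, ← mul_assoc, H.rp, zero_mul]
    rw [← Module.End.mul_apply, this, LinearMap.zero_apply]
  have hed : ∀ i j, h (e i z) (d j z) = 0 := fun i j =>
    H.hJ _ (he i).mem _ (hd j).mem (fun a b => by
      rw [← (hep i).1, Module.End.mul_apply, H.X.q_left, neg_zero, hp0, map_zero]) z z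
  have hde : ∀ i j, h (d i z) (e j z) = 0 := fun i j =>
    H.hJ _ (hd i).mem _ (he j).mem (fun a b => by
      rw [← (hdr i).1, Module.End.mul_apply, H.Y.q_left, neg_zero, hr0, map_zero]) z z
  have hzz : ∀ u, h u z = ∑ j ∈ Finset.range (m + 1), h u (e j z) +
      ∑ j ∈ Finset.range (m + 1), h u (d j z) := fun u => by
    calc h u z = h u (p 0 z + r 0 z) := congrArg _ h3
      _ = _ := by rw [H.add_right, hpe, hrd, H.h_sum_right, H.h_sum_right]
  have a1 : h (p 0 z) z = ∑ j ∈ Finset.range (m + 1), h (e j z) (e j z) := by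
    rw [hpe, H.h_sum_left]
    refine Finset.sum_congr rfl fun i hi => ?_
    rw [hzz, Finset.sum_eq_single_of_mem i hi fun j _ hj => hee i j hj.symm,
      Finset.sum_eq_zero fun j _ => hed i j, add_zero]
  have a2 : h (r 0 z) z = ∑ j ∈ Finset.range (m + 1), h (d j z) (d j z) := by
    rw [hrd, H.h_sum_left]
    refine Finset.sum_congr rfl fun i hi => ?_
    rw [hzz, Finset.sum_eq_zero fun j _ => hde i j,
      Finset.sum_eq_single_of_mem i hi fun j _ hj => hdd i j hj.symm, zero_add]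
  rw [h2, H.h_sub_left, a1, a2] at h1
  linarith

/-- The comparison of the dimensions. -/
lemma eqv_signs {w : End ℚ V} (hw : w ∈ A) {P N : End ℚ V} (hP : IsObj A P) (hN : IsObj A N)
    (hrk : rk P + rk N ≤ 2 * rk w) (hPw : ∀ x, P (w x) = 0 → w x = 0)
    (hNw : ∀ x, N (w x) = 0 → w x = 0) : Eqv A P N := by
  have hle : ∀ Q : End ℚ V, (∀ x, Q (w x) = 0 → w x = 0) → rk w ≤ rk Q ∧ rk (Q * w) = rk w := by
    intro Q hQ
    have hk : LinearMap.ker (Q * w) = LinearMap.ker w := by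
      ext x
      rw [LinearMap.mem_ker, LinearMap.mem_ker, Module.End.mul_apply]
      exact ⟨hQ x, fun h => by rw [h, map_zero]⟩
    have h1 := LinearMap.finrank_range_add_finrank_ker (Q * w)
    have h2 := LinearMap.finrank_range_add_finrank_ker w
    rw [hk] at h1
    have h3 : finrank ℚ (LinearMap.range (Q * w)) ≤ finrank ℚ (LinearMap.range Q) := by
      apply Submodule.finrank_mono
      rintro _ ⟨x, rfl⟩
      exact ⟨w x, rfl⟩
    constructor
    · change finrank ℚ (LinearMap.range w) ≤ finrank ℚ (LinearMap.range Q)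
      omega
    · change finrank ℚ (LinearMap.range (Q * w)) = finrank ℚ (LinearMap.range w)
      omega
  obtain ⟨l, hl, hlw, hrange⟩ := exists_range H.reg hw
  have key : ∀ Q : End ℚ V, IsObj A Q → (∀ x, Q (w x) = 0 → w x = 0) → rk Q = rk w →
      Eqv A l Q := by
    intro Q hQ hQw hQr
    have hlx : ∀ x, l x = x → ∃ y, w y = x := by
      intro x hx
      have : x ∈ LinearMap.range l := ⟨x, hx⟩
      rw [hrange] at this
      exact this
    refine eqv_of_bij H.reg hl hQ (a := Q * l) (A.mul_mem hQ.mem hl.mem)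
      (by rw [← mul_assoc, hQ.idem]) (by rw [mul_assoc, hl.idem]) ?_ ?_
    · intro x hx hx0
      obtain ⟨y, rfl⟩ := hlx x hx
      rw [Module.End.mul_apply, hx] at hx0
      exact hQw y hx0
    · intro y hy
      have h1 : LinearMap.range (Q * w) = LinearMap.range Q := by
        apply Submodule.eq_of_le_of_finrank_eq
        · rintro _ ⟨x, rfl⟩
          exact ⟨w x, rfl⟩
        · exact (hle Q hQw).2.trans hQr.symm
      have h2 : y ∈ LinearMap.range (Q * w) := by
        rw [h1]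
        exact ⟨y, hy⟩
      obtain ⟨x, hx⟩ := h2
      refine ⟨w x, ?_⟩
      rw [← hx, Module.End.mul_apply, ← Module.End.mul_apply l, hlw, Module.End.mul_apply]
  have h1 := (hle P hPw).1
  have h2 := (hle N hNw).1
  exact (key P hP hPw (by omega)).symm.trans (key N hN hNw (by omega))

/-- **The relation between the multiplicities in the middle cohomology.** -/
theorem signs : ∃ e d : ℕ → End ℚ V,
    (∀ j T, hd A T (e j) + hd A T (p (-((j + 1 : ℕ) : ℤ))) = hd A T (p (-j))) ∧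
    (∀ j T, hd A T (d j) + hd A T (r (-((j + 1 : ℕ) : ℤ))) = hd A T (r (-j))) ∧
    ∀ T, ∑ j ∈ (Finset.range (m + 1)).filter Even, hd A T (e j) +
      ∑ j ∈ (Finset.range (m + 1)).filter (¬ Even ·), hd A T (d j) =
      ∑ j ∈ (Finset.range (m + 1)).filter (¬ Even ·), hd A T (e j) +
      ∑ j ∈ (Finset.range (m + 1)).filter Even, hd A T (d j) := by
  obtain ⟨e, he, hee, hes, hep, heq, hepos, hehd⟩ := H.X.exists_e H.reg
  obtain ⟨d, hd', hdd, hds, hdr, hdq, hdpos, hdhd⟩ := H.Y.exists_e H.reg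
  obtain ⟨w, hw, hpw, hiso, hrk⟩ := H.exists_w
  refine ⟨e, d, hehd, hdhd, fun T => ?_⟩
  set ev := (Finset.range (m + 1)).filter Even with hev
  set od := (Finset.range (m + 1)).filter (¬ Even ·) with hod
  have hed : ∀ i j, e i * d j = 0 := fun i j => by
    rw [← (hep i).2, ← (hdr j).1, mul_assoc, ← mul_assoc (p 0), H.pr, zero_mul, mul_zero]
  have hde : ∀ i j, d i * e j = 0 := fun i j => by
    rw [← (hdr i).2, ← (hep j).1, mul_assoc, ← mul_assoc (r 0), H.rp, zero_mul, mul_zero]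
  have hsed : ∀ s t : Finset ℕ, (∑ j ∈ s, e j) * ∑ j ∈ t, d j = 0 := fun s t => by
    rw [Finset.sum_mul]
    refine Finset.sum_eq_zero fun i _ => ?_
    rw [Finset.mul_sum]
    exact Finset.sum_eq_zero fun j _ => hed i j
  have hsde : ∀ s t : Finset ℕ, (∑ j ∈ s, d j) * ∑ j ∈ t, e j = 0 := fun s t => by
    rw [Finset.sum_mul]
    refine Finset.sum_eq_zero fun i _ => ?_
    rw [Finset.mul_sum]
    exact Finset.sum_eq_zero fun j _ => hde i j
  have hE := fun s : Finset ℕ => IsObj.sum (A := A) s he hee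
  have hD := fun s : Finset ℕ => IsObj.sum (A := A) s hd' hdd
  -- the projections of a vector
  have hcomp : ∀ (s t : Finset ℕ) (z : V), ((∑ j ∈ s, e j) + ∑ j ∈ t, d j) z = 0 →
      (∀ j ∈ s, e j z = 0) ∧ ∀ j ∈ t, d j z = 0 := by
    intro s t z hz
    constructor
    · intro j hj
      have : e j * ((∑ j ∈ s, e j) + ∑ j ∈ t, d j) = e j := by
        rw [mul_add, ((hE s).2.2 j hj).1, Finset.mul_sum, Finset.sum_eq_zero fun i _ => hed j i,
          add_zero]
      rw [← this, Module.End.mul_apply, hz, map_zero]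
    · intro j hj
      have : d j * ((∑ j ∈ s, e j) + ∑ j ∈ t, d j) = d j := by
        rw [mul_add, ((hD t).2.2 j hj).1, Finset.mul_sum, Finset.sum_eq_zero fun i _ => hde j i,
          zero_add]
      rw [← this, Module.End.mul_apply, hz, map_zero]
  have hθ : ∀ (j : ℕ) (z : V), 0 ≤ c * (-1) ^ j * h (e j z) (e j z) ∧
      (c * (-1) ^ j * h (e j z) (e j z) = 0 → e j z = 0) := by
    intro j z
    by_cases hz : e j z = 0
    · rw [hz, H.h_zero_left, mul_zero]
      exact ⟨le_rfl, fun _ => rfl⟩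
    · have := hepos j z hz
      exact ⟨this.le, fun h0 => absurd h0 this.ne'⟩
  have hτ : ∀ (j : ℕ) (z : V), 0 ≤ c * (-1) ^ j * h (d j z) (d j z) ∧
      (c * (-1) ^ j * h (d j z) (d j z) = 0 → d j z = 0) := by
    intro j z
    by_cases hz : d j z = 0
    · rw [hz, H.h_zero_left, mul_zero]
      exact ⟨le_rfl, fun _ => rfl⟩
    · have := hdpos j z hz
      exact ⟨this.le, fun h0 => absurd h0 this.ne'⟩
  have hh := H.h_eq he hd' hes hds hep hdr heq hdq hw hpw hiso
  have hw0 : ∀ x, (∀ j ∈ Finset.range (m + 1), e j (w x) = 0) →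
      (∀ j ∈ Finset.range (m + 1), d j (w x) = 0) → w x = 0 := by
    intro x h1 h2
    have : w x = p 0 (w x) + r 0 (w x) := by
      conv_lhs => rw [← hpw]
      rfl
    rw [this, ← hes, ← hds, LinearMap.sum_apply, LinearMap.sum_apply, Finset.sum_eq_zero h1,
      Finset.sum_eq_zero h2, add_zero]
  have hsplit : ∀ f : ℕ → ℝ, ∑ j ∈ Finset.range (m + 1), f j = ∑ j ∈ ev, f j + ∑ j ∈ od, f j :=
    fun f => (Finset.sum_filter_add_sum_filter_not _ _ _).symm
  have hpar : ∀ j ∈ od, ((-1 : ℝ)) ^ j = -1 := fun j hj => by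
    rw [hod, Finset.mem_filter] at hj
    exact (Nat.not_even_iff_odd.1 hj.2).neg_one_pow
  have hpar' : ∀ j ∈ ev, ((-1 : ℝ)) ^ j = 1 := fun j hj => by
    rw [hev, Finset.mem_filter] at hj
    exact hj.2.neg_one_pow
  have hmem : ∀ j, j ∈ Finset.range (m + 1) ↔ j ∈ ev ∨ j ∈ od := fun j => by
    rw [hev, hod, Finset.mem_filter, Finset.mem_filter]
    tauto
  -- the two injectivity statements
  have hPw : ∀ x, ((∑ j ∈ ev, e j) + ∑ j ∈ od, d j) (w x) = 0 → w x = 0 := by
    intro x hx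
    obtain ⟨h1, h2⟩ := hcomp ev od (w x) hx
    have h3 := hh x
    rw [hsplit, hsplit, Finset.sum_eq_zero (s := ev) fun j hj => by rw [h1 j hj, H.h_zero_left],
      Finset.sum_eq_zero (s := od) (f := fun j => h (d j (w x)) (d j (w x)))
        fun j hj => by rw [h2 j hj, H.h_zero_left], zero_add, add_zero] at h3
    have h4 : ∑ j ∈ od, c * (-1) ^ j * h (e j (w x)) (e j (w x)) +
        ∑ j ∈ ev, c * (-1) ^ j * h (d j (w x)) (d j (w x)) = 0 := by
      rw [Finset.sum_congr rfl fun j hj => by rw [hpar j hj],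
        Finset.sum_congr (s₁ := ev) rfl fun j hj => by rw [hpar' j hj],
        ← Finset.mul_sum, ← Finset.mul_sum, h3]
      ring
    have h5 := Finset.sum_nonneg fun j (_ : j ∈ od) => (hθ j (w x)).1
    have h6 := Finset.sum_nonneg fun j (_ : j ∈ ev) => (hτ j (w x)).1
    have h7 : ∑ j ∈ od, c * (-1) ^ j * h (e j (w x)) (e j (w x)) = 0 := by linarith
    have h8 : ∑ j ∈ ev, c * (-1) ^ j * h (d j (w x)) (d j (w x)) = 0 := by linarith
    rw [Finset.sum_eq_zero_iff_of_nonneg fun j _ => (hθ j (w x)).1] at h7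
    rw [Finset.sum_eq_zero_iff_of_nonneg fun j _ => (hτ j (w x)).1] at h8
    refine hw0 x (fun j hj => ?_) (fun j hj => ?_)
    · rcases (hmem j).1 hj with h9 | h9
      · exact h1 j h9
      · exact (hθ j (w x)).2 (h7 j h9)
    · rcases (hmem j).1 hj with h9 | h9
      · exact (hτ j (w x)).2 (h8 j h9)
      · exact h2 j h9
  have hNw : ∀ x, ((∑ j ∈ od, e j) + ∑ j ∈ ev, d j) (w x) = 0 → w x = 0 := by
    intro x hx
    obtain ⟨h1, h2⟩ := hcomp od ev (w x) hx
    have h3 := hh x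
    rw [hsplit, hsplit, Finset.sum_eq_zero (s := od) fun j hj => by rw [h1 j hj, H.h_zero_left],
      Finset.sum_eq_zero (s := ev) (f := fun j => h (d j (w x)) (d j (w x)))
        fun j hj => by rw [h2 j hj, H.h_zero_left], zero_add, add_zero] at h3
    have h4 : ∑ j ∈ ev, c * (-1) ^ j * h (e j (w x)) (e j (w x)) +
        ∑ j ∈ od, c * (-1) ^ j * h (d j (w x)) (d j (w x)) = 0 := by
      rw [Finset.sum_congr rfl fun j hj => by rw [hpar' j hj],
        Finset.sum_congr (s₁ := od) rfl fun j hj => by rw [hpar j hj],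
        ← Finset.mul_sum, ← Finset.mul_sum, h3]
      ring
    have h5 := Finset.sum_nonneg fun j (_ : j ∈ ev) => (hθ j (w x)).1
    have h6 := Finset.sum_nonneg fun j (_ : j ∈ od) => (hτ j (w x)).1
    have h7 : ∑ j ∈ ev, c * (-1) ^ j * h (e j (w x)) (e j (w x)) = 0 := by linarith
    have h8 : ∑ j ∈ od, c * (-1) ^ j * h (d j (w x)) (d j (w x)) = 0 := by linarith
    rw [Finset.sum_eq_zero_iff_of_nonneg fun j _ => (hθ j (w x)).1] at h7
    rw [Finset.sum_eq_zero_iff_of_nonneg fun j _ => (hτ j (w x)).1] at h8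
    refine hw0 x (fun j hj => ?_) (fun j hj => ?_)
    · rcases (hmem j).1 hj with h9 | h9
      · exact (hθ j (w x)).2 (h7 j h9)
      · exact h1 j h9
    · rcases (hmem j).1 hj with h9 | h9
      · exact h2 j h9
      · exact (hτ j (w x)).2 (h8 j h9)
  have oP : IsObj A ((∑ j ∈ ev, e j) + ∑ j ∈ od, d j) :=
    (hE ev).1.add (hD od).1 (hsed _ _) (hsde _ _)
  have oN : IsObj A ((∑ j ∈ od, e j) + ∑ j ∈ ev, d j) :=
    (hE od).1.add (hD ev).1 (hsed _ _) (hsde _ _)
  have hrk' : rk ((∑ j ∈ ev, e j) + ∑ j ∈ od, d j) + rk ((∑ j ∈ od, e j) + ∑ j ∈ ev, d j) ≤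
      2 * rk w := by
    refine le_trans (le_of_eq ?_) hrk
    have h1 : (p 0 : End ℚ V) = ∑ j ∈ ev, e j + ∑ j ∈ od, e j := by
      rw [← hes]
      exact (Finset.sum_filter_add_sum_filter_not _ _ _).symm
    have h2 : (r 0 : End ℚ V) = ∑ j ∈ ev, d j + ∑ j ∈ od, d j := by
      rw [← hds]
      exact (Finset.sum_filter_add_sum_filter_not _ _ _).symm
    have : ((rk ((∑ j ∈ ev, e j) + ∑ j ∈ od, d j) + rk ((∑ j ∈ od, e j) + ∑ j ∈ ev, d j) : ℕ) : ℚ) =
        ((rk (p 0) + rk (r 0) : ℕ) : ℚ) := by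
      push_cast
      rw [rk_eq_trace oP.idem, rk_eq_trace oN.idem, rk_eq_trace (H.X.idem 0),
        rk_eq_trace (H.Y.idem 0), h1, h2, map_add, map_add, map_add, map_add]
      ring
    exact_mod_cast this
  have hPN := H.eqv_signs hw oP oN hrk' hPw hNw
  have h9 := hd_congr (T := T) hPN
  rw [hd_add (hE ev).1 (hD od).1 (hsed _ _) (hsde _ _),
    hd_add (hE od).1 (hD ev).1 (hsed _ _) (hsde _ _), hd_sum _ he hee, hd_sum _ hd' hdd,
    hd_sum _ he hee, hd_sum _ hd' hdd] at h9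
  exact h9

end Pair

end Pool.Agent.Y121.OV
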