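import Pool.Agent.Y121.OV.Reg

/-!
# The Lefschetz decomposition of the middle cohomology in a regular algebra
-/

open Module

namespace Pool.Agent.Y121.OV

set_option linter.unusedSectionVars false

variable {V : Type*} [AddCommGroup V] [Module ℚ V] [FiniteDimensional ℚ V]

/-- The cohomology of a variety in the degrees congruent to the dimension modulo two, `p j` being the
projection onto the part of degree `dim + 2 j`, with the Lefschetz operator `L`, the intersection
form `q` and the real form `h`, `h x y = q (x, J y)`, for the Weil operator `J`. -/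
structure Side (A : Subalgebra ℚ (End ℚ V)) (q : V →ₗ[ℚ] V →ₗ[ℚ] ℚ) (h : V → V → ℝ) (c : ℝ)
    (m : ℕ) (p : ℤ → End ℚ V) (L : End ℚ V) : Prop where
  mem : ∀ j, p j ∈ A
  idem : ∀ j, p j * p j = p j
  orth : ∀ i j, i ≠ j → p i * p j = 0
  out : ∀ j : ℤ, (m : ℤ) < |j| → p j = 0
  L_mem : L ∈ A
  L_p : ∀ j, L * p j = p (j + 1) * L
  inj : ∀ (j : ℕ) (x : V), (L ^ (2 * j)) (p (-j) x) = 0 → p (-j) x = 0
  surj : ∀ (j : ℕ) (y : V), ∃ x, (L ^ (2 * j)) (p (-j) x) = p j y
  q_left : ∀ j x y, q (p j x) y = q (p j x) (p (-j) y)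
  q_right : ∀ j x y, q x (p j y) = q (p (-j) x) (p j y)
  q_L : ∀ x y, q (L x) y = q x (L y)
  nondeg : ∀ j x, (∀ y, q (p j x) y = 0) → p j x = 0
  hr : ∀ (j : ℕ) (x : V), (L ^ (2 * j + 1)) (p (-j) x) = 0 → (L ^ j) (p (-j) x) ≠ 0 →
    0 < c * (-1) ^ j * h ((L ^ j) (p (-j) x)) ((L ^ j) (p (-j) x))

namespace Side

variable {A : Subalgebra ℚ (End ℚ V)} {q : V →ₗ[ℚ] V →ₗ[ℚ] ℚ} {h : V → V → ℝ} {c : ℝ} {m : ℕ}
  {p : ℤ → End ℚ V} {L : End ℚ V} (S : Side A q h c m p L)

include S

lemma obj (j : ℤ) : IsObj A (p j) := ⟨S.mem j, S.idem j⟩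

lemma L_pow (k : ℕ) (j : ℤ) : L ^ k * p j = p (j + k) * L ^ k := by
  induction k generalizing j with
  | zero => simp
  | succ k ih =>
    rw [pow_succ, mul_assoc, S.L_p, ← mul_assoc, ih, mul_assoc]
    congr 2
    push_cast
    ring

/-- The inverses of the powers of `L`. -/
lemma exists_c (hA : Reg A) (j : ℕ) :
    ∃ c ∈ A, c * (L ^ (2 * j) * p (-j)) = p (-j) ∧ (L ^ (2 * j) * p (-j)) * c = p j ∧
      p (-j) * c = c ∧ c * p j = c := by
  refine exists_inv hA (S.obj _) (S.obj _) (A.mul_mem (pow_mem S.L_mem _) (S.mem _)) ?_ ?_ ?_ ?_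
  · rw [S.L_pow, ← mul_assoc]
    have : -(j : ℤ) + ((2 * j : ℕ) : ℤ) = j := by push_cast; ring
    rw [this, S.idem]
  · rw [mul_assoc, S.idem]
  · intro x hx h0
    rw [← hx]
    exact S.inj j x h0
  · intro y hy
    obtain ⟨x, hx⟩ := S.surj j y
    exact ⟨x, by rw [Module.End.mul_apply, hx, hy]⟩

/-- The projections onto `L ^ j H ^ (n - 2 j)`. -/
lemma exists_g (hA : Reg A) : ∃ g : ℕ → End ℚ V, (∀ j, IsObj A (g j)) ∧
    (∀ i j, i ≤ j → g i * g j = g j ∧ g j * g i = g j) ∧
    (∀ j, L ^ j * g j = L ^ j * p 0) ∧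
    (∀ j, ∃ a : End ℚ V, g j = L ^ j * (p (-j) * a)) ∧
    (∀ j, Eqv A (g j) (p (-j))) ∧ g 0 = p 0 ∧ ∀ j, m < j → g j = 0 := by
  choose c hcA h1 h2 h3 h4 using fun j => S.exists_c hA j
  have e1 : ∀ j : ℕ, p 0 * L ^ j = L ^ j * p (-j) := fun j => by
    rw [S.L_pow]
    congr 2
    ring
  have e2 : ∀ j : ℕ, L ^ j * p 0 = p j * L ^ j := fun j => by
    rw [S.L_pow, zero_add]
  have hp0 : ∀ j, p 0 * (L ^ j * c j) = L ^ j * c j := fun j => by
    rw [← mul_assoc, e1, mul_assoc, h3]
  have hLLc : ∀ j, L ^ (2 * j) * c j = p j := fun j => by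
    rw [← h2 j, mul_assoc, h3]
  have hcLL : ∀ j, c j * L ^ (2 * j) * p (-j) = p (-j) := fun j => by
    rw [mul_assoc, h1]
  have key1 : ∀ i j, i ≤ j → (L ^ i * c i * L ^ i * p 0) * (L ^ j * c j * L ^ j * p 0) =
      L ^ j * c j * L ^ j * p 0 := by
    intro i j hij
    obtain ⟨k, rfl⟩ := Nat.exists_eq_add_of_le hij
    have a1 : L ^ k * c (i + k) = p (-i) * (L ^ k * c (i + k)) := by
      have : -((i + k : ℕ) : ℤ) + (k : ℤ) = -i := by push_cast; ring
      rw [← h3 (i + k), ← mul_assoc, S.L_pow, this, ← mul_assoc, ← mul_assoc, S.idem]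
    calc (L ^ i * c i * L ^ i * p 0) * (L ^ (i + k) * c (i + k) * L ^ (i + k) * p 0)
        = L ^ i * c i * L ^ i * (p 0 * (L ^ (i + k) * c (i + k))) * L ^ (i + k) * p 0 := by
          simp only [mul_assoc]
      _ = L ^ i * (c i * L ^ (2 * i)) * (L ^ k * c (i + k)) * L ^ (i + k) * p 0 := by
          rw [hp0, pow_add L i k, two_mul, pow_add L i i]
          simp only [mul_assoc]
      _ = L ^ i * (c i * L ^ (2 * i) * p (-i)) * (L ^ k * c (i + k)) * L ^ (i + k) * p 0 := by
          conv_lhs => rw [a1]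
          simp only [mul_assoc]
      _ = L ^ i * (p (-i) * (L ^ k * c (i + k))) * L ^ (i + k) * p 0 := by
          rw [hcLL]
          simp only [mul_assoc]
      _ = _ := by
          rw [← a1, pow_add L i k]
          simp only [mul_assoc]
  have key2 : ∀ i j, i ≤ j → (L ^ j * c j * L ^ j * p 0) * (L ^ i * c i * L ^ i * p 0) =
      L ^ j * c j * L ^ j * p 0 := by
    intro i j hij
    obtain ⟨k, rfl⟩ := Nat.exists_eq_add_of_le hij
    calc (L ^ (i + k) * c (i + k) * L ^ (i + k) * p 0) * (L ^ i * c i * L ^ i * p 0)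
        = L ^ (i + k) * c (i + k) * L ^ (i + k) * (p 0 * (L ^ i * c i)) * L ^ i * p 0 := by
          simp only [mul_assoc]
      _ = L ^ (i + k) * c (i + k) * L ^ k * (L ^ (2 * i) * c i) * L ^ i * p 0 := by
          rw [hp0, add_comm i k, pow_add L k i, two_mul, pow_add L i i]
          simp only [mul_assoc]
      _ = L ^ (i + k) * c (i + k) * L ^ k * (p i * L ^ i) * p 0 := by
          rw [hLLc]
          simp only [mul_assoc]
      _ = _ := by
          rw [← e2, add_comm i k, pow_add L k i]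
          simp only [mul_assoc, S.idem]
  refine ⟨fun j => L ^ j * c j * L ^ j * p 0, fun j => ⟨?_, key1 j j le_rfl⟩,
    fun i j hij => ⟨key1 i j hij, key2 i j hij⟩, ?_, ?_, ?_, ?_, ?_⟩
  · exact A.mul_mem (A.mul_mem (A.mul_mem (pow_mem S.L_mem _) (hcA j)) (pow_mem S.L_mem _))
      (S.mem 0)
  · intro j
    calc L ^ j * (L ^ j * c j * L ^ j * p 0) = (L ^ (2 * j) * c j) * (L ^ j * p 0) := by
          rw [two_mul, pow_add]
          simp only [mul_assoc]
      _ = _ := by rw [hLLc, e2, ← mul_assoc, S.idem]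
  · intro j
    exact ⟨c j * L ^ j * p 0, by
      change L ^ j * c j * L ^ j * p 0 = _
      rw [← mul_assoc (p _), ← mul_assoc (p _), h3]
      simp only [mul_assoc]⟩
  · intro j
    have g1 : (L ^ j * p (-j)) * (c j * L ^ j * p 0) = L ^ j * c j * L ^ j * p 0 := by
      calc (L ^ j * p (-j)) * (c j * L ^ j * p 0) = L ^ j * (p (-j) * c j) * L ^ j * p 0 := by
            simp only [mul_assoc]
        _ = _ := by rw [h3]
    have g2 : (c j * L ^ j * p 0) * (L ^ j * p (-j)) = p (-j) := by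
      calc (c j * L ^ j * p 0) * (L ^ j * p (-j)) = c j * L ^ j * (p 0 * L ^ j) * p (-j) := by
            simp only [mul_assoc]
        _ = c j * (L ^ j * L ^ j) * (p (-j) * p (-j)) := by
            rw [e1]
            simp only [mul_assoc]
        _ = _ := by rw [← pow_add, ← two_mul, S.idem, hcLL]
    refine ⟨L ^ j * p (-j), A.mul_mem (pow_mem S.L_mem _) (S.mem _), c j * L ^ j * p 0,
      A.mul_mem (A.mul_mem (hcA j) (pow_mem S.L_mem _)) (S.mem 0), g1, g2, ?_, ?_, ?_, ?_⟩
    · beta_reduce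
      rw [← g1, mul_assoc, g2, mul_assoc, S.idem]
    · rw [mul_assoc, S.idem]
    · rw [← mul_assoc, ← mul_assoc, h3]
    · beta_reduce
      rw [← g1, ← mul_assoc, g2, ← mul_assoc, ← mul_assoc, h3]
  · change L ^ 0 * c 0 * L ^ 0 * p 0 = p 0
    have := h1 0
    simp only [mul_zero, pow_zero, one_mul, Nat.cast_zero, neg_zero] at this
    rw [pow_zero, one_mul, mul_one, this]
  · intro j hj
    have : p (-j) = 0 := S.out _ (by
      rw [abs_neg, Nat.abs_cast]
      exact_mod_cast hj)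
    change L ^ j * c j * L ^ j * p 0 = 0
    rw [← h3 j, this, zero_mul, mul_zero, zero_mul, zero_mul]

/-- The projections onto the parts of the Lefschetz decomposition of the middle cohomology. -/
lemma exists_e (hA : Reg A) : ∃ e : ℕ → End ℚ V, (∀ j, IsObj A (e j)) ∧
    (∀ i j, i ≠ j → e i * e j = 0) ∧ ∑ j ∈ Finset.range (m + 1), e j = p 0 ∧
    (∀ j, p 0 * e j = e j ∧ e j * p 0 = e j) ∧
    (∀ i j x y, i ≠ j → q (e i x) (e j y) = 0) ∧
    (∀ j x, e j x ≠ 0 → 0 < c * (-1) ^ j * h (e j x) (e j x)) ∧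
    (∀ j T, hd A T (e j) + hd A T (p (-((j + 1 : ℕ) : ℤ))) = hd A T (p (-j))) := by
  obtain ⟨g, hobj, hgg, hL, ha, heqv, h0, hout⟩ := S.exists_g hA
  have hp : ∀ j, p 0 * g j = g j ∧ g j * p 0 = g j := fun j => by
    rw [← h0]
    exact hgg 0 j (Nat.zero_le _)
  -- self-adjointness
  have hadj1 : ∀ j x y, p 0 y = y → (L ^ j) y = 0 → q (g j x) y = 0 := by
    intro j x y _ hy'
    obtain ⟨a, ha'⟩ := ha j
    rw [ha', Module.End.mul_apply]
    have : ∀ (k : ℕ) (u w : V), q ((L ^ k) u) w = q u ((L ^ k) w) := by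
      intro k
      induction k with
      | zero => intro u w; simp
      | succ k ih =>
        intro u w
        rw [pow_succ, Module.End.mul_apply, ih, S.q_L, ← pow_succ, pow_succ']
        rfl
    rw [this, hy', map_zero]
  have hadj2 : ∀ j x y, p 0 y = y → (L ^ j) y = 0 → q y (g j x) = 0 := by
    intro j x y _ hy'
    obtain ⟨a, ha'⟩ := ha j
    rw [ha', Module.End.mul_apply]
    have : ∀ (k : ℕ) (u w : V), q ((L ^ k) u) w = q u ((L ^ k) w) := by
      intro k
      induction k with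
      | zero => intro u w; simp
      | succ k ih =>
        intro u w
        rw [pow_succ, Module.End.mul_apply, ih, S.q_L, ← pow_succ, pow_succ']
        rfl
    rw [← this, hy', map_zero, LinearMap.zero_apply]
  have hgself : ∀ j x y, q (g j x) y = q x (g j y) := by
    intro j x y
    have hker : ∀ z, p 0 ((p 0 - g j) z) = (p 0 - g j) z ∧ (L ^ j) ((p 0 - g j) z) = 0 := by
      intro z
      constructor
      · rw [← Module.End.mul_apply, mul_sub, S.idem, (hp j).1]
      · rw [← Module.End.mul_apply, mul_sub, hL, sub_self, LinearMap.zero_apply]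
    have e1 : q (g j x) y = q (g j x) (g j y) := by
      have a1 : g j x = p 0 (g j x) := by rw [← Module.End.mul_apply, (hp j).1]
      rw [a1, S.q_left, neg_zero, ← a1]
      have a2 : p 0 y = g j y + (p 0 - g j) y := by rw [LinearMap.sub_apply]; abel
      rw [a2, map_add, hadj1 j x _ (hker y).1 (hker y).2, add_zero]
    have e2 : q x (g j y) = q (g j x) (g j y) := by
      have a1 : g j y = p 0 (g j y) := by rw [← Module.End.mul_apply, (hp j).1]
      rw [a1, S.q_right, neg_zero, ← a1]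
      have a2 : p 0 x = g j x + (p 0 - g j) x := by rw [LinearMap.sub_apply]; abel
      rw [a2, map_add, LinearMap.add_apply, hadj2 j y _ (hker x).1 (hker x).2, add_zero]
    rw [e1, e2]
  have hee : ∀ j, IsObj A (g j - g (j + 1)) := fun j =>
    (hobj j).sub (hobj (j + 1)) (hgg j (j + 1) (Nat.le_succ j)).1 (hgg j (j + 1) (Nat.le_succ j)).2
  have horth : ∀ i j, i < j → (g i - g (i + 1)) * (g j - g (j + 1)) = 0 ∧
      (g j - g (j + 1)) * (g i - g (i + 1)) = 0 := by
    intro i j hij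
    constructor
    · rw [sub_mul, mul_sub, mul_sub, (hgg i j hij.le).1, (hgg i (j + 1) (by omega)).1,
        (hgg (i + 1) j hij).1, (hgg (i + 1) (j + 1) (by omega)).1, sub_self]
    · rw [sub_mul, mul_sub, mul_sub, (hgg i j hij.le).2, (hgg i (j + 1) (by omega)).2,
        (hgg (i + 1) j hij).2, (hgg (i + 1) (j + 1) (by omega)).2]
      simp
  have horth' : ∀ i j, i ≠ j → (g i - g (i + 1)) * (g j - g (j + 1)) = 0 := by
    intro i j hij
    rcases lt_or_gt_of_ne hij with h1 | h1
    · exact (horth i j h1).1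
    · exact (horth j i h1).2
  refine ⟨fun j => g j - g (j + 1), hee, horth', ?_, ?_, ?_, ?_, ?_⟩
  · rw [Finset.sum_range_sub', h0, hout (m + 1) (Nat.lt_succ_self m), sub_zero]
  · intro j
    exact ⟨by rw [mul_sub, (hp j).1, (hp (j + 1)).1], by rw [sub_mul, (hp j).2, (hp (j + 1)).2]⟩
  · intro i j x y hij
    have a1 : q ((g i - g (i + 1)) x) ((g j - g (j + 1)) y) =
        q x ((g i - g (i + 1)) ((g j - g (j + 1)) y)) := by
      rw [LinearMap.sub_apply, map_sub, LinearMap.sub_apply, hgself, hgself,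
        LinearMap.sub_apply (g i), map_sub (q x)]
    rw [a1, ← Module.End.mul_apply (g i - g (i + 1)), horth' i j hij, LinearMap.zero_apply,
      map_zero]
  · intro j x hx
    obtain ⟨a, ha'⟩ := ha j
    set z := (g j - g (j + 1)) x with hz
    have hgz : g j z = z := by
      rw [hz, ← Module.End.mul_apply, mul_sub, (hobj j).idem, (hgg j (j + 1) (Nat.le_succ j)).1]
    have hz1 : z = (L ^ j) (p (-j) (a z)) := by
      conv_lhs => rw [← hgz, ha']
      rfl
    have hLz : (L ^ (j + 1)) z = 0 := by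
      have a1 : L ^ (j + 1) * g j = L ^ (j + 1) * g (j + 1) := by
        rw [← (hp j).1, ← mul_assoc, ← hL, mul_assoc, (hgg j (j + 1) (Nat.le_succ j)).2]
      rw [hz, ← Module.End.mul_apply, mul_sub, a1, sub_self, LinearMap.zero_apply]
    have hz0 : z ≠ 0 := hx
    have := S.hr j (a z) (by
      rw [show 2 * j + 1 = (j + 1) + j by ring, pow_add, Module.End.mul_apply, ← hz1, hLz])
      (by rw [← hz1]; exact hz0)
    rw [← hz1] at this
    exact this
  · intro j T
    have a1 := hd_add (T := T) (hee j) (hobj (j + 1))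
      (by rw [sub_mul, (hgg j (j + 1) (Nat.le_succ j)).1, (hobj (j + 1)).idem, sub_self])
      (by rw [mul_sub, (hgg j (j + 1) (Nat.le_succ j)).2, (hobj (j + 1)).idem, sub_self])
    rw [sub_add_cancel] at a1
    rw [← hd_congr (heqv j), ← hd_congr (heqv (j + 1)), a1]

end Side

end Pool.Agent.Y121.OV
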