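import Pool.Agent.Y121.OV.Reg
import Mathlib.RingTheory.Artinian.Ring

/-!
# Regularity of finite-dimensional algebras without nilpotent ideals
-/

open Module

namespace Pool.Agent.Y121.OV

set_option linter.unusedSectionVars false

variable {F V : Type*} [Field F] [AddCommGroup V] [Module F V] [FiniteDimensional F V]

/-- A semisimple ring is regular in the sense of von Neumann. -/
lemma exists_quasi_inverse {R : Type*} [Ring R] [IsSemisimpleRing R] (a : R) :
    ∃ b, a * b * a = a := by
  obtain ⟨J, hJ⟩ := exists_isCompl (Submodule.span R {a})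
  have h1 : (1 : R) ∈ Submodule.span R {a} ⊔ J := by
    rw [hJ.sup_eq_top]
    trivial
  obtain ⟨e, he, f, hf, hef⟩ := Submodule.mem_sup.1 h1
  obtain ⟨b, rfl⟩ := Submodule.mem_span_singleton.1 he
  refine ⟨b, ?_⟩
  have h2 : a * f = a - a * (b • a) := by
    have : a * (b • a + f) = a := by rw [hef, mul_one]
    rw [mul_add] at this
    exact eq_sub_of_add_eq' this
  have h3 : a * f ∈ Submodule.span R {a} ⊓ J := by
    refine ⟨?_, J.smul_mem a hf⟩
    rw [h2]
    exact Submodule.sub_mem _ (Submodule.mem_span_singleton_self a)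
      (Submodule.smul_mem _ a (Submodule.smul_mem _ b (Submodule.mem_span_singleton_self a)))
  rw [hJ.inf_eq_bot, Submodule.mem_bot, h2, sub_eq_zero, smul_eq_mul, ← mul_assoc] at h3
  exact h3.symm

/-- A criterion for regularity. -/
theorem reg_of (A : Subalgebra F (End F V))
    (h : ∀ a ∈ A, (∀ b ∈ A, ∀ c ∈ A, IsNilpotent (b * a * c)) → a = 0) : Reg A := by
  have hart : IsArtinianRing A := IsArtinianRing.of_finite F A
  have hjac : Ring.jacobson A = ⊥ := by
    rw [eq_bot_iff]
    intro a ha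
    rw [Submodule.mem_bot]
    apply Subtype.ext
    refine h a.1 a.2 fun b hb c hc => ?_
    have h1 : (⟨b, hb⟩ * a * ⟨c, hc⟩ : A) ∈ Ring.jacobson A :=
      Ideal.mul_mem_right _ _ (Ideal.mul_mem_left _ _ ha)
    obtain ⟨n, hn⟩ := (IsSemiprimaryRing.isNilpotent : IsNilpotent (Ring.jacobson A))
    refine ⟨n, ?_⟩
    have h2 := Ideal.pow_mem_pow h1 n
    rw [hn] at h2
    have h3 : (⟨b, hb⟩ * a * ⟨c, hc⟩ : A) ^ n = 0 := h2
    have h4 := congrArg Subtype.val h3
    exact h4
  have hss : IsSemisimpleRing A := IsArtinianRing.isSemisimpleRing_iff_jacobson.2 hjac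
  intro a ha
  obtain ⟨b, hb⟩ := exists_quasi_inverse (⟨a, ha⟩ : A)
  exact ⟨b.1, b.2, congrArg Subtype.val hb⟩

end Pool.Agent.Y121.OV
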