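import Pool.Agent.Y121.OV.Alg
import Pool.Agent.Y121.OV.Wed

/-!
# The algebra of the operators induced by correspondences is regular
-/

open CategoryTheory AlgebraicGeometry Module

universe u v

namespace Pool.Agent.Y121.OV

open Pool.Agent.H914 Pool.Agent.H914.VarClass Pool.Agent.H914.VarClass.Obj Pool.Agent.W492.BB
  Pool.Agent.W550.Corr Pool.Agent.TH133 Pool.Agent.Y121.NK Pool.Agent.TH829.Kim

set_option linter.unusedSectionVars false

variable {k : Type u} [Field k] {𝒱 : VarClass k} {C : TheoryData.{u, v, 0} 𝒱 ℚ}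
  [hC : IsChowProj C] (H : WeilTheoryData.{u, v, 0} C ℚ) [hH : IsWeilProj H] {X Y Z W : 𝒱.Obj}

include hC hH

/-- The argument of Jannsen. -/
theorem cl_eq_zero_of_nilpotent (hcomm : IsGradedComm H) (hD : NumEqHom H (X.prod X))
    [FiniteDimensional ℚ (H.A X)] {Γ : C.A (X.prod X)}
    (hn : ∀ Δ : C.A (X.prod X), IsNilpotent ((H.actL (H.cl Δ) ∘ₗ H.actL (H.cl Γ) :
      End ℚ (H.A X)))) : H.cl Γ = 0 := by
  have hne : ∀ X : 𝒱.Obj, (1 : C.A X) ≠ 0 := fun X => one_ne H X
  obtain ⟨x, rfl⟩ : ∃ x : Cor C X, cA C X x = Γ := ⟨Γ, rfl⟩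
  apply hD
  change NumZero C (cA C X x)
  rw [numZero_iff hne]
  intro y
  rw [trA_comm]
  have h1 := trace_cor H hcomm hne X (y * x)
  have h2 : H.actL (H.cl (cA C X (y * x))) = H.actL (H.cl (cA C X y)) ∘ₗ H.actL (H.cl (cA C X x)) :=
    LinearMap.ext fun z => actH_comp H (X := X) (Y := X) (Z := X) (cA C X x) (cA C X y) z
  have h3 : Commute (sgn H X : End ℚ (H.A X)) (H.actL (H.cl (cA C X (y * x)))) :=
    sgn_act H (y * x)
  have h4 : IsNilpotent ((sgn H X : End ℚ (H.A X)) * (H.actL (H.cl (cA C X (y * x))))) := by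
    rw [h2]
    rw [h2] at h3
    exact Commute.isNilpotent_mul_left h3 (hn (cA C X y))
  have h5 := LinearMap.isNilpotent_trace_of_isNilpotent h4
  have h6 : LinearMap.trace ℚ (H.A X) (sgn H X ∘ₗ H.actL (H.cl (cA C X (y * x)))) = 0 :=
    h5.eq_zero
  rw [h6] at h1
  exact_mod_cast h1.symm

variable {κX : C.A X} {κY : C.A Y} {v : ℕ → C.A (X.prod Y)} {w : C.A (Y.prod X)}

/-- The Mukai vector. -/
noncomputable abbrev vt (v : ℕ → C.A (X.prod Y)) : C.A (X.prod Y) :=
  ∑ i ∈ Finset.range (2 * X.dim + 1), v i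

/-- The operator of the Mukai vector and its inverse. -/
noncomputable def Phi (v : ℕ → C.A (X.prod Y)) : End ℚ (H.A X × H.A Y) :=
  j21 (H.actL (H.cl (vt v)))

@[inherit_doc Phi]
noncomputable def Psi (w : C.A (Y.prod X)) : End ℚ (H.A X × H.A Y) :=
  j12 (H.actL (H.cl w))

lemma Phi_mem : Phi H v ∈ algB H X Y := j21_mem H ⟨_, rfl⟩

lemma Psi_mem : Psi H w ∈ algB H X Y := j12_mem H ⟨_, rfl⟩

variable (hFM : IsFM C κX κY v w)

include hFM

lemma act_left (x : H.A X) : H.act (H.cl w) (H.act (H.cl (vt v)) x) = x := by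
  rw [← actH_comp H (vt v) w x, hFM.left]
  exact actH_dg H x

lemma act_right (y : H.A Y) : H.act (H.cl (vt v)) (H.act (H.cl w) y) = y := by
  rw [← actH_comp H w (vt v) y, hFM.right]
  exact actH_dg H y

lemma Psi_Phi : Psi H w * Phi H v = j11 LinearMap.id := by
  rw [Psi, Phi, j12_mul_j21]
  congr 1
  exact LinearMap.ext fun x => act_left H hFM x

lemma Phi_Psi : Phi H v * Psi H w = j22 LinearMap.id := by
  rw [Psi, Phi, j21_mul_j12]
  congr 1
  exact LinearMap.ext fun x => act_right H hFM x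

/-- **The algebra of the operators induced by correspondences is regular.** -/
theorem reg_algB (hcomm : IsGradedComm H) (hD : NumEqHom H (X.prod X))
    [FiniteDimensional ℚ (H.A X)] [FiniteDimensional ℚ (H.A Y)] : Reg (algB H X Y) := by
  set A := algB H X Y with hA
  set e1 : End ℚ (H.A X × H.A Y) := j11 LinearMap.id with he1
  set e2 : End ℚ (H.A X × H.A Y) := j22 LinearMap.id with he2
  have e1A : e1 ∈ A := j11_mem H (Alg.id H X)
  have e2A : e2 ∈ A := j22_mem H (Alg.id H Y)
  have e12 : e1 + e2 = 1 := by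
    apply LinearMap.ext
    intro z
    apply Prod.ext
    · simp [he1, he2, j11_apply, j22_apply]
    · simp [he1, he2, j11_apply, j22_apply]
  -- the corner
  have key : ∀ g ∈ A, e1 * g * e1 = g → (∀ b ∈ A, IsNilpotent (b * g)) → g = 0 := by
    intro g hg hgg hb
    obtain ⟨Γ, hΓ⟩ := hg.1
    have hg1 : g = j11 (H.actL (H.cl Γ)) := by
      rw [← hgg, hΓ]
      apply LinearMap.ext
      rintro ⟨x, y⟩
      simp only [Module.End.mul_apply, he1, j11_apply, LinearMap.id_apply, c11_apply]
    have hcl : H.cl Γ = 0 := by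
      apply cl_eq_zero_of_nilpotent H hcomm hD
      intro Δ
      obtain ⟨n, hn⟩ := hb _ (j11_mem H ⟨Δ, rfl⟩)
      rw [hg1, j11_mul] at hn
      refine ⟨n, ?_⟩
      apply LinearMap.ext
      intro x
      have h1 : ∀ (m : ℕ) (x : H.A X), ((j11 (H.actL (H.cl Δ) ∘ₗ H.actL (H.cl Γ)) :
          End ℚ (H.A X × H.A Y)) ^ m) (x, 0) =
          (((H.actL (H.cl Δ) ∘ₗ H.actL (H.cl Γ) : End ℚ (H.A X)) ^ m) x, 0) := by
        intro m
        induction m with
        | zero => intro x; rfl
        | succ m ih =>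
          intro x
          rw [pow_succ, pow_succ, Module.End.mul_apply, j11_apply, ih, Module.End.mul_apply]
      have h2 := h1 n x
      rw [hn] at h2
      exact (congrArg Prod.fst h2).symm
    rw [hg1, hcl]
    apply LinearMap.ext
    intro z
    rw [j11_apply, H.actL_apply, H.act_zero]
    rfl
  have hΦe : Phi H v * e1 = Phi H v := by
    rw [Phi, he1, j21_mul_j11, LinearMap.comp_id]
  have heΨ : e1 * Psi H w = Psi H w := by
    rw [Psi, he1, j11_mul_j12, LinearMap.id_comp]
  apply reg_of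
  intro a ha hn
  -- the blocks
  have k11 : e1 * a * e1 = 0 := by
    apply key _ (A.mul_mem (A.mul_mem e1A ha) e1A)
    · have h1 : e1 * e1 = e1 := by rw [he1, j11_mul, LinearMap.comp_id]
      calc e1 * (e1 * a * e1) * e1 = (e1 * e1) * a * (e1 * e1) := by simp only [mul_assoc]
        _ = _ := by rw [h1]
    · intro b hb
      have := hn (b * e1) (A.mul_mem hb e1A) e1 e1A
      simpa only [mul_assoc] using this
  have k21 : Psi H w * a * e1 = 0 := by
    apply key _ (A.mul_mem (A.mul_mem (Psi_mem H) ha) e1A)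
    · have h1 : e1 * e1 = e1 := by rw [he1, j11_mul, LinearMap.comp_id]
      calc e1 * (Psi H w * a * e1) * e1 = (e1 * Psi H w) * a * (e1 * e1) := by
            simp only [mul_assoc]
        _ = _ := by rw [h1, heΨ]
    · intro b hb
      have := hn (b * Psi H w) (A.mul_mem hb (Psi_mem H)) e1 e1A
      simpa only [mul_assoc] using this
  have k12 : e1 * a * Phi H v = 0 := by
    apply key _ (A.mul_mem (A.mul_mem e1A ha) (Phi_mem H))
    · have h1 : e1 * e1 = e1 := by rw [he1, j11_mul, LinearMap.comp_id]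
      calc e1 * (e1 * a * Phi H v) * e1 = (e1 * e1) * a * (Phi H v * e1) := by
            simp only [mul_assoc]
        _ = _ := by rw [h1, hΦe]
    · intro b hb
      have := hn (b * e1) (A.mul_mem hb e1A) (Phi H v) (Phi_mem H)
      simpa only [mul_assoc] using this
  have k22 : Psi H w * a * Phi H v = 0 := by
    apply key _ (A.mul_mem (A.mul_mem (Psi_mem H) ha) (Phi_mem H))
    · calc e1 * (Psi H w * a * Phi H v) * e1 = (e1 * Psi H w) * a * (Phi H v * e1) := by
            simp only [mul_assoc]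
        _ = _ := by rw [heΨ, hΦe]
    · intro b hb
      have := hn (b * Psi H w) (A.mul_mem hb (Psi_mem H)) (Phi H v) (Phi_mem H)
      simpa only [mul_assoc] using this
  have m21 : e2 * a * e1 = 0 := by
    calc e2 * a * e1 = Phi H v * (Psi H w * a * e1) := by
          rw [he2, ← Phi_Psi H hFM]; simp only [mul_assoc]
      _ = 0 := by rw [k21, mul_zero]
  have m12 : e1 * a * e2 = 0 := by
    calc e1 * a * e2 = (e1 * a * Phi H v) * Psi H w := by
          rw [he2, ← Phi_Psi H hFM]; simp only [mul_assoc]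
      _ = 0 := by rw [k12, zero_mul]
  have m22 : e2 * a * e2 = 0 := by
    calc e2 * a * e2 = Phi H v * (Psi H w * a * Phi H v) * Psi H w := by
          rw [he2, ← Phi_Psi H hFM]; simp only [mul_assoc]
      _ = 0 := by rw [k22, mul_zero, zero_mul]
  calc a = (e1 + e2) * a * (e1 + e2) := by rw [e12, one_mul, mul_one]
    _ = e1 * a * e1 + e2 * a * e1 + (e1 * a * e2 + e2 * a * e2) := by
        rw [mul_add, add_mul, add_mul, add_mul]
    _ = 0 := by rw [k11, m21, m12, m22]; simp

end Pool.Agent.Y121.OV
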